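import Pool.Agent.H550U.W.TC

/-!
# For almost all pairs `(y, s)` there are many `t` such that `t + 1`, `y + t + 1` and `s - t + 1` are primes
-/

namespace Pool.Agent.H550U.W

open Finset Polynomial
open Pool.Agent.H373R2.T7

lemma sum_ite_seg (N x : ℕ) (hN : N ≤ x) (f : ℕ → ℝ) :
    ∑ n ∈ Icc 1 x, (if n ≤ N then ArithmeticFunction.vonMangoldt n else 0) * f n =
      ∑ n ∈ Icc 1 N, ArithmeticFunction.vonMangoldt n * f n := by
  have h1 : ∀ n ∈ Icc 1 x, (if n ≤ N then ArithmeticFunction.vonMangoldt n else 0) * f n =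
      if n ≤ N then ArithmeticFunction.vonMangoldt n * f n else 0 := by
    intro n _
    split_ifs
    · rfl
    · rw [zero_mul]
  rw [sum_congr rfl h1, ← sum_filter]
  congr 1
  ext n
  rw [mem_filter, mem_Icc, mem_Icc]
  constructor
  · rintro ⟨⟨a, b⟩, c⟩; exact ⟨a, c⟩
  · rintro ⟨a, b⟩; exact ⟨⟨a, b.trans hN⟩, b⟩

lemma sum_seg_sub (u v : ℕ) (h : u ≤ v) (f : ℕ → ℝ) :
    ∑ n ∈ Icc 1 v, f n - ∑ n ∈ Icc 1 u, f n = ∑ n ∈ Ioc u v, f n := by
  have h1 : Icc 1 v = Icc 1 u ∪ Ioc u v := by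
    ext n
    rw [mem_union, mem_Icc, mem_Icc, mem_Ioc]
    omega
  rw [h1, sum_union]
  · ring
  · rw [disjoint_left]
    intro n hn hn'
    rw [mem_Icc] at hn
    rw [mem_Ioc] at hn'
    omega

open Classical in
/-- the window estimate, in terms of the constants -/
lemma window (y s u' v' x : ℕ) (z : ℕ) (δ e : ℝ) (hy : 6 ∣ y) (hs : 6 ∣ s) (hu : 3 ≤ u') (huv : u' ≤ v') (hv : v' ≤ s)
    (hyx : y + s + 2 ≤ x)
    (h1 : |∑ n ∈ Icc 1 (u' + 1), ArithmeticFunction.vonMangoldt n * (Wt (av y s) n - Wm z (av y s) n)| ≤ e)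
    (h2 : |∑ n ∈ Icc 1 (v' + 1), ArithmeticFunction.vonMangoldt n * (Wt (av y s) n - Wm z (av y s) n)| ≤ e)
    (h3 : |∑ n ∈ Icc 1 (u' + 1), ArithmeticFunction.vonMangoldt n * Wm z (av y s) n - δ * ((u' + 1 : ℕ) : ℝ)| ≤ e)
    (h4 : |∑ n ∈ Icc 1 (v' + 1), ArithmeticFunction.vonMangoldt n * Wm z (av y s) n - δ * ((v' + 1 : ℕ) : ℝ)| ≤ e) :
    δ * ((v' : ℝ) - u') - 4 * e ≤ Real.log x ^ 3 * (#((Ioc u' v').filter fun t => PP t ∧ PP (y + t) ∧ PP (s - t)) + 1) +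
        Real.log x ^ 2 * (2 * √x * Real.log x) := by
  refine le_trans ?_ (count_ge y s u' v' x hy hs hu huv hv hyx)
  rw [← sum_seg_sub (u' + 1) (v' + 1) (by omega)]
  have a1 : ∀ N : ℕ, ∑ n ∈ Icc 1 N, ArithmeticFunction.vonMangoldt n * (Wt (av y s) n - Wm z (av y s) n) =
      ∑ n ∈ Icc 1 N, ArithmeticFunction.vonMangoldt n * Wt (av y s) n -
        ∑ n ∈ Icc 1 N, ArithmeticFunction.vonMangoldt n * Wm z (av y s) n := by
    intro N
    rw [← sum_sub_distrib]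
    exact sum_congr rfl fun n _ => by ring
  rw [a1] at h1 h2
  have b1 := abs_le.1 h1
  have b2 := abs_le.1 h2
  have b3 := abs_le.1 h3
  have b4 := abs_le.1 h4
  push_cast at b3 b4
  have c1 : δ * ((v' : ℝ) + 1) - δ * ((u' : ℝ) + 1) = δ * ((v' : ℝ) - u') := by ring
  linarith [b1.1, b1.2, b2.1, b2.2, b3.1, b3.2, b4.1, b4.2]

open Classical in
/-- For almost all pairs `(y, s)` of multiples of `6` up to `X`, every window which is not too short contains many `t`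
such that `t`, `y + t` and `s - t` are in `PP`. -/
theorem tc (U C : ℕ) : ∃ X₀ : ℕ, ∀ X : ℕ, X₀ ≤ X → ∃ S : Finset (ℕ × ℕ), (#S : ℝ) ≤ (X : ℝ) ^ 2 / Real.log X ^ U ∧
    ∀ y s : ℕ, 1 ≤ y → y ≤ X → s ≤ X → 6 ∣ y → 6 ∣ s → (y, s) ∉ S → ∀ u v : ℕ, v ≤ s →
      (X : ℝ) / Real.log X ^ C ≤ u → (X : ℝ) / Real.log X ^ C ≤ (v : ℝ) - u →
      ((v : ℝ) - u) / Real.log X ^ 6 ≤ #((Ioc u v).filter fun t => PP t ∧ PP (y + t) ∧ PP (s - t)) := by
  obtain ⟨U₁, hU₁⟩ : ∃ U₁, U₁ = U + C + 12 := ⟨_, rfl⟩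
  obtain ⟨B0, hB0⟩ := exc U₁ (C + 2)
  obtain ⟨N1, hN1⟩ := hB0 (B0 + 1)
  obtain ⟨N2, hN2⟩ := model_seg U₁ (B0 + 2)
  obtain ⟨N3, hN3⟩ := Vz_inv_small (B0 + 1)
  obtain ⟨K, hK⟩ : ∃ K : ℝ, K = 200 * 2 ^ U₁ + 2 ^ (B0 + 2) + 300 := ⟨_, rfl⟩
  have hK1 : (0 : ℝ) < 2 ^ U₁ := by positivity
  have hK2 : (0 : ℝ) < 2 ^ (B0 + 2) := by positivity
  obtain ⟨N4, hN4⟩ := ev_L' K
  obtain ⟨N5, hN5⟩ := ev_log' (C + 12) 1000
  refine ⟨max (max N1 (N2 + 1)) (max (N3 + N4) N5) + N2 ^ 2 + 10, fun X hX => ?_⟩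
  have m0 : max (max N1 (N2 + 1)) (max (N3 + N4) N5) ≤ X := by omega
  have m1 : N1 ≤ X := ((le_max_left _ _).trans (le_max_left _ _)).trans m0
  have m3 : N3 + N4 ≤ X := ((le_max_left _ _).trans (le_max_right _ _)).trans m0
  have m5 : N5 ≤ X := ((le_max_right _ _).trans (le_max_right _ _)).trans m0
  have mN2 : N2 ^ 2 ≤ X := by omega
  have hX10 : 10 ≤ X := by omega
  have hXr : (10 : ℝ) ≤ X := by exact_mod_cast hX10
  have hX0 : (0 : ℝ) < X := by linarith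
  obtain ⟨l, hl⟩ : ∃ l, l = Real.log X := ⟨_, rfl⟩
  have hlK : K ≤ l := by rw [hl]; exact hN4 X (by omega)
  have hl300 : 300 ≤ l := by linarith
  have hl0 : 0 < l := by linarith
  have hl1 : 1 ≤ l := by linarith
  have hsq : 1000 * l ^ (C + 12) ≤ √(X : ℝ) := by rw [hl]; exact hN5 X m5
  have hsqX : √(X : ℝ) * √(X : ℝ) = X := Real.mul_self_sqrt hX0.le
  have hs0 : 0 < √(X : ℝ) := Real.sqrt_pos.2 hX0
  -- `x`
  obtain ⟨x, hx⟩ : ∃ x : ℕ, x = 2 * X + 2 := ⟨_, rfl⟩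
  have hxX : X ≤ x := by omega
  have hxr : (x : ℝ) ≤ 3 * X := by rw [hx]; push_cast; linarith
  have hx0 : (0 : ℝ) < x := by exact_mod_cast (by omega : 0 < x)
  obtain ⟨lx, hlx⟩ : ∃ lx, lx = Real.log x := ⟨_, rfl⟩
  have hlx1 : l ≤ lx := by rw [hl, hlx]; exact Real.log_le_log hX0 (by exact_mod_cast hxX)
  have hlx2 : lx ≤ 2 * l := by
    have h1 : Real.log x ≤ Real.log (3 * X) := Real.log_le_log hx0 hxr
    rw [Real.log_mul (by norm_num) (by linarith)] at h1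
    have h2 : Real.log 3 ≤ 3 - 1 := Real.log_le_sub_one_of_pos (by norm_num)
    rw [hlx]; linarith
  have hlx0 : 0 < lx := by linarith
  -- `z`
  obtain ⟨z, hz⟩ : ∃ z : ℕ, z = ⌈lx ^ B0⌉₊ := ⟨_, rfl⟩
  have hz1 : lx ^ B0 ≤ z := by rw [hz]; exact Nat.le_ceil _
  have hzpow1 : 1 ≤ lx ^ B0 := one_le_pow₀ (by linarith)
  have hz2 : (z : ℝ) ≤ lx ^ (B0 + 1) := by
    have h1 : (z : ℝ) < lx ^ B0 + 1 := by rw [hz]; exact Nat.ceil_lt_add_one (by positivity)
    rw [pow_succ]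
    nlinarith
  have hz3 : 1 ≤ z := by
    have : (1 : ℝ) ≤ z := hzpow1.trans hz1
    exact_mod_cast this
  have hV : (Vz z)⁻¹ ≤ lx := by rw [hlx]; exact hN3 x (by omega) z hz3 (by rw [← hlx]; exact hz2)
  have hVp := Vz_pos z
  -- the grid
  obtain ⟨κ, hκ⟩ : ∃ κ : ℕ, κ = ⌊(X : ℝ) / l ^ (C + 1)⌋₊ := ⟨_, rfl⟩
  have hκ1 : (κ : ℝ) ≤ X / l ^ (C + 1) := by rw [hκ]; exact Nat.floor_le (by positivity)
  have hκ2 : (X : ℝ) / (2 * l ^ (C + 1)) ≤ κ := by
    have h1 : (X : ℝ) / l ^ (C + 1) < κ + 1 := by rw [hκ]; exact Nat.lt_floor_add_one _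
    have h2 : (2 : ℝ) ≤ X / l ^ (C + 1) := by
      rw [le_div_iff₀ (by positivity)]
      have h3 : l ^ (C + 1) ≤ l ^ (C + 12) := pow_le_pow_right₀ hl1 (by omega)
      have h4 : 1 ≤ √(X : ℝ) := by
        have : 1 ≤ l ^ (C + 12) := one_le_pow₀ hl1
        linarith
      nlinarith
    have h3 : (X : ℝ) / (2 * l ^ (C + 1)) = X / l ^ (C + 1) / 2 := by
      field_simp
    rw [h3]; linarith
  have hκ0 : 0 < κ := by
    have : (0 : ℝ) < κ := lt_of_lt_of_le (by positivity) hκ2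
    exact_mod_cast this
  obtain ⟨S', hS'1, hS'2⟩ := hN1 x (by omega) z (by rw [← hlx]; exact hz1) (by rw [← hlx]; exact hz2) κ
  rw [← hlx] at hS'1 hS'2
  refine ⟨S'.image fun a => (a 0, a 1 - 2), ?_, ?_⟩
  · have h1 : (#(S'.image fun a => (a 0, a 1 - 2)) : ℝ) ≤ #S' := by exact_mod_cast card_image_le
    refine h1.trans (hS'1.trans ?_)
    rw [← hl]
    have h2 : (x : ℝ) ^ 2 ≤ 9 * (X : ℝ) ^ 2 := by nlinarith
    have h3 : l ^ (U + 1) ≤ lx ^ U₁ := by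
      calc l ^ (U + 1) ≤ l ^ U₁ := pow_le_pow_right₀ hl1 (by omega)
        _ ≤ lx ^ U₁ := pow_le_pow_left₀ hl0.le hlx1 _
    calc (x : ℝ) ^ 2 / lx ^ U₁ ≤ 9 * (X : ℝ) ^ 2 / l ^ (U + 1) := div_le_div₀ (by positivity) h2 (by positivity) h3
      _ = (X : ℝ) ^ 2 / l ^ U * (9 / l) := by rw [pow_succ l U]; field_simp
      _ ≤ (X : ℝ) ^ 2 / l ^ U * 1 := by
          have : 9 / l ≤ 1 := by rw [div_le_one hl0]; linarith
          gcongr
      _ = _ := mul_one _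
  · intro y s hy1 hyX hsX hy hs hS u v hvs hu huv
    rw [← hl] at hu huv ⊢
    have hav : av y s ∉ S' := by
      intro h
      apply hS
      rw [mem_image]
      exact ⟨av y s, h, by simp [av]⟩
    have havP : av y s ∈ Fintype.piFinset (fun _ : Fin 2 => Icc 1 x) := by
      rw [Fintype.mem_piFinset]
      intro i
      rw [mem_Icc]
      fin_cases i
      · simp only [av]; simp; omega
      · simp only [av]; simp; omega
    -- the grid points
    have hXlC : 0 < (X : ℝ) / l ^ C := by positivity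
    have hκv : 4 * (κ : ℝ) ≤ (v : ℝ) - u := by
      refine le_trans ?_ huv
      calc 4 * (κ : ℝ) ≤ 4 * (X / l ^ (C + 1)) := by linarith
        _ = X / l ^ C * (4 / l) := by rw [pow_succ]; field_simp
        _ ≤ X / l ^ C * 1 := by
            have : 4 / l ≤ 1 := by rw [div_le_one hl0]; linarith
            gcongr
        _ = _ := mul_one _
    obtain ⟨i, hi⟩ : ∃ i, i = u / κ + 1 := ⟨_, rfl⟩
    obtain ⟨j, hj⟩ : ∃ j, j = v / κ := ⟨_, rfl⟩
    have hi1 : u ≤ i * κ := by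
      have h1 := Nat.div_add_mod u κ
      have h2 := Nat.mod_lt u hκ0
      have h3 : i * κ = κ * (u / κ) + κ := by rw [hi]; ring
      omega
    have hi2 : i * κ ≤ u + κ := by
      have h1 := Nat.div_add_mod u κ
      have h3 : i * κ = κ * (u / κ) + κ := by rw [hi]; ring
      omega
    have hj1 : j * κ ≤ v := by rw [hj]; exact Nat.div_mul_le_self v κ
    have hj2 : v ≤ j * κ + κ := by
      have h1 := Nat.div_add_mod v κ
      have h2 := Nat.mod_lt v hκ0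
      have h3 : j * κ = κ * (v / κ) := by rw [hj]; ring
      omega
    have hi2r : ((i * κ : ℕ) : ℝ) ≤ u + κ := by exact_mod_cast hi2
    have hi1r : (u : ℝ) ≤ ((i * κ : ℕ) : ℝ) := by exact_mod_cast hi1
    have hj1r : ((j * κ : ℕ) : ℝ) ≤ v := by exact_mod_cast hj1
    have hj2r : (v : ℝ) ≤ ((j * κ : ℕ) : ℝ) + κ := by exact_mod_cast hj2
    have hκr : (0 : ℝ) < κ := by exact_mod_cast hκ0
    have hij : i * κ ≤ j * κ := by
      have : ((i * κ : ℕ) : ℝ) ≤ ((j * κ : ℕ) : ℝ) := by linarith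
      exact_mod_cast this
    have hvX : (v : ℝ) ≤ X := by exact_mod_cast (by omega : v ≤ X)
    have hsqu : 1000 * l ^ 12 * √(X : ℝ) ≤ u := by
      refine le_trans ?_ hu
      rw [le_div_iff₀ (by positivity)]
      calc 1000 * l ^ 12 * √(X : ℝ) * l ^ C = (1000 * l ^ (C + 12)) * √(X : ℝ) := by rw [pow_add]; ring
        _ ≤ √(X : ℝ) * √(X : ℝ) := by gcongr
        _ = X := hsqX
    have hl12 : 1 ≤ l ^ 12 := one_le_pow₀ hl1
    have hu1 : 1000 * √(X : ℝ) ≤ u := by nlinarith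
    have hsX3 : (3 : ℝ) ≤ √(X : ℝ) := by
      rw [Real.le_sqrt (by norm_num) hX0.le]; linarith
    -- index bounds
    have hidx : ∀ i' : ℕ, i' * κ ≤ X → (i' : ℝ) ≤ lx ^ (C + 2) := by
      intro i' hi'
      have h1 : (i' : ℝ) * κ ≤ X := by exact_mod_cast hi'
      have h2 : (i' : ℝ) ≤ 2 * l ^ (C + 1) := by
        have h3 : (i' : ℝ) * (X / (2 * l ^ (C + 1))) ≤ X := le_trans (by gcongr) h1
        rw [mul_div_assoc', div_le_iff₀ (by positivity)] at h3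
        nlinarith
      calc (i' : ℝ) ≤ 2 * l ^ (C + 1) := h2
        _ ≤ l * l ^ (C + 1) := by gcongr; linarith
        _ = l ^ (C + 2) := by ring
        _ ≤ lx ^ (C + 2) := pow_le_pow_left₀ hl0.le hlx1 _
    have hjX : j * κ ≤ X := by omega
    have hiX : i * κ ≤ X := by omega
    -- the error
    obtain ⟨e, he⟩ : ∃ e : ℝ, e = 2 ^ U₁ * (x : ℝ) / lx ^ U₁ := ⟨_, rfl⟩
    have hdiff : ∀ i' : ℕ, i' * κ ≤ X →
        |∑ n ∈ Icc 1 (i' * κ + 1), ArithmeticFunction.vonMangoldt n * (Wt (av y s) n - Wm z (av y s) n)| ≤ e := by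
      intro i' hi'
      have h1 := hS'2 (av y s) havP hav i' (hidx i' hi')
      rw [sum_ite_seg (i' * κ + 1) x (by omega)] at h1
      refine h1.trans ?_
      rw [he]
      have : (1 : ℝ) ≤ 2 ^ U₁ := one_le_pow₀ (by norm_num)
      gcongr
      nlinarith
    obtain ⟨δ, hδ⟩ : ∃ δ : ℝ, δ = ((Vz z)⁻¹) ^ 2 *
      ∏ p ∈ pz z, (1 - (rhoA (sysQ FF sg2 (av y s)) p : ℝ) / (p - 1 : ℝ)) := ⟨_, rfl⟩
    have hmod : ∀ i' : ℕ, u ≤ i' * κ → i' * κ ≤ s → i' * κ ≤ X →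
        |∑ n ∈ Icc 1 (i' * κ + 1), ArithmeticFunction.vonMangoldt n * Wm z (av y s) n - δ * ((i' * κ + 1 : ℕ) : ℝ)| ≤ e := by
      intro i' hi' hi's hi'X
      obtain ⟨N, hN⟩ : ∃ N, N = i' * κ + 1 := ⟨_, rfl⟩
      rw [← hN]
      have hNu : (u : ℝ) ≤ N := by exact_mod_cast (by omega : u ≤ N)
      have hNsq : √(x : ℝ) ≤ N := by
        have h1 : √(x : ℝ) ≤ √(3 * X) := Real.sqrt_le_sqrt hxr
        have h2 : √(3 * (X : ℝ)) ≤ 2 * √(X : ℝ) := by
          rw [Real.sqrt_le_left (by positivity)]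
          nlinarith
        linarith
      have hNx : (N : ℝ) ≤ x := by exact_mod_cast (by omega : N ≤ x)
      have hN0 : (0 : ℝ) < N := by exact_mod_cast (by omega : 0 < N)
      have hlN : lx / 2 ≤ Real.log N := by
        have h1 : Real.log (√(x : ℝ)) ≤ Real.log N := Real.log_le_log (Real.sqrt_pos.2 hx0) hNsq
        rw [Real.log_sqrt hx0.le] at h1
        rw [hlx]; linarith
      have hlN1 : 2 ^ (B0 + 1) ≤ Real.log N := by
        have : (2 : ℝ) ^ (B0 + 2) = 2 * 2 ^ (B0 + 1) := by ring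
        linarith
      have hlN0 : 0 < Real.log N := by
        have : (0 : ℝ) < 2 ^ (B0 + 1) := by positivity
        linarith
      have hNN2 : N2 ≤ N := by
        have h1 : (N2 : ℝ) ≤ √(X : ℝ) := by
          rw [Real.le_sqrt (by positivity) hX0.le]
          exact_mod_cast mN2
        have : (N2 : ℝ) ≤ N := by linarith
        exact_mod_cast this
      obtain ⟨δ', hδ', h5⟩ := hN2 N hNN2 y s hy1 hy hs (by omega) z hz3 (by
        refine hz2.trans ?_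
        calc lx ^ (B0 + 1) ≤ (2 * Real.log N) ^ (B0 + 1) := by gcongr; linarith
          _ = 2 ^ (B0 + 1) * Real.log N ^ (B0 + 1) := mul_pow _ _ _
          _ ≤ Real.log N * Real.log N ^ (B0 + 1) := by gcongr
          _ = Real.log N ^ (B0 + 2) := by ring)
      rw [hδ', ← hδ] at h5
      refine h5.trans ?_
      rw [he]
      have h6 : (lx / 2) ^ U₁ ≤ Real.log N ^ U₁ := by gcongr
      have h7 : (lx / 2) ^ U₁ = lx ^ U₁ / 2 ^ U₁ := div_pow _ _ _
      calc (N : ℝ) / Real.log N ^ U₁ ≤ x / (lx / 2) ^ U₁ := by gcongr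
        _ = 2 ^ U₁ * (x : ℝ) / lx ^ U₁ := by rw [h7]; field_simp
    have hmain := window y s (i * κ) (j * κ) x z δ e hy hs (by
      have : (3 : ℝ) ≤ ((i * κ : ℕ) : ℝ) := by linarith
      exact_mod_cast this) hij (by omega) (by omega) (hdiff i hiX) (hdiff j hjX) (hmod i hi1 (by omega) hiX)
      (hmod j (by omega) (by omega) hjX)
    rw [← hlx] at hmain
    -- the density
    have hδ1 : 1 / lx ^ 2 ≤ δ := by
      have h1 := dens_low y s z hy hs
      have h2 : (Vz z) ^ 2 ≤ δ := by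
        rw [hδ]
        calc (Vz z) ^ 2 = ((Vz z)⁻¹) ^ 2 * Vz z ^ 4 := by field_simp
          _ ≤ _ := by gcongr
      have h3 : 1 / lx ≤ Vz z := by
        rw [div_le_iff₀ hlx0]
        rw [inv_le_iff_one_le_mul₀ hVp] at hV
        linarith
      calc 1 / lx ^ 2 = (1 / lx) ^ 2 := by rw [div_pow, one_pow]
        _ ≤ (Vz z) ^ 2 := by gcongr
        _ ≤ δ := h2
    -- comparison
    obtain ⟨w, hw⟩ : ∃ w : ℝ, w = (v : ℝ) - u := ⟨_, rfl⟩
    rw [← hw] at huv hκv ⊢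
    have hw0 : 0 < w := lt_of_lt_of_le hXlC huv
    have hsqw : 1000 * l ^ 12 * √(X : ℝ) ≤ w := by
      refine le_trans ?_ huv
      rw [le_div_iff₀ (by positivity)]
      calc 1000 * l ^ 12 * √(X : ℝ) * l ^ C = (1000 * l ^ (C + 12)) * √(X : ℝ) := by rw [pow_add]; ring
        _ ≤ √(X : ℝ) * √(X : ℝ) := by gcongr
        _ = X := hsqX
    have hwin : w / 2 ≤ ((j * κ : ℕ) : ℝ) - ((i * κ : ℕ) : ℝ) := by linarith
    have hlow : w / 2 / lx ^ 2 ≤ δ * (((j * κ : ℕ) : ℝ) - ((i * κ : ℕ) : ℝ)) := by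
      calc w / 2 / lx ^ 2 = (1 / lx ^ 2) * (w / 2) := by ring
        _ ≤ δ * (((j * κ : ℕ) : ℝ) - ((i * κ : ℕ) : ℝ)) := by
            have : 0 ≤ δ := le_trans (by positivity) hδ1
            gcongr
    have herr : 4 * e ≤ w / 8 / lx ^ 2 := by
      have h1 : (x : ℝ) ≤ 3 * (w * l ^ C) := by
        rw [div_le_iff₀ (by positivity)] at huv
        linarith
      have h2 : l ^ C ≤ lx ^ C := pow_le_pow_left₀ hl0.le hlx1 _
      have h3 : 96 * 2 ^ U₁ ≤ lx := by linarith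
      have h4 : lx ^ U₁ = lx ^ C * lx ^ 2 * (lx ^ (U + 10)) := by
        rw [hU₁, ← pow_add, ← pow_add]; congr 1; ring
      have h5 : lx ≤ lx ^ (U + 10) := le_self_pow₀ (by linarith) (by omega)
      rw [he, h4]
      calc 4 * (2 ^ U₁ * (x : ℝ) / (lx ^ C * lx ^ 2 * lx ^ (U + 10)))
          ≤ 4 * (2 ^ U₁ * (3 * (w * lx ^ C)) / (lx ^ C * lx ^ 2 * (96 * 2 ^ U₁))) := by
            have : x ≤ 3 * (w * lx ^ C) := h1.trans (by gcongr)
            gcongr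
            exact h3.trans h5
        _ = w / 8 / lx ^ 2 := by field_simp; ring
    have herr2 : lx ^ 2 * (2 * √(x : ℝ) * lx) ≤ w / 8 / lx ^ 2 := by
      have h1 : √(x : ℝ) ≤ 2 * √(X : ℝ) := by
        have h1 : √(x : ℝ) ≤ √(3 * X) := Real.sqrt_le_sqrt hxr
        have h2 : √(3 * (X : ℝ)) ≤ 2 * √(X : ℝ) := by
          rw [Real.sqrt_le_left (by positivity)]
          nlinarith
        linarith
      rw [le_div_iff₀ (by positivity), le_div_iff₀ (by norm_num)]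
      calc lx ^ 2 * (2 * √(x : ℝ) * lx) * lx ^ 2 * 8 = 16 * lx ^ 5 * √(x : ℝ) := by ring
        _ ≤ 16 * (2 * l) ^ 5 * (2 * √(X : ℝ)) := by gcongr
        _ = 1024 * l ^ 5 * √(X : ℝ) := by ring
        _ ≤ 1000 * l ^ 12 * √(X : ℝ) := by
            have h3 : l ^ 12 = l ^ 5 * l ^ 7 := by ring
            have h4 : 2 ≤ l ^ 7 := by
              calc (2 : ℝ) ≤ l := by linarith
                _ ≤ l ^ 7 := le_self_pow₀ hl1 (by norm_num)
            rw [h3]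
            have h5 : 0 < l ^ 5 * √(X : ℝ) := by positivity
            nlinarith
        _ ≤ w := hsqw
    obtain ⟨T', hT'⟩ : ∃ T' : ℕ, T' = #((Ioc (i * κ) (j * κ)).filter fun t => PP t ∧ PP (y + t) ∧ PP (s - t)) := ⟨_, rfl⟩
    rw [← hT'] at hmain
    have hsub : T' ≤ #((Ioc u v).filter fun t => PP t ∧ PP (y + t) ∧ PP (s - t)) := by
      rw [hT']
      refine card_le_card (filter_subset_filter _ ?_)
      intro t ht
      rw [mem_Ioc] at ht ⊢
      omega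
    have hsubr : (T' : ℝ) ≤ #((Ioc u v).filter fun t => PP t ∧ PP (y + t) ∧ PP (s - t)) := by exact_mod_cast hsub
    refine le_trans ?_ hsubr
    have h1 : w / 4 / lx ^ 2 ≤ lx ^ 3 * (T' + 1) := by
      have : w / 2 / lx ^ 2 - w / 8 / lx ^ 2 - w / 8 / lx ^ 2 = w / 4 / lx ^ 2 := by ring
      linarith
    have h2 : w / (128 * l ^ 5) ≤ T' + 1 := by
      have h3 : w / 4 / lx ^ 2 / lx ^ 3 ≤ T' + 1 := by
        rw [div_le_iff₀ (by positivity)]; linarith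
      refine le_trans ?_ h3
      rw [div_div, div_div]
      have h4 : 4 * (lx ^ 2 * lx ^ 3) ≤ 128 * l ^ 5 := by
        calc 4 * (lx ^ 2 * lx ^ 3) = 4 * lx ^ 5 := by ring
          _ ≤ 4 * (2 * l) ^ 5 := by gcongr
          _ = 128 * l ^ 5 := by ring
      have h5 : 4 * lx ^ 2 * lx ^ 3 = 4 * (lx ^ 2 * lx ^ 3) := by ring
      first
        | (rw [h5]; gcongr)
        | gcongr
    have h3 : 1 ≤ w / (256 * l ^ 5) := by
      rw [le_div_iff₀ (by positivity), one_mul]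
      refine le_trans ?_ hsqw
      have h6 : l ^ 5 ≤ l ^ 12 := pow_le_pow_right₀ hl1 (by norm_num)
      have h7 : 0 < l ^ 12 := by positivity
      nlinarith
    have h4 : w / (128 * l ^ 5) = w / (256 * l ^ 5) + w / (256 * l ^ 5) := by field_simp; ring
    have h5 : w / l ^ 6 ≤ w / (256 * l ^ 5) := by
      have : 256 * l ^ 5 ≤ l ^ 6 := by
        calc 256 * l ^ 5 ≤ l * l ^ 5 := by gcongr; linarith
          _ = l ^ 6 := by ring
      gcongr
    linarith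

end Pool.Agent.H550U.W
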