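import Pool.Agent.H550U.W.Step
import Pool.Agent.H550U.W.TCmain

/-!
# The initial state and the infinite sequence
-/

namespace Pool.Agent.H550U.W

open Finset

lemma exists_TCat : ∃ X₁ : ℕ, ∀ X, X₁ ≤ X → ∃ S : Finset (ℕ × ℕ), TCat X S := by
  classical
  obtain ⟨X₀, h⟩ := tc 300 115
  refine ⟨X₀, fun X hX => ?_⟩
  obtain ⟨S, h1, h2⟩ := h X hX
  refine ⟨S, h1, ?_⟩
  intro y s hy hyX hsX hy6 hs6 hys u v hv hu huv Q hQ
  refine (h2 y s hy hyX hsX hy6 hs6 hys u v hv hu huv).trans (le_of_eq ?_)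
  congr 1
  congr 1
  ext t
  rw [hQ, mem_filter, mem_Ioc]

/-- the parameters of the first scale -/
lemma base_par (B : ℕ) : ∃ L M υ X : ℕ, Par L M υ 8 X ∧ B ≤ M := by
  obtain ⟨M, hM⟩ : ∃ M, M = B + ⌈Real.exp 1000000⌉₊ := ⟨_, rfl⟩
  have hM1 : Real.exp 1000000 ≤ M := by
    rw [hM]
    push_cast
    have h1 := Nat.le_ceil (Real.exp 1000000)
    have h2 : (0 : ℝ) ≤ B := Nat.cast_nonneg _
    linarith
  have hM0 : (0 : ℝ) < M := lt_of_lt_of_le (Real.exp_pos _) hM1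
  have hlog : 1000000 ≤ Real.log M := (Real.le_log_iff_exp_le hM0).mpr hM1
  obtain ⟨L, hL⟩ : ∃ L, L = ⌈Real.log M⌉₊ := ⟨_, rfl⟩
  have hLe : Real.log M ≤ L := by rw [hL]; exact Nat.le_ceil _
  have hLt : (L : ℝ) < Real.log M + 1 := by rw [hL]; exact Nat.ceil_lt_add_one (by linarith)
  have hL6 : 1000000 ≤ L := by
    have : (1000000 : ℝ) ≤ L := by linarith
    exact_mod_cast this
  have hL6r : (1000000 : ℝ) ≤ L := by exact_mod_cast hL6
  have hLp : ∀ n : ℕ, (0 : ℝ) < (L : ℝ) ^ n := fun n => pow_pos (by linarith) n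
  have hML : 2 * L ^ 55 ≤ M := by
    have h1 : Real.log (2 * (L : ℝ) ^ 55) ≤ Real.log M := by
      rw [Real.log_mul two_ne_zero (hLp 55).ne', Real.log_pow]
      have h2 := log_small hL6
      have h3 := Real.log_two_lt_d9
      have h4 : 0 ≤ Real.log L := Real.log_natCast_nonneg _
      push_cast
      linarith
    have h2 := (Real.log_le_log_iff (by have := hLp 55; linarith) hM0).mp h1
    exact_mod_cast h2
  have hLpos : 0 < L ^ 55 := Nat.pow_pos (by omega)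
  refine ⟨L, M, M / L ^ 55, M * L ^ 58, ⟨hL6, hLe, hLt.le, le_rfl, ?_, ?_, ?_, rfl⟩, by omega⟩
  · calc 8 ≤ L := by omega
      _ ≤ L ^ 2 := Nat.le_self_pow (by norm_num) _
  · calc M / L ^ 55 * L ^ 52 ≤ M / L ^ 55 * L ^ 55 :=
          Nat.mul_le_mul_left _ (Nat.pow_le_pow_right (by omega) (by norm_num))
      _ ≤ M := Nat.div_mul_le_self _ _
  · have h1 := Nat.div_add_mod M (L ^ 55)
    have h2 := Nat.mod_lt M hLpos
    have h3 : M ≤ 2 * (L ^ 55 * (M / L ^ 55)) := by omega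
    calc M ≤ 2 * (L ^ 55 * (M / L ^ 55)) := h3
      _ = M / L ^ 55 * (2 * L ^ 55) := by ring
      _ ≤ M / L ^ 55 * L ^ 57 := Nat.mul_le_mul_left _ (lp (by omega) (by omega) (by norm_num))

theorem base (X₁ : ℕ) (htc : ∀ X, X₁ ≤ X → ∃ S : Finset (ℕ × ℕ), TCat X S) (A : Finset ℕ) (hA : ∀ a ∈ A, (a + 1).Prime) :
    ∃ l : List ℕ, Good X₁ l ∧ l.Pairwise (· > ·) ∧ (∀ a ∈ l, (a + 1).Prime) ∧ ∀ a ∈ A, a ∈ l := by
  classical
  obtain ⟨L, M, υ, X, hp, hB⟩ := base_par (X₁ + A.sup id + 1)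
  obtain ⟨hM1, hυ1⟩ := hp.pos
  have hMX : M ≤ X := by
    rw [hp.hX]; exact Nat.le_mul_of_pos_right _ (Nat.pow_pos (by have := hp.hL; omega))
  obtain ⟨S, hS⟩ := htc X (by omega)
  have hL := hp.Lpos
  have hLn := hp.hL
  have hLp : ∀ n : ℕ, (0 : ℝ) < (L : ℝ) ^ n := fun n => pow_pos (by linarith) n
  have hE := hp.E_le hS
  have hυ0 : (0 : ℝ) < υ := by exact_mod_cast hυ1
  have hb := hp.M_big
  -- an unexceptional pair
  obtain ⟨v₀, hv1, hvX, hv6, hvE⟩ : ∃ v₀, 1 ≤ v₀ ∧ v₀ ≤ X ∧ 6 ∣ v₀ ∧ v₀ ∉ EE X S := by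
    by_contra hcon
    push Not at hcon
    have h1 : (range υ).image (fun j => 6 * (j + 1)) ⊆ EE X S := by
      intro v hv
      obtain ⟨j, hj, rfl⟩ := mem_image.mp hv
      rw [mem_range] at hj
      exact hcon _ (by omega) (by omega) (Nat.dvd_mul_right 6 _)
    have h2 := card_le_card h1
    rw [card_image_of_injective _ (fun a b h => by have h' : 6 * (a + 1) = 6 * (b + 1) := h; omega), card_range] at h2
    have h3 : (υ : ℝ) ≤ υ / (L : ℝ) ^ 184 := le_trans (by exact_mod_cast h2) hE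
    rw [le_div_iff₀ (hLp 184)] at h3
    have h4 : (2 : ℝ) ≤ (L : ℝ) ^ 184 := by
      calc (2 : ℝ) ≤ L := le_trans (by norm_num) hL
        _ ≤ (L : ℝ) ^ 184 := le_self_pow₀ (le_trans (by norm_num) hL) (by norm_num)
    have h5 : (υ : ℝ) * 2 ≤ υ * (L : ℝ) ^ 184 := mul_le_mul_of_nonneg_left h4 hυ0.le
    linarith only [h3, h5, hυ0]
  have hcard : ∀ i, i < NN L M υ 8 → 8 * (υ : ℝ) / (L : ℝ) ^ 7 ≤ #(wP M υ 8 (N0 L M υ 8) i) := by
    intro i hi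
    have htop := hp.top hi
    have hlow : M ≤ wpos M υ 8 (N0 L M υ 8) i := by unfold wpos; omega
    have hvE' := hvE
    unfold EE at hvE'
    rw [mem_filter, mem_range] at hvE'
    push Not at hvE'
    obtain ⟨s, hs1, hs2, hs3, hs4⟩ := hvE' (by omega)
    have hX8 : 8 * M ≤ X := by
      rw [hp.hX, mul_comm 8 M]
      refine Nat.mul_le_mul_left _ ?_
      calc 8 ≤ L := by omega
        _ ≤ L ^ 58 := Nat.le_self_pow (by norm_num) _
    have h1 := hp.ternary hS v₀ s hv1 hvX hs2 hv6 hs3 hs4 (wpos M υ 8 (N0 L M υ 8) i)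
      (wpos M υ 8 (N0 L M υ 8) i + 8 * υ) (by omega) hlow (by omega)
      ((Ioc (wpos M υ 8 (N0 L M υ 8) i) (wpos M υ 8 (N0 L M υ 8) i + 8 * υ)).filter
        fun t => PP t ∧ PP (v₀ + t) ∧ PP (s - t)) (fun t => by rw [mem_filter, mem_Ioc])
    have h2 : (((wpos M υ 8 (N0 L M υ 8) i + 8 * υ : ℕ) : ℝ) - wpos M υ 8 (N0 L M υ 8) i) = 8 * υ := by
      push_cast; ring
    rw [h2] at h1
    refine h1.trans ?_
    have h3 : ((Ioc (wpos M υ 8 (N0 L M υ 8) i) (wpos M υ 8 (N0 L M υ 8) i + 8 * υ)).filter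
        fun t => PP t ∧ PP (v₀ + t) ∧ PP (s - t)) ⊆ wP M υ 8 (N0 L M υ 8) i := by
      intro t ht
      rw [mem_filter, mem_Ioc] at ht
      rw [mem_wP]
      exact ⟨ht.1, ht.2.1⟩
    exact_mod_cast card_le_card h3
  have hwin : Win (wP M υ 8 (N0 L M υ 8)) (fun _ _ => True) (fun _ _ t => t ∉ EE X S) (1 / (2 * (L : ℝ) ^ 35)) 0
      (NN L M υ 8) := by
    refine ⟨fun _ _ _ _ _ _ => trivial, ?_, ?_⟩
    · intro i _ hi
      have h1 := hcard i hi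
      have h2 : (0 : ℝ) < 8 * (υ : ℝ) / (L : ℝ) ^ 7 := div_pos (by linarith) (hLp 7)
      have h3 : (0 : ℝ) < #(wP M υ 8 (N0 L M υ 8) i) := by linarith
      exact_mod_cast h3
    · intro i _ hi _ _ Q hQ
      have h1 := hcard i hi
      have hsub : wP M υ 8 (N0 L M υ 8) i ⊆ Q ∪ EE X S := by
        intro t ht
        rw [mem_union]
        by_cases h : t ∈ EE X S
        · exact Or.inr h
        · exact Or.inl ((hQ t).mpr ⟨ht, h⟩)
      have h2 : (#(wP M υ 8 (N0 L M υ 8) i) : ℝ) ≤ #Q + #(EE X S) := by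
        exact_mod_cast (card_le_card hsub).trans (card_union_le _ _)
      have h3 : (υ : ℝ) / (L : ℝ) ^ 184 ≤ 1 / (2 * (L : ℝ) ^ 35) * (8 * (υ : ℝ) / (L : ℝ) ^ 7) := by
        rw [div_mul_div_comm, div_le_div_iff₀ (hLp 184) (by have := hLp 35; have := hLp 7; positivity)]
        have e1 : (L : ℝ) ^ 184 = (L : ℝ) ^ 42 * (L : ℝ) ^ 142 := by rw [← pow_add]
        have e2 : (1 : ℝ) ≤ (L : ℝ) ^ 142 := one_le_pow₀ (le_trans (by norm_num) hL)
        rw [e1]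
        calc (υ : ℝ) * (2 * (L : ℝ) ^ 35 * (L : ℝ) ^ 7) = 2 * (υ * (L : ℝ) ^ 42) * 1 := by ring
          _ ≤ 8 * (υ * (L : ℝ) ^ 42) * (L : ℝ) ^ 142 := by
              have e3 : (0 : ℝ) ≤ υ * (L : ℝ) ^ 42 := mul_nonneg hυ0.le (hLp _).le
              apply mul_le_mul _ e2 zero_le_one (mul_nonneg (by norm_num) e3)
              linarith only [e3]
          _ = 1 * (8 * υ) * ((L : ℝ) ^ 42 * (L : ℝ) ^ 142) := by ring
      have h4 : (1 / (2 * (L : ℝ) ^ 35)) * (8 * (υ : ℝ) / (L : ℝ) ^ 7) ≤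
          (1 / (2 * (L : ℝ) ^ 35)) * #(wP M υ 8 (N0 L M υ 8) i) :=
        mul_le_mul_of_nonneg_left h1 (by have := hLp 35; positivity)
      linarith only [h2, h3, h4, hE]
  obtain ⟨τ, hτ, hC⟩ := scale hp hS (P := wP M υ 8 (N0 L M υ 8)) (fun _ _ => rfl) hwin 0 trivial
  obtain ⟨N, hN⟩ : ∃ N, N = NN L M υ 8 := ⟨_, rfl⟩
  have hN1 : 1 ≤ N := by rw [hN]; exact NN_pos _ _ _ _
  rw [← hN] at hτ hC
  have hT : ∀ t ∈ tset τ 0 N, PP t ∧ t ∉ EE X S ∧ M ≤ t ∧ t ≤ 4 * M := by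
    intro t ht
    rw [mem_tset] at ht
    obtain ⟨i, h1, h2, h3⟩ := ht
    obtain ⟨h4, h5⟩ := hτ.2.1 i h1 h2
    rw [h3, mem_wP] at h4
    rw [h3] at h5
    have h6 := hp.top (i := i) (by omega)
    have h7 : M ≤ wpos M υ 8 (N0 L M υ 8) i := by unfold wpos; omega
    exact ⟨h4.2, h5, by omega, by omega⟩
  obtain ⟨F, hF⟩ : ∃ F, F = A ∪ tset τ 0 N := ⟨_, rfl⟩
  have hFmem : ∀ x, x ∈ F.sort (· ≥ ·) ↔ x ∈ A ∨ x ∈ tset τ 0 N := by
    intro x
    rw [Finset.mem_sort, hF, mem_union]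
  have hlast : τ N ∈ tset τ 0 N := mem_tset.mpr ⟨N - 1, Nat.zero_le _, by omega, by rw [Nat.sub_add_cancel hN1]⟩
  have hpw : (F.sort (· ≥ ·)).Pairwise (· > ·) := by
    have h1 : (F.sort (· ≥ ·)).Pairwise (· ≥ ·) := Finset.pairwise_sort F (· ≥ ·)
    have h2 : (F.sort (· ≥ ·)).Pairwise (· ≠ ·) := Finset.sort_nodup F (· ≥ ·)
    refine (h1.and h2).imp ?_
    rintro a b ⟨h3, h4⟩
    exact lt_of_le_of_ne h3 (Ne.symm h4)
  obtain ⟨r, b, hrb⟩ : ∃ r b, F.sort (· ≥ ·) = r :: b := by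
    cases hl : F.sort (· ≥ ·) with
    | nil =>
      have h1 := (hFmem (τ N)).mpr (Or.inr hlast)
      rw [hl] at h1
      exact absurd h1 List.not_mem_nil
    | cons r b => exact ⟨r, b, rfl⟩
  have hrmax : ∀ x ∈ F.sort (· ≥ ·), x ≤ r := by
    intro x hx
    rw [hrb] at hx hpw
    rcases List.mem_cons.mp hx with h1 | h1
    · exact h1.le
    · exact (List.rel_of_pairwise_cons hpw h1).le
  have hrT : r ∈ tset τ 0 N := by
    have h1 : r ∈ F.sort (· ≥ ·) := by rw [hrb]; exact List.mem_cons_self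
    rcases (hFmem r).mp h1 with h2 | h2
    · exfalso
      have h3 : r ≤ A.sup id := Finset.le_sup (f := id) h2
      have h4 := hrmax (τ N) ((hFmem _).mpr (Or.inr hlast))
      have h5 := (hT (τ N) hlast).2.2.1
      omega
    · exact h2
  obtain ⟨hr1, hr2, hr3, hr4⟩ := hT r hrT
  refine ⟨F.sort (· ≥ ·), ⟨L, M, υ, 8, X, S, tset τ 0 N, r, b, hp, by omega, hS, hC, hrb, ?_, hr1, hr2, hr3, hr4⟩,
    hpw, ?_, ?_⟩
  · intro t ht
    exact ⟨(hFmem t).mpr (Or.inr ht), (hT t ht).1.pos⟩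
  · intro a ha
    rcases (hFmem a).mp ha with h1 | h1
    · exact hA a h1
    · exact (hT a h1).1.2
  · intro a ha
    exact (hFmem a).mpr (Or.inl ha)

/-- an infinite sequence of extensions -/
theorem infinite (A : Finset ℕ) (hA : ∀ a ∈ A, (a + 1).Prime) : ∃ f : ℕ → List ℕ, (∀ n, Ext (f n) (f (n + 1))) ∧
    (f 0).Pairwise (· > ·) ∧ (∀ a ∈ f 0, (a + 1).Prime) ∧ ∀ a ∈ A, a ∈ f 0 := by
  obtain ⟨X₁, htc⟩ := exists_TCat
  obtain ⟨l, hG, h1, h2, h3⟩ := base X₁ htc A hA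
  have hstep : ∀ l : {l : List ℕ // ∃ l', Relation.ReflTransGen Ext l l' ∧ Good X₁ l'},
      ∃ l₁ : {l : List ℕ // ∃ l', Relation.ReflTransGen Ext l l' ∧ Good X₁ l'}, Ext l.1 l₁.1 := by
    rintro ⟨l, l', h, hG⟩
    rcases h.cases_head with h | ⟨c, hc, hcl⟩
    · subst h
      obtain ⟨l'', hG'', ht⟩ := step X₁ htc hG
      obtain ⟨c, hc, hcl⟩ := Relation.TransGen.head'_iff.mp ht
      exact ⟨⟨c, l'', hcl, hG''⟩, hc⟩
    · exact ⟨⟨c, l', hcl, hG⟩, hc⟩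
  choose nx hnx using hstep
  obtain ⟨f, hf0, hfs⟩ : ∃ f : ℕ → {l : List ℕ // ∃ l', Relation.ReflTransGen Ext l l' ∧ Good X₁ l'},
      f 0 = ⟨l, l, Relation.ReflTransGen.refl, hG⟩ ∧ ∀ n, f (n + 1) = nx (f n) :=
    ⟨fun n => Nat.rec ⟨l, l, Relation.ReflTransGen.refl, hG⟩ (fun _ x => nx x) n, rfl, fun _ => rfl⟩
  refine ⟨fun n => (f n).1, fun n => ?_, ?_, ?_, ?_⟩
  · change Ext (f n).1 (f (n + 1)).1
    rw [hfs]
    exact hnx (f n)
  · change (f 0).1.Pairwise (· > ·)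
    rw [hf0]; exact h1
  · change ∀ a ∈ (f 0).1, (a + 1).Prime
    rw [hf0]; exact h2
  · change ∀ a ∈ A, a ∈ (f 0).1
    rw [hf0]; exact h3

end Pool.Agent.H550U.W
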