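import Pool.Agent.H550U.W.Growth

/-!
# Lists and their extensions
-/

namespace Pool.Agent.H550U.W

open Finset

/-- the extension of a list (the last term is the head of the list) -/
def Ext (l l' : List ℕ) : Prop := ∃ (b : List ℕ) (a t : ℕ), l = a :: b ∧ t ∈ l ∧ 0 < t ∧ (a + t + 1).Prime ∧ l' = (a + t) :: l

lemma reach_ext (T : Finset ℕ) {y z : ℕ} (h : Reach T y z) : ∀ b : List ℕ, (∀ t ∈ T, t ∈ y :: b ∧ 0 < t) →
    ∃ b' : List ℕ, Relation.ReflTransGen Ext (y :: b) (z :: b') ∧ ∀ x ∈ y :: b, x ∈ z :: b' := by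
  intro b hT
  unfold Reach at h
  induction h with
  | refl => exact ⟨b, Relation.ReflTransGen.refl, fun x hx => hx⟩
  | tail _ hac ih =>
    obtain ⟨b', h1, h2⟩ := ih
    obtain ⟨h3, t, ht, rfl⟩ := hac
    refine ⟨_ :: b', h1.tail ⟨b', _, t, rfl, h2 t (hT t ht).1, (hT t ht).2, h3.2, rfl⟩, ?_⟩
    intro x hx
    exact List.mem_cons_of_mem _ (h2 x hx)

lemma sel_ext {P : ℕ → Finset ℕ} {Adm : ℕ → ℕ → ℕ → Prop} (T : Finset ℕ)
    (hAdm : ∀ i a c, Adm i a c → Reach T a c) (τ : ℕ → ℕ) (s : ℕ) (b : List ℕ) (hT : ∀ t ∈ T, t ∈ τ s :: b ∧ 0 < t) :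
    ∀ n : ℕ, (∀ i, s ≤ i → i < s + n → τ (i + 1) ∈ P i ∧ Adm i (τ i) (τ (i + 1))) →
    ∃ b' : List ℕ, Relation.ReflTransGen Ext (τ s :: b) (τ (s + n) :: b') ∧ (∀ x ∈ τ s :: b, x ∈ τ (s + n) :: b') ∧
      ∀ t ∈ tset τ s (s + n), t ∈ τ (s + n) :: b' := by
  intro n
  induction n with
  | zero =>
    intro _
    refine ⟨b, Relation.ReflTransGen.refl, fun x hx => hx, ?_⟩
    intro t ht
    rw [mem_tset] at ht
    obtain ⟨i, h1, h2, _⟩ := ht
    omega
  | succ n ih =>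
    intro h
    obtain ⟨b₁, h1, h2, h3⟩ := ih fun i hi hi' => h i hi (by omega)
    have h4 := (h (s + n) (by omega) (by omega)).2
    obtain ⟨b₂, h5, h6⟩ := reach_ext T (hAdm _ _ _ h4) b₁ fun t ht => ⟨h2 t (hT t ht).1, (hT t ht).2⟩
    refine ⟨b₂, h1.trans h5, fun x hx => h6 x (h2 x hx), ?_⟩
    intro t ht
    rw [mem_tset] at ht
    obtain ⟨i, e1, e2, e3⟩ := ht
    rcases Nat.lt_or_ge i (s + n) with h7 | h7
    · exact h6 t (h3 t (mem_tset.mpr ⟨i, e1, h7, e3⟩))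
    · have : i = s + n := by omega
      subst this
      rw [← e3]
      exact List.mem_cons_self

/-- strict version -/
lemma trans_of_ne {l l' : List ℕ} (h : Relation.ReflTransGen Ext l l') (hne : l' ≠ l) : Relation.TransGen Ext l l' := by
  rcases Relation.reflTransGen_iff_eq_or_transGen.mp h with h1 | h1
  · exact absurd h1 hne
  · exact h1

end Pool.Agent.H550U.W
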