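import Pool.Agent.H550U.W.ScaleB

/-!
# Degrees at one scale
-/

namespace Pool.Agent.H550U.W

open Finset

variable {L M υ g X : ℕ}

lemma PP.pos {v : ℕ} (h : PP v) : 1 ≤ v := by
  by_contra hcon
  have : v = 0 := by omega
  rw [this] at h
  exact Nat.not_prime_one h.2

lemma Par.pow6 (h : Par L M υ g X) : Real.log X ^ 6 ≤ (L : ℝ) ^ 7 := by
  obtain ⟨h1, h2⟩ := h.logX
  have h3 := h.Lpos
  calc Real.log X ^ 6 ≤ (2 * (L : ℝ)) ^ 6 := by gcongr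
    _ = 64 * (L : ℝ) ^ 6 := by ring
    _ ≤ L * (L : ℝ) ^ 6 := by gcongr; linarith
    _ = (L : ℝ) ^ 7 := by ring

lemma Par.logpos (h : Par L M υ g X) : 0 < Real.log X := by
  obtain ⟨h1, h2⟩ := h.logX
  have h3 := h.Lpos
  linarith

/-- the ternary count in a short interval -/
lemma Par.ternary (h : Par L M υ g X) {S : Finset (ℕ × ℕ)} (hS : TCat X S) (y s : ℕ) (hy1 : 1 ≤ y) (hyX : y ≤ X)
    (hsX : s ≤ X) (hy6 : 6 ∣ y) (hs6 : 6 ∣ s) (hys : (y, s) ∉ S) (u v : ℕ) (hv : v ≤ s) (hu : M ≤ u) (huv : u + 2 * υ ≤ v)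
    (Q : Finset ℕ) (hQ : ∀ t, t ∈ Q ↔ (u < t ∧ t ≤ v) ∧ PP t ∧ PP (y + t) ∧ PP (s - t)) :
    ((v : ℝ) - u) / (L : ℝ) ^ 7 ≤ #Q := by
  obtain ⟨hM, hυ⟩ := h.pos
  have h1 := h.Xlog
  have h2 := h.pow6
  have h3 := h.logpos
  have h4 : υ ≤ M := by
    have := h.u1
    calc υ = υ * 1 := (mul_one _).symm
      _ ≤ υ * L ^ 52 := Nat.mul_le_mul_left _ (Nat.one_le_pow _ _ (by have := h.hL; omega))
      _ ≤ M := this
  have h5 : (υ : ℝ) ≤ u := by exact_mod_cast h4.trans hu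
  have h6 : ((u : ℝ) + 2 * υ) ≤ v := by exact_mod_cast huv
  have h7 : (0 : ℝ) ≤ υ := Nat.cast_nonneg _
  refine le_trans ?_ (hS.2 y s hy1 hyX hsX hy6 hs6 hys u v hv (h1.trans h5) (h1.trans (by linarith)) Q hQ)
  have h8 : 0 ≤ (v : ℝ) - u := by linarith
  gcongr

/-- the degrees -/
lemma Par.deg (h : Par L M υ g X) {S : Finset (ℕ × ℕ)} (hS : TCat X S) (p v : ℕ) (hp1 : M ≤ p) (hp2 : p + 8 * υ ≤ 4 * M)
    (hv : PP v) (hvE : v ∉ EE X S) (hvX : v ≤ X) (Q : Finset ℕ)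
    (hQ : ∀ t, t ∈ Q ↔ (p < t ∧ t ≤ p + 8 * υ ∧ PP t) ∧ PP (v + t)) : 8 * (υ : ℝ) / (L : ℝ) ^ 7 ≤ #Q := by
  classical
  obtain ⟨hM, hυ⟩ := h.pos
  unfold EE at hvE
  rw [mem_filter, mem_range] at hvE
  push Not at hvE
  obtain ⟨s, hs1, hs2, hs3, hs4⟩ := hvE (by omega)
  have hX8 : 8 * M ≤ X := by
    rw [h.hX, mul_comm 8 M]
    refine Nat.mul_le_mul_left _ ?_
    calc 8 ≤ L := by have := h.hL; omega
      _ = L ^ 1 := by ring
      _ ≤ L ^ 58 := Nat.pow_le_pow_right (by have := h.hL; omega) (by norm_num)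
  have h1 := h.ternary hS v s hv.pos hvX hs2 hv.1 hs3 hs4 p (p + 8 * υ) (by omega) hp1 (by omega)
    ((Ioc p (p + 8 * υ)).filter fun t => PP t ∧ PP (v + t) ∧ PP (s - t)) (fun t => by rw [mem_filter, mem_Ioc])
  have h2 : (((p + 8 * υ : ℕ) : ℝ) - p) = 8 * υ := by push_cast; ring
  rw [h2] at h1
  refine h1.trans ?_
  have h3 : ((Ioc p (p + 8 * υ)).filter fun t => PP t ∧ PP (v + t) ∧ PP (s - t)) ⊆ Q := by
    intro t ht
    rw [mem_filter, mem_Ioc] at ht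
    rw [hQ]
    exact ⟨⟨ht.1.1, ht.1.2, ht.2.1⟩, ht.2.2.1⟩
  exact_mod_cast card_le_card h3

/-- existence of a number outside of `EE` -/
lemma Par.win_card (h : Par L M υ g X) {S : Finset (ℕ × ℕ)} (hS : TCat X S) (p : ℕ) (hp1 : M ≤ p) (hp2 : p + 8 * υ ≤ 4 * M)
    (v : ℕ) (hv : PP v) (hvE : v ∉ EE X S) (hvX : v ≤ X) (Q : Finset ℕ)
    (hQ : ∀ t, t ∈ Q ↔ (p < t ∧ t ≤ p + 8 * υ) ∧ PP t) : 8 * (υ : ℝ) / (L : ℝ) ^ 7 ≤ #Q := by
  classical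
  have h1 := h.deg hS p v hp1 hp2 hv hvE hvX (Q.filter fun t => PP (v + t)) (fun t => by
    rw [mem_filter, hQ]; tauto)
  refine h1.trans ?_
  exact_mod_cast card_filter_le _ _

lemma Par.exp1 (h : Par L M υ g X) (Y : ℝ) (hY : Y ≤ X + 1) :
    (Y * (X + 1) * ((L ^ 37 : ℕ) : ℝ)) * (1 - 1 / (16 * (L : ℝ) ^ 7)) ^ (L ^ 9) < 1 := by
  have hL := h.Lpos
  have hX := h.Xexp
  have hX1 : (1 : ℝ) ≤ X := by
    have := h.Xbig
    exact_mod_cast (by omega : 1 ≤ X)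
  have h1 : (1 - 1 / (16 * (L : ℝ) ^ 7)) ^ (L ^ 9) ≤ Real.exp (-((L : ℝ) ^ 2 / 16)) := by
    refine (exp_bound (x := 1 / (16 * (L : ℝ) ^ 7)) ?_ _).trans (le_of_eq ?_)
    · rw [div_le_one (by positivity)]
      have : (1 : ℝ) ≤ (L : ℝ) ^ 7 := one_le_pow₀ (by linarith)
      linarith
    · congr 2
      push_cast
      field_simp
  have h2 : (L : ℝ) ≤ Real.exp L := by
    have := Real.add_one_le_exp (L : ℝ)
    linarith
  have h3 : (((L ^ 37 : ℕ) : ℝ)) ≤ Real.exp (37 * L) := by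
    push_cast
    calc (L : ℝ) ^ 37 ≤ Real.exp L ^ 37 := by gcongr
      _ = Real.exp (37 * L) := by rw [← Real.exp_nat_mul]; norm_num
  have h4 : (X : ℝ) + 1 ≤ Real.exp (2 * L + 1) := by
    rw [Real.exp_add]
    have := Real.add_one_le_exp (1 : ℝ)
    have h5 : (0 : ℝ) < Real.exp (2 * L) := Real.exp_pos _
    nlinarith
  have h5 : 0 ≤ 1 - 1 / (16 * (L : ℝ) ^ 7) := by
    have : 1 / (16 * (L : ℝ) ^ 7) ≤ 1 := by
      rw [div_le_one (by positivity)]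
      have : (1 : ℝ) ≤ (L : ℝ) ^ 7 := one_le_pow₀ (by linarith)
      linarith
    linarith
  have h6 : 0 ≤ (1 - 1 / (16 * (L : ℝ) ^ 7)) ^ (L ^ 9) := pow_nonneg h5 _
  have h7 : Y * (X + 1) * ((L ^ 37 : ℕ) : ℝ) ≤ Real.exp (2 * L + 1) * Real.exp (2 * L + 1) * Real.exp (37 * L) := by
    have a1 : Y * (X + 1) ≤ Real.exp (2 * L + 1) * Real.exp (2 * L + 1) := by
      calc Y * (X + 1) ≤ (X + 1) * (X + 1) := by gcongr
        _ ≤ _ := by gcongr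
    have a2 : (0 : ℝ) ≤ ((L ^ 37 : ℕ) : ℝ) := Nat.cast_nonneg _
    calc Y * (X + 1) * ((L ^ 37 : ℕ) : ℝ) ≤ Real.exp (2 * L + 1) * Real.exp (2 * L + 1) * ((L ^ 37 : ℕ) : ℝ) := by gcongr
      _ ≤ _ := by gcongr
  calc (Y * (X + 1) * ((L ^ 37 : ℕ) : ℝ)) * (1 - 1 / (16 * (L : ℝ) ^ 7)) ^ (L ^ 9)
      ≤ (Real.exp (2 * L + 1) * Real.exp (2 * L + 1) * Real.exp (37 * L)) * Real.exp (-((L : ℝ) ^ 2 / 16)) := by
        refine mul_le_mul h7 h1 h6 (by positivity)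
    _ = Real.exp (2 * L + 1 + (2 * L + 1) + 37 * L + -((L : ℝ) ^ 2 / 16)) := by
        rw [← Real.exp_add, ← Real.exp_add, ← Real.exp_add]
    _ < 1 := by
        rw [Real.exp_lt_one_iff]
        nlinarith

lemma Par.exp2 (h : Par L M υ g X) (Y : ℝ) (hY : Y ≤ X + 1) :
    (Y * (X + 1)) * (1 - (1 / (L : ℝ) ^ 35) / 2) ^ (L ^ 37) < 1 := by
  have hL := h.Lpos
  have hX := h.Xexp
  have hX1 : (1 : ℝ) ≤ X := by
    have := h.Xbig
    exact_mod_cast (by omega : 1 ≤ X)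
  have h0 : (1 / (L : ℝ) ^ 35) / 2 ≤ 1 := by
    rw [div_div, div_le_one (by positivity)]
    have : (1 : ℝ) ≤ (L : ℝ) ^ 35 := one_le_pow₀ (by linarith)
    linarith
  have h1 : (1 - (1 / (L : ℝ) ^ 35) / 2) ^ (L ^ 37) ≤ Real.exp (-((L : ℝ) ^ 2 / 2)) := by
    refine (exp_bound h0 _).trans (le_of_eq ?_)
    congr 2
    push_cast
    field_simp
  have h4 : (X : ℝ) + 1 ≤ Real.exp (2 * L + 1) := by
    rw [Real.exp_add]
    have := Real.add_one_le_exp (1 : ℝ)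
    have h5 : (0 : ℝ) < Real.exp (2 * L) := Real.exp_pos _
    nlinarith
  have h6 : 0 ≤ (1 - (1 / (L : ℝ) ^ 35) / 2) ^ (L ^ 37) := pow_nonneg (by linarith) _
  have a1 : Y * (X + 1) ≤ Real.exp (2 * L + 1) * Real.exp (2 * L + 1) := by
    calc Y * (X + 1) ≤ (X + 1) * (X + 1) := by gcongr
      _ ≤ _ := by gcongr
  calc (Y * (X + 1)) * (1 - (1 / (L : ℝ) ^ 35) / 2) ^ (L ^ 37)
      ≤ (Real.exp (2 * L + 1) * Real.exp (2 * L + 1)) * Real.exp (-((L : ℝ) ^ 2 / 2)) := by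
        refine mul_le_mul a1 h1 h6 (by positivity)
    _ = Real.exp (2 * L + 1 + (2 * L + 1) + -((L : ℝ) ^ 2 / 2)) := by
        rw [← Real.exp_add, ← Real.exp_add]
    _ < 1 := by
        rw [Real.exp_lt_one_iff]
        nlinarith

lemma Par.exp3 (h : Par L M υ g X) (Y : ℝ) (hY0 : 0 ≤ Y) (hY : Y ≤ X + 1) :
    Y * (1 - 1 / (8 * (L : ℝ) ^ 7)) ^ (L ^ 9) < 1 := by
  have hL := h.Lpos
  have hX1 : (1 : ℝ) ≤ X := by
    have := h.Xbig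
    exact_mod_cast (by omega : 1 ≤ X)
  refine lt_of_le_of_lt ?_ (h.exp1 Y hY)
  have h5 : 0 ≤ 1 - 1 / (8 * (L : ℝ) ^ 7) := by
    have : 1 / (8 * (L : ℝ) ^ 7) ≤ 1 := by
      rw [div_le_one (by positivity)]
      have : (1 : ℝ) ≤ (L : ℝ) ^ 7 := one_le_pow₀ (by linarith)
      linarith
    linarith
  have h6 : (1 - 1 / (8 * (L : ℝ) ^ 7)) ^ (L ^ 9) ≤ (1 - 1 / (16 * (L : ℝ) ^ 7)) ^ (L ^ 9) := by
    have : 1 / (16 * (L : ℝ) ^ 7) ≤ 1 / (8 * (L : ℝ) ^ 7) := by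
      apply one_div_le_one_div_of_le (by positivity)
      have : (0 : ℝ) ≤ (L : ℝ) ^ 7 := by positivity
      linarith
    apply pow_le_pow_left₀ h5
    linarith
  have h7 : (1 : ℝ) ≤ ((L ^ 37 : ℕ) : ℝ) := by
    exact_mod_cast Nat.one_le_pow _ _ (by have := h.hL; omega)
  have h8 : Y ≤ Y * (X + 1) * ((L ^ 37 : ℕ) : ℝ) := by
    calc Y = Y * 1 * 1 := by ring
      _ ≤ Y * (X + 1) * ((L ^ 37 : ℕ) : ℝ) := by
        apply mul_le_mul _ h7 zero_le_one (by positivity)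
        apply mul_le_mul_of_nonneg_left _ hY0
        linarith
  exact mul_le_mul h8 h6 (pow_nonneg h5 _) (le_trans hY0 h8)

lemma Par.two_pow (h : Par L M υ g X) : 2 * (υ : ℝ) / (L : ℝ) ^ 7 ≤ 2 ^ (2 * L) := by
  obtain ⟨hM, hυ⟩ := h.pos
  have hL := h.Lpos
  have hM0 : (0 : ℝ) < M := by exact_mod_cast hM
  have h4 : υ ≤ M := by
    have := h.u1
    calc υ = υ * 1 := (mul_one _).symm
      _ ≤ υ * L ^ 52 := Nat.mul_le_mul_left _ (Nat.one_le_pow _ _ (by have := h.hL; omega))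
      _ ≤ M := this
  have h5 : (υ : ℝ) ≤ M := by exact_mod_cast h4
  have h6 : (M : ℝ) ≤ Real.exp L := by
    calc (M : ℝ) = Real.exp (Real.log M) := (Real.exp_log hM0).symm
      _ ≤ _ := Real.exp_le_exp.mpr h.logM
  have h7 : Real.exp L ≤ 2 ^ (2 * L) := by
    have e1 : Real.exp L = Real.exp 1 ^ L := by rw [← Real.exp_nat_mul]; norm_num
    rw [e1, pow_mul]
    apply pow_le_pow_left₀ (Real.exp_pos _).le
    have := Real.exp_one_lt_d9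
    linarith
  have h8 : 2 * (υ : ℝ) / (L : ℝ) ^ 7 ≤ υ := by
    rw [div_le_iff₀ (by positivity)]
    have h9 : (2 : ℝ) ≤ (L : ℝ) ^ 7 := by
      calc (2 : ℝ) ≤ L := by linarith
        _ = (L : ℝ) ^ 1 := by ring
        _ ≤ (L : ℝ) ^ 7 := pow_le_pow_right₀ (by linarith) (by norm_num)
    have h10 : (0 : ℝ) ≤ υ := Nat.cast_nonneg _
    nlinarith
  linarith

end Pool.Agent.H550U.W
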