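import Pool.Agent.H550U.W.Chain
import Pool.Agent.H550U.W.Lists

/-!
# From one scale to the next
-/

namespace Pool.Agent.H550U.W

open Finset

variable {L M υ g X : ℕ}

lemma Par.next (h : Par L M υ g X) {M' υ' g' L' X' : ℕ} (hυ' : υ' = M / 32) (hg' : g' = 32 * (2 * L + 5))
    (h1 : L ^ 56 * M ≤ M') (h2 : M' ≤ 2 * L ^ 56 * M) (hL' : L' = ⌈Real.log M'⌉₊) (hX' : X' = M' * L' ^ 58) :
    Par L' M' υ' g' X' ∧ L ≤ L' ∧ L' ≤ 2 * L := by
  obtain ⟨hb1, hb2, hb3⟩ := h.M_big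
  have hL := h.Lpos
  have hLn := h.hL
  have hM0 : (0 : ℝ) < M := by exact_mod_cast (by omega : 0 < M)
  have hLp : ∀ n : ℕ, (0 : ℝ) < (L : ℝ) ^ n := fun n => pow_pos (by linarith) n
  have h1' : (L : ℝ) ^ 56 * M ≤ M' := by exact_mod_cast h1
  have h2' : (M' : ℝ) ≤ 2 * (L : ℝ) ^ 56 * M := by exact_mod_cast h2
  have hM'0 : (0 : ℝ) < M' := lt_of_lt_of_le (mul_pos (hLp 56) hM0) h1'
  have hlog1 : Real.log M + 56 * Real.log L ≤ Real.log M' := by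
    have e1 : Real.log ((L : ℝ) ^ 56 * M) = Real.log M + 56 * Real.log L := by
      rw [Real.log_mul (hLp 56).ne' hM0.ne', Real.log_pow]; push_cast; ring
    rw [← e1]
    exact Real.log_le_log (mul_pos (hLp 56) hM0) h1'
  have hlog2 : Real.log M' ≤ Real.log 2 + Real.log M + 56 * Real.log L := by
    have e1 : Real.log (2 * (L : ℝ) ^ 56 * M) = Real.log 2 + Real.log M + 56 * Real.log L := by
      rw [Real.log_mul (mul_pos two_pos (hLp 56)).ne' hM0.ne', Real.log_mul two_ne_zero (hLp 56).ne', Real.log_pow]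
      push_cast; ring
    rw [← e1]
    exact Real.log_le_log hM'0 h2'
  have hlogL : 1 ≤ Real.log L := by
    rw [Real.le_log_iff_exp_le (by linarith)]
    have := Real.exp_one_lt_d9
    linarith
  have hsmall := log_small hLn
  have hl2 := Real.log_two_lt_d9
  have hM1 := h.logM
  have hM2 := h.logM'
  have hlogM'0 : 0 ≤ Real.log M' := by linarith
  have hLe : Real.log M' ≤ L' := by rw [hL']; exact Nat.le_ceil _
  have hLt : (L' : ℝ) < Real.log M' + 1 := by rw [hL']; exact Nat.ceil_lt_add_one hlogM'0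
  have hLL' : L ≤ L' := by
    have : (L : ℝ) ≤ L' := by linarith
    exact_mod_cast this
  have hL'2 : L' ≤ 2 * L := by
    have : (L' : ℝ) ≤ 2 * L := by linarith
    exact_mod_cast this
  refine ⟨⟨by omega, hLe, hLt.le, by omega, ?_, ?_, ?_, hX'⟩, hLL', hL'2⟩
  · calc g' = 64 * L + 160 := by omega
      _ ≤ 1000 * L ^ 1 := by rw [pow_one]; omega
      _ ≤ L ^ 2 := lp (by omega) (by omega) (by norm_num)
      _ ≤ L' ^ 2 := Nat.pow_le_pow_left hLL' 2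
  · calc υ' * L' ^ 52 ≤ υ' * (2 * L) ^ 52 := Nat.mul_le_mul_left _ (Nat.pow_le_pow_left hL'2 52)
      _ = (32 * υ') * (2 ^ 47 * L ^ 52) := by rw [mul_pow]; ring
      _ ≤ M * (L ^ 4 * L ^ 52) := by
          refine Nat.mul_le_mul (by omega) (Nat.mul_le_mul_right _ ?_)
          calc 2 ^ 47 ≤ 1000000 ^ 4 := by norm_num
            _ ≤ L ^ 4 := Nat.pow_le_pow_left hLn 4
      _ = L ^ 56 * M := by rw [← pow_add, mul_comm]
      _ ≤ M' := h1
  · have h3 : M ≤ 64 * υ' := by omega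
    calc M' ≤ 2 * L ^ 56 * M := h2
      _ ≤ 2 * L ^ 56 * (64 * υ') := Nat.mul_le_mul_left _ h3
      _ = υ' * (128 * L ^ 56) := by ring
      _ ≤ υ' * L ^ 57 := Nat.mul_le_mul_left _ (lp (by omega) (by omega) (by norm_num))
      _ ≤ υ' * L' ^ 57 := Nat.mul_le_mul_left _ (Nat.pow_le_pow_left hLL' 57)

/-- the good states -/
def Good (X₁ : ℕ) (l : List ℕ) : Prop :=
  ∃ (L M υ g X : ℕ) (S : Finset (ℕ × ℕ)) (T : Finset ℕ) (r : ℕ) (b : List ℕ), Par L M υ g X ∧ X₁ ≤ X ∧ TCat X S ∧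
    Conn L M X S T ∧ l = r :: b ∧ (∀ t ∈ T, t ∈ l ∧ 0 < t) ∧ PP r ∧ r ∉ EE X S ∧ M ≤ r ∧ r ≤ 4 * M

lemma NN_pos (L M υ g : ℕ) : 1 ≤ NN L M υ g := by
  unfold NN N0 NAf
  generalize 2 * M / (g * υ) = a
  generalize (L ^ 9 * L ^ 37 + 1) * g = b
  omega

theorem step (X₁ : ℕ) (htc : ∀ X, X₁ ≤ X → ∃ S, TCat X S) {l : List ℕ} (hl : Good X₁ l) :
    ∃ l', Good X₁ l' ∧ Relation.TransGen Ext l l' := by
  obtain ⟨L, M, υ, g, X, S, T, r, b, hp, hX1, hS, hT, rfl, hTl, hr, hrE, hMr, hr4⟩ := hl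
  obtain ⟨hb1, hb2, hb3⟩ := hp.M_big
  have hLn := hp.hL
  obtain ⟨υ', hυ'⟩ : ∃ υ', υ' = M / 32 := ⟨_, rfl⟩
  obtain ⟨g', hg'⟩ : ∃ g', g' = 32 * (2 * L + 5) := ⟨_, rfl⟩
  obtain ⟨G, hG⟩ : ∃ G, G = 32 * (2 * L + 5) * υ' := ⟨_, rfl⟩
  have hG' : g' * υ' = G := by rw [hg', hG]
  obtain ⟨hd1, hd2, hd3⟩ := hp.dist hυ' hG
  have hυ'1 : 1 ≤ υ' := by omega
  have hG0 : 0 < G := by rw [hG]; exact Nat.mul_pos (by omega) (by omega)
  obtain ⟨J, hJ⟩ : ∃ J, J = L ^ 56 * M / G + 1 := ⟨_, rfl⟩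
  have hJ1 : L ^ 56 * M ≤ J * G ∧ J * G ≤ L ^ 56 * M + G := by
    have h1 := Nat.div_add_mod (L ^ 56 * M) G
    have h2 := Nat.mod_lt (L ^ 56 * M) hG0
    have h3 : J * G = G * (L ^ 56 * M / G) + G := by rw [hJ]; ring
    rw [h3]
    omega
  obtain ⟨M', hM'⟩ : ∃ M', M' = r + (J + 1) * G := ⟨_, rfl⟩
  have hM'' : M' = r + J * G + G := by rw [hM']; ring
  have hM'1 : L ^ 56 * M ≤ M' := by omega
  have hM'2 : M' ≤ 2 * L ^ 56 * M := by
    have h1 : (2 * L + 5) * M = 2 * (L * M) + 5 * M := by ring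
    have h2 : 100 * (L * M) ≤ L ^ 56 * M := by
      calc 100 * (L * M) = (100 * L ^ 1) * M := by rw [pow_one]; ring
        _ ≤ L ^ 56 * M := Nat.mul_le_mul_right _ (lp (by omega) (by omega) (by norm_num))
    have h3 : M ≤ L * M := Nat.le_mul_of_pos_left _ (by omega)
    have h4 : 2 * L ^ 56 * M = 2 * (L ^ 56 * M) := by ring
    omega
  obtain ⟨L', hL'⟩ : ∃ L', L' = ⌈Real.log M'⌉₊ := ⟨_, rfl⟩
  obtain ⟨X', hX'⟩ : ∃ X', X' = M' * L' ^ 58 := ⟨_, rfl⟩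
  obtain ⟨hp', hLL', hL'2⟩ := hp.next hυ' hg' hM'1 hM'2 hL' hX'
  have hMM' : M ≤ M' := by
    refine le_trans ?_ hM'1
    exact Nat.le_mul_of_pos_left _ (Nat.pow_pos (by omega))
  have hXX' : X ≤ X' := by
    rw [hp.hX, hX']
    exact Nat.mul_le_mul hMM' (Nat.pow_le_pow_left hLL' 58)
  obtain ⟨S', hS'⟩ := htc X' (hX1.trans hXX')
  have hbig : 16 * (2 * L ^ 56 * M) ≤ X / 4 := by
    rw [Nat.le_div_iff_mul_le (by norm_num), hp.hX]
    calc 16 * (2 * L ^ 56 * M) * 4 = M * (128 * L ^ 56) := by ring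
      _ ≤ M * L ^ 58 := Nat.mul_le_mul_left _ (lp (by omega) (by omega) (by norm_num))
  have hυM : 32 * υ' ≤ M := by omega
  have hE' : (#(EE X' S') : ℝ) ≤ υ' / (L : ℝ) ^ 184 := by
    refine (hp'.E_le hS').trans ?_
    have h1 : (L : ℝ) ^ 184 ≤ (L' : ℝ) ^ 184 := pow_le_pow_left₀ (Nat.cast_nonneg _) (by exact_mod_cast hLL') _
    have h2 : (0 : ℝ) < (L : ℝ) ^ 184 := pow_pos (by exact_mod_cast (by omega : 0 < L)) _
    exact div_le_div₀ (Nat.cast_nonneg _) le_rfl h2 h1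
  -- travel
  have hr' : cOk (fun j => r + j * G) (8 * υ') (EE X S) 0 r := by
    refine ⟨by simp, by simp, hr, hrE⟩
  have hwin1 := hp.chain_win hS hT hυ' hG hr hrE (by omega) (EE X' S') hE' L' (by omega) hL'2
    (fun j => r + j * G) J (by
      intro i _
      have : (i + 1) * G = i * G + G := by ring
      omega) (by
      intro i hi
      have : i * G ≤ J * G := Nat.mul_le_mul_right _ hi
      omega)
  obtain ⟨τ₁, hτ₁, -⟩ := greedy (P := cP (fun j => r + j * G) (8 * υ')) (ι := ℕ) (1 / (2 * (L' : ℝ) ^ 35)) 1 (by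
      have h1 : (1 : ℝ) ≤ (L' : ℝ) ^ 35 := one_le_pow₀ (by exact_mod_cast (by omega : 1 ≤ L'))
      rw [div_lt_one (by positivity)]
      linarith) (by
      have h1 : (1 : ℝ) ≤ (L' : ℝ) ^ 35 := one_le_pow₀ (by exact_mod_cast (by omega : 1 ≤ L'))
      rw [div_le_one (by positivity)]
      linarith) hwin1.ok J 0 r hr'
    (fun i h1 h2 => hwin1.ne i h1 (by omega)) (fun i h1 h2 => hwin1.adm i h1 (by omega)) ∅ (fun _ => ∅) (fun _ _ => ∅)
    (by simp) (by simp) (by simp)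
  rw [Nat.zero_add] at hτ₁
  obtain ⟨r₁, hr₁⟩ : ∃ r₁, r₁ = τ₁ J := ⟨_, rfl⟩
  obtain ⟨c1, c2, c3, c4⟩ := hτ₁.2.2
  rw [← hr₁] at c1 c2 c3 c4
  -- stage
  obtain ⟨p, hp0, hps⟩ : ∃ p : ℕ → ℕ, p 0 = r + J * G ∧ ∀ i, p (i + 1) = wpos M' υ' g' (N0 L' M' υ' g') i :=
    ⟨fun i => Nat.casesOn i (r + J * G) fun i => wpos M' υ' g' (N0 L' M' υ' g') i, rfl, fun _ => rfl⟩
  have hwstep : ∀ i, wpos M' υ' g' (N0 L' M' υ' g') i + G ≤ wpos M' υ' g' (N0 L' M' υ' g') (i + 1) ∧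
      wpos M' υ' g' (N0 L' M' υ' g') (i + 1) ≤ wpos M' υ' g' (N0 L' M' υ' g') i + G + υ' := by
    intro i
    unfold wpos
    rw [hG']
    have h1 : (i + 1) * G = i * G + G := by ring
    rcases Nat.lt_or_ge i (N0 L' M' υ' g') with h2 | h2
    · have h3 : i + 1 - N0 L' M' υ' g' = 0 := by omega
      have h4 : i - N0 L' M' υ' g' = 0 := by omega
      rw [h3, h4]
      omega
    · have h3 : i + 1 - N0 L' M' υ' g' = (i - N0 L' M' υ' g') + 1 := by omega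
      have h4 : ((i - N0 L' M' υ' g') + 1) * υ' = (i - N0 L' M' υ' g') * υ' + υ' := by ring
      rw [h3, h4]
      omega
  have hwin2 := hp.chain_win hS hT hυ' hG hr hrE (by omega) (EE X' S') hE' L' (by omega) hL'2
    p (NN L' M' υ' g') (by
      intro i _
      rcases Nat.eq_zero_or_pos i with h1 | h1
      · subst h1
        rw [hp0, hps]
        have h2 : wpos M' υ' g' (N0 L' M' υ' g') 0 = M' := by rw [wpos_lt (Nat.zero_le _)]; ring
        rw [h2]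
        omega
      · obtain ⟨j, rfl⟩ : ∃ j, i = j + 1 := ⟨i - 1, by omega⟩
        rw [hps, hps]
        exact hwstep j) (by
      intro i hi
      rcases Nat.eq_zero_or_pos i with h1 | h1
      · subst h1
        rw [hp0]
        omega
      · obtain ⟨j, rfl⟩ : ∃ j, i = j + 1 := ⟨i - 1, by omega⟩
        rw [hps]
        have h2 := hp'.top (i := j) (by omega)
        have h3 : M' ≤ wpos M' υ' g' (N0 L' M' υ' g') j := by
          unfold wpos; omega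
        omega)
  obtain ⟨τ₂, hτ₂, hC⟩ := scale hp' hS' (P := cP p (8 * υ')) (by
    intro i _
    unfold cP wP
    rw [hps]) hwin2 r₁ ⟨by rw [hp0]; exact c1, by rw [hp0]; exact c2, c3, c4⟩
  obtain ⟨N, hN⟩ : ∃ N, N = NN L' M' υ' g' := ⟨_, rfl⟩
  have hN1 : 1 ≤ N := by rw [hN]; exact NN_pos _ _ _ _
  rw [← hN] at hτ₂ hC hwin2
  -- lists
  have hA1 : ∀ (i a c : ℕ), cAdm T (EE X S) (EE X' S') i a c → Reach T a c := fun i a c h => h.1
  obtain ⟨b₁, f1, f2, -⟩ := sel_ext T hA1 τ₁ 0 b (by rw [hτ₁.1]; exact hTl) J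
    (fun i h1 h2 => hτ₁.2.1 i h1 (by omega))
  rw [Nat.zero_add, hτ₁.1, ← hr₁] at f1 f2
  obtain ⟨b₂, g1, g2, g3⟩ := sel_ext T hA1 τ₂ 0 b₁ (by
      rw [hτ₂.1]
      exact fun t ht => ⟨f2 t (hTl t ht).1, (hTl t ht).2⟩) N
    (fun i h1 h2 => hτ₂.2.1 i h1 (by omega))
  rw [Nat.zero_add, hτ₂.1] at g1
  rw [Nat.zero_add] at g2 g3
  obtain ⟨hlast1, hlast2⟩ := hτ₂.2.1 (N - 1) (Nat.zero_le _) (by omega)
  have hN' : N - 1 + 1 = N := by omega
  rw [hN'] at hlast1 hlast2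
  rw [mem_cP, hps] at hlast1
  have htop := hp'.top (i := N - 1) (by omega)
  have hM'w : M' ≤ wpos M' υ' g' (N0 L' M' υ' g') (N - 1) := by
    unfold wpos; omega
  refine ⟨τ₂ N :: b₂, ⟨L', M', υ', g', X', S', tset τ₂ 0 N, τ₂ N, b₂, hp', hX1.trans hXX', hS', hC, rfl, ?_,
    hlast1.2, hlast2.2.2, by omega, by omega⟩, ?_⟩
  · intro t ht
    refine ⟨g3 t ht, ?_⟩
    rw [mem_tset] at ht
    obtain ⟨i, h1, h2, h3⟩ := ht
    have h4 := (hτ₂.2.1 i h1 h2).1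
    rw [h3, mem_cP] at h4
    exact h4.2.pos
  · refine trans_of_ne (f1.trans g1) ?_
    intro hcon
    have h1 : τ₂ N = r := (List.cons.inj hcon).1
    omega

end Pool.Agent.H550U.W
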