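import Pool.Agent.H550U.W.ScaleE

/-!
# Windows of the next scale
-/

namespace Pool.Agent.H550U.W

open Finset

variable {L M υ g X : ℕ}

open Classical in
noncomputable def cP (p : ℕ → ℕ) (W i : ℕ) : Finset ℕ := (Ioc (p (i + 1)) (p (i + 1) + W)).filter fun t => PP t

def cOk (p : ℕ → ℕ) (W : ℕ) (E : Finset ℕ) (i t : ℕ) : Prop := p i ≤ t ∧ t ≤ p i + W ∧ PP t ∧ t ∉ E

def cAdm (T E E' : Finset ℕ) (_ a t : ℕ) : Prop := Reach T a t ∧ t ∉ E ∧ t ∉ E'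

open Classical in
lemma mem_cP {p : ℕ → ℕ} {W i t : ℕ} : t ∈ cP p W i ↔ (p (i + 1) < t ∧ t ≤ p (i + 1) + W) ∧ PP t := by
  unfold cP
  rw [mem_filter, mem_Ioc]

lemma Par.M_big (h : Par L M υ g X) : υ * (1000000 * 1000000) ≤ M ∧ 1000000 * L ≤ M ∧ 1000000 ≤ M := by
  obtain ⟨hM, hυ⟩ := h.pos
  have hL := h.hL
  have h1 := h.u1
  have h2 : 1000000 * 1000000 ≤ L ^ 52 := by
    calc 1000000 * 1000000 ≤ L * L := Nat.mul_le_mul hL hL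
      _ = L ^ 2 := by ring
      _ ≤ L ^ 52 := Nat.pow_le_pow_right (by omega) (by norm_num)
  have h3 : 1000000 * L ≤ L ^ 52 := by
    calc 1000000 * L = 1000000 * L ^ 1 := by rw [pow_one]
      _ ≤ L ^ 52 := lp hL (by omega) (by norm_num)
  have h4 : L ^ 52 ≤ M := by
    calc L ^ 52 = 1 * L ^ 52 := (one_mul _).symm
      _ ≤ υ * L ^ 52 := Nat.mul_le_mul_right _ hυ
      _ ≤ M := h1
  exact ⟨(Nat.mul_le_mul_left _ h2).trans h1, h3.trans h4, by omega⟩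

/-- the distances -/
lemma Par.dist (h : Par L M υ g X) {υ' G : ℕ} (hυ' : υ' = M / 32) (hG : G = 32 * (2 * L + 5) * υ') :
    (2 * L + 4) * M + M / 4 + 8 * υ' ≤ G ∧ G + 9 * υ' ≤ (2 * L + 6) * M ∧ G ≤ (2 * L + 5) * M := by
  obtain ⟨h1, h2, h3⟩ := h.M_big
  have h4 : 32 * υ' ≤ M ∧ M ≤ 32 * υ' + 31 := by omega
  have h5 : G = (2 * L + 5) * (32 * υ') := by rw [hG]; ring
  have h6 : G ≤ (2 * L + 5) * M := by rw [h5]; exact Nat.mul_le_mul_left _ h4.1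
  have h7 : (2 * L + 5) * M ≤ G + (2 * L + 5) * 31 := by
    rw [h5, ← Nat.mul_add]; exact Nat.mul_le_mul_left _ h4.2
  have h8 : (2 * L + 5) * M = (2 * L + 4) * M + M := by ring
  have h9 : (2 * L + 6) * M = (2 * L + 4) * M + 2 * M := by ring
  refine ⟨by omega, by omega, h6⟩

/-- the number of elements of a window of the next scale -/
lemma Par.next_card (h : Par L M υ g X) {S : Finset (ℕ × ℕ)} (hS : TCat X S) {υ' : ℕ} (hυ' : υ' = M / 32) {v₀ : ℕ}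
    (hv₀ : PP v₀) (hv₀E : v₀ ∉ EE X S) (hv₀X : v₀ ≤ X) (q : ℕ) (hq : M ≤ q) (hq2 : q + 8 * υ' ≤ X / 2)
    (Q : Finset ℕ) (hQ : ∀ t, t ∈ Q ↔ (q < t ∧ t ≤ q + 8 * υ') ∧ PP t) : 8 * (υ' : ℝ) / (L : ℝ) ^ 7 ≤ #Q := by
  classical
  obtain ⟨h1, h2, h3⟩ := h.M_big
  unfold EE at hv₀E
  rw [mem_filter, mem_range] at hv₀E
  push Not at hv₀E
  obtain ⟨s, hs1, hs2, hs3, hs4⟩ := hv₀E (by omega)
  have h4 := h.ternary hS v₀ s hv₀.pos hv₀X hs2 hv₀.1 hs3 hs4 q (q + 8 * υ') (by omega) hq (by omega)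
    ((Ioc q (q + 8 * υ')).filter fun t => PP t ∧ PP (v₀ + t) ∧ PP (s - t)) (fun t => by rw [mem_filter, mem_Ioc])
  have h5 : (((q + 8 * υ' : ℕ) : ℝ) - q) = 8 * υ' := by push_cast; ring
  rw [h5] at h4
  refine h4.trans ?_
  have h6 : ((Ioc q (q + 8 * υ')).filter fun t => PP t ∧ PP (v₀ + t) ∧ PP (s - t)) ⊆ Q := by
    intro t ht
    rw [mem_filter, mem_Ioc] at ht
    rw [hQ]
    exact ⟨ht.1, ht.2.1⟩
  exact_mod_cast card_le_card h6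

theorem Par.chain_win (h : Par L M υ g X) {S : Finset (ℕ × ℕ)} (hS : TCat X S) {T : Finset ℕ} (hT : Conn L M X S T)
    {υ' G : ℕ} (hυ' : υ' = M / 32) (hG : G = 32 * (2 * L + 5) * υ') {v₀ : ℕ}
    (hv₀ : PP v₀) (hv₀E : v₀ ∉ EE X S) (hv₀X : v₀ ≤ X) (E' : Finset ℕ) (hE' : (#E' : ℝ) ≤ υ' / (L : ℝ) ^ 184)
    (L' : ℕ) (hL'0 : 1 ≤ L') (hL' : L' ≤ 2 * L) (p : ℕ → ℕ) (n : ℕ)
    (hp : ∀ i, i < n → p i + G ≤ p (i + 1) ∧ p (i + 1) ≤ p i + G + υ')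
    (hp0 : ∀ i, i ≤ n → M ≤ p i ∧ p i + 8 * υ' ≤ X / 4) :
    Win (cP p (8 * υ')) (cOk p (8 * υ') (EE X S)) (cAdm T (EE X S) E') (1 / (2 * (L' : ℝ) ^ 35)) 0 n := by
  classical
  obtain ⟨hb1, hb2, hb3⟩ := h.M_big
  obtain ⟨hd1, hd2, hd3⟩ := h.dist hυ' hG
  have hL := h.Lpos
  have hυ'M : M ≤ 64 * υ' := by omega
  have hυ'1 : 1 ≤ υ' := by omega
  have hυ'0 : (0 : ℝ) < υ' := by exact_mod_cast hυ'1
  have hLp : ∀ n : ℕ, (0 : ℝ) < (L : ℝ) ^ n := fun n => pow_pos (by linarith) n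
  have hL'p : (0 : ℝ) < (L' : ℝ) := by exact_mod_cast hL'0
  have hcard : ∀ i, i < n → 8 * (υ' : ℝ) / (L : ℝ) ^ 7 ≤ #(cP p (8 * υ') i) := by
    intro i hi
    obtain ⟨h1, h2⟩ := hp0 (i + 1) (by omega)
    exact h.next_card hS hυ' hv₀ hv₀E hv₀X (p (i + 1)) h1 (by omega) _ fun t => mem_cP
  have hXM : (X : ℝ) = M * (L : ℝ) ^ 58 := by rw [h.hX]; push_cast; ring
  have hMυ' : (M : ℝ) ≤ 64 * υ' := by exact_mod_cast hυ'M
  have e1 : (X : ℝ) / (L : ℝ) ^ 156 ≤ υ' / (L : ℝ) ^ 97 := by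
    rw [div_le_div_iff₀ (hLp 156) (hLp 97), hXM]
    have a1 : (L : ℝ) ^ 156 = L * ((L : ℝ) ^ 58 * (L : ℝ) ^ 97) := by rw [← pow_add, ← pow_succ']
    rw [a1]
    calc (M : ℝ) * (L : ℝ) ^ 58 * (L : ℝ) ^ 97 ≤ (64 * υ') * (L : ℝ) ^ 58 * (L : ℝ) ^ 97 := by
          have := hLp 58
          have := hLp 97
          gcongr
      _ = 64 * (υ' * ((L : ℝ) ^ 58 * (L : ℝ) ^ 97)) := by ring
      _ ≤ L * (υ' * ((L : ℝ) ^ 58 * (L : ℝ) ^ 97)) := by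
          apply mul_le_mul_of_nonneg_right (by linarith)
          exact mul_nonneg hυ'0.le (mul_nonneg (hLp _).le (hLp _).le)
      _ = υ' * (L * ((L : ℝ) ^ 58 * (L : ℝ) ^ 97)) := by ring
  have e2 : (#(EE X S) : ℝ) ≤ υ' / (L : ℝ) ^ 97 := by
    refine (h.E_le hS).trans ?_
    have a1 : (υ : ℝ) ≤ υ' := by exact_mod_cast (by omega : υ ≤ υ')
    have a2 : (L : ℝ) ^ 97 ≤ (L : ℝ) ^ 184 := pow_le_pow_right₀ (by linarith) (by norm_num)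
    exact div_le_div₀ hυ'0.le a1 (hLp 97) a2
  have e3 : (#E' : ℝ) ≤ υ' / (L : ℝ) ^ 97 := by
    refine hE'.trans ?_
    have a2 : (L : ℝ) ^ 97 ≤ (L : ℝ) ^ 184 := pow_le_pow_right₀ (by linarith) (by norm_num)
    exact div_le_div₀ hυ'0.le le_rfl (hLp 97) a2
  have e4 : 3 * ((υ' : ℝ) / (L : ℝ) ^ 97) ≤ 1 / (2 * (L' : ℝ) ^ 35) * (8 * (υ' : ℝ) / (L : ℝ) ^ 7) := by
    have a1 : (L' : ℝ) ≤ 2 * L := by exact_mod_cast hL'
    have a2 : 2 * (L' : ℝ) ^ 35 ≤ 2 ^ 36 * (L : ℝ) ^ 35 := by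
      calc 2 * (L' : ℝ) ^ 35 ≤ 2 * (2 * (L : ℝ)) ^ 35 := by gcongr
        _ = 2 ^ 36 * (L : ℝ) ^ 35 := by ring
    have a3 : 1 / (2 ^ 36 * (L : ℝ) ^ 35) ≤ 1 / (2 * (L' : ℝ) ^ 35) :=
      one_div_le_one_div_of_le (by positivity) a2
    refine le_trans ?_ (mul_le_mul_of_nonneg_right a3 (by have := hLp 7; positivity))
    rw [mul_div_assoc', div_mul_div_comm, div_le_div_iff₀ (hLp 97) (by have := hLp 35; have := hLp 7; positivity)]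
    have a4 : (L : ℝ) ^ 97 = (L : ℝ) ^ 42 * (L : ℝ) ^ 55 := by rw [← pow_add]
    have a5 : (2 : ℝ) ^ 40 ≤ (L : ℝ) ^ 55 := by
      calc (2 : ℝ) ^ 40 ≤ 1000000 ^ 3 := by norm_num
        _ ≤ (L : ℝ) ^ 3 := by gcongr
        _ ≤ (L : ℝ) ^ 55 := pow_le_pow_right₀ (by linarith) (by norm_num)
    rw [a4]
    calc 3 * (υ' : ℝ) * (2 ^ 36 * (L : ℝ) ^ 35 * (L : ℝ) ^ 7) = υ' * (L : ℝ) ^ 42 * (3 * 2 ^ 36) := by ring
      _ ≤ υ' * (L : ℝ) ^ 42 * (8 * (L : ℝ) ^ 55) := by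
          apply mul_le_mul_of_nonneg_left _ (mul_nonneg hυ'0.le (hLp _).le)
          calc (3 : ℝ) * 2 ^ 36 ≤ 8 * 2 ^ 40 := by norm_num
            _ ≤ 8 * (L : ℝ) ^ 55 := mul_le_mul_of_nonneg_left a5 (by norm_num)
      _ = 1 * (8 * υ') * ((L : ℝ) ^ 42 * (L : ℝ) ^ 55) := by ring
  refine ⟨?_, ?_, ?_⟩
  · intro i a t ha ht hA
    rw [mem_cP] at ht
    exact ⟨ht.1.1.le, ht.1.2, ht.2, hA.2.1⟩
  · intro i _ hi
    have h1 := hcard i hi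
    have h2 : (0 : ℝ) < 8 * (υ' : ℝ) / (L : ℝ) ^ 7 := div_pos (by linarith) (hLp 7)
    have h3 : (0 : ℝ) < #(cP p (8 * υ') i) := by linarith
    exact_mod_cast h3
  · intro i _ hi a ha Q hQ
    obtain ⟨c1, c2, c3, c4⟩ := ha
    obtain ⟨p1, p2⟩ := hp i hi
    obtain ⟨q1, q2⟩ := hp0 i hi.le
    obtain ⟨q3, q4⟩ := hp0 (i + 1) (by omega)
    have hZ := hT a c3 (by omega) c4 ((cP p (8 * υ') i).filter fun z => ¬ Reach T a z) (by
      intro z hz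
      rw [mem_filter, mem_cP] at hz
      obtain ⟨⟨⟨z1, z2⟩, z3⟩, z4⟩ := hz
      refine ⟨by omega, z3, ?_, ?_, z4⟩
      · generalize (2 * L + 4) * M = x at *
        omega
      · generalize (2 * L + 6) * M = x at *
        omega)
    have hsub : cP p (8 * υ') i ⊆ ((Q ∪ (cP p (8 * υ') i).filter fun z => ¬ Reach T a z) ∪ EE X S) ∪ E' := by
      intro t ht
      rw [mem_union, mem_union, mem_union, mem_filter]
      by_cases b1 : Reach T a t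
      · by_cases b2 : t ∈ EE X S
        · exact Or.inl (Or.inr b2)
        · by_cases b3 : t ∈ E'
          · exact Or.inr b3
          · exact Or.inl (Or.inl (Or.inl ((hQ t).mpr ⟨ht, b1, b2, b3⟩)))
      · exact Or.inl (Or.inl (Or.inr ⟨ht, b1⟩))
    have hc : #(cP p (8 * υ') i) ≤ #Q + #((cP p (8 * υ') i).filter fun z => ¬ Reach T a z) + #(EE X S) + #E' := by
      refine (card_le_card hsub).trans ?_
      refine (card_union_le _ _).trans ?_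
      refine Nat.add_le_add_right ((card_union_le _ _).trans ?_) _
      exact Nat.add_le_add_right (card_union_le _ _) _
    have hc' : (#(cP p (8 * υ') i) : ℝ) ≤ #Q + #((cP p (8 * υ') i).filter fun z => ¬ Reach T a z) + #(EE X S) + #E' := by
      exact_mod_cast hc
    have hδ : (1 / (2 * (L' : ℝ) ^ 35)) * (8 * (υ' : ℝ) / (L : ℝ) ^ 7) ≤ (1 / (2 * (L' : ℝ) ^ 35)) * #(cP p (8 * υ') i) :=
      mul_le_mul_of_nonneg_left (hcard i hi) (by positivity)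
    generalize (X : ℝ) / (L : ℝ) ^ 156 = x1 at *
    generalize (υ' : ℝ) / (L : ℝ) ^ 97 = x2 at *
    generalize 1 / (2 * (L' : ℝ) ^ 35) * (8 * (υ' : ℝ) / (L : ℝ) ^ 7) = x3 at *
    generalize 1 / (2 * (L' : ℝ) ^ 35) * (#(cP p (8 * υ') i) : ℝ) = x4 at *
    linarith only [hc', hδ, e4, e3, e2, e1, hZ]

end Pool.Agent.H550U.W
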