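import Mathlib
import Pool.Agent.H373R2.T7.Sys5

/-!
# The density of the sifted set for the system `n`, `y + n`, `s + 2 - n`
-/

namespace Pool.Agent.H550U.W

open Finset Polynomial
open Pool.Agent.H373R2.T7

/-- the system -/
noncomputable def FF : Fin 2 → ℤ[X] := fun _ => X
def sg2 : Fin 2 → ℤ := ![1, -1]
def av (y s : ℕ) : Fin 2 → ℕ := ![y, s + 2]

lemma sg2_pm : ∀ i, sg2 i = 1 ∨ sg2 i = -1 := by
  intro i
  fin_cases i <;> simp [sg2]

lemma FF_deg : ∀ i, 1 ≤ (FF i).natDegree := fun i => by simp [FF]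
lemma FF_lc : ∀ i, 0 < (FF i).leadingCoeff := fun i => by simp [FF]

lemma vl_zero (y s n : ℕ) : vl FF sg2 (av y s) 0 n = (y : ℤ) + n := by
  simp [vl, FF, sg2, av]

lemma vl_one (y s n : ℕ) : vl FF sg2 (av y s) 1 n = (s : ℤ) + 2 - n := by
  simp [vl, FF, sg2, av]
  ring

lemma sysQ_iff (y s p n : ℕ) : sysQ FF sg2 (av y s) p n ↔ ((p : ℤ) ∣ (y : ℤ) + n ∨ (p : ℤ) ∣ (s : ℤ) + 2 - n) := by
  unfold sysQ
  rw [Fin.exists_fin_two, vl_zero, vl_one]

lemma card_class (p : ℕ) (hp : 0 < p) (c : ℤ) (σ : ℤ) (hσ : σ = 1 ∨ σ = -1) :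
    #((range p).filter fun r : ℕ => (p : ℤ) ∣ c + σ * r) ≤ 1 := by
  rw [card_le_one]
  intro r hr r' hr'
  rw [mem_filter, mem_range] at hr hr'
  have h2 : (p : ℤ) ∣ (r : ℤ) - r' := by
    have h := dvd_sub hr.2 hr'.2
    rcases hσ with h1 | h1
    · rw [h1] at h
      have e : c + 1 * (r : ℤ) - (c + 1 * r') = r - r' := by ring
      rwa [e] at h
    · rw [h1] at h
      have e : c + -1 * (r : ℤ) - (c + -1 * r') = -(r - r') := by ring
      rw [e] at h
      exact (dvd_neg).1 h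
  have h3 : |(r : ℤ) - r'| < p := by rw [abs_lt]; constructor <;> omega
  have := Int.eq_zero_of_abs_lt_dvd h2 h3
  omega

open Classical in
lemma rho_two (y s : ℕ) (hy : 6 ∣ y) (hs : 6 ∣ s) : rhoA (sysQ FF sg2 (av y s)) 2 = 0 := by
  unfold rhoA
  rw [card_eq_zero, filter_eq_empty_iff]
  intro r hr h
  rw [mem_range] at hr
  obtain ⟨h1, h2⟩ := h
  rw [sysQ_iff] at h2
  have : r = 1 := by omega
  subst this
  rcases h2 with h2 | h2 <;> omega

open Classical in
lemma rho_three (y s : ℕ) (hy : 6 ∣ y) (hs : 6 ∣ s) : rhoA (sysQ FF sg2 (av y s)) 3 ≤ 1 := by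
  unfold rhoA
  have h : (range 3).filter (fun r => ¬ 3 ∣ r ∧ sysQ FF sg2 (av y s) 3 r) ⊆ {2} := by
    intro r hr
    rw [mem_filter, mem_range] at hr
    obtain ⟨h0, h1, h2⟩ := hr
    rw [sysQ_iff] at h2
    rw [mem_singleton]
    have : r = 1 ∨ r = 2 := by omega
    rcases this with rfl | rfl
    · exfalso
      rcases h2 with h2 | h2 <;> omega
    · rfl
  exact (card_le_card h).trans (by simp)

open Classical in
lemma rho_big (y s p : ℕ) (hp : 0 < p) : rhoA (sysQ FF sg2 (av y s)) p ≤ 2 := by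
  unfold rhoA
  have h : (range p).filter (fun r => ¬ p ∣ r ∧ sysQ FF sg2 (av y s) p r) ⊆
      ((range p).filter fun r : ℕ => (p : ℤ) ∣ (y : ℤ) + 1 * r) ∪
        ((range p).filter fun r : ℕ => (p : ℤ) ∣ ((s : ℤ) + 2) + -1 * r) := by
    intro r hr
    rw [mem_filter] at hr
    obtain ⟨h0, -, h2⟩ := hr
    rw [sysQ_iff] at h2
    rw [mem_union, mem_filter, mem_filter]
    rcases h2 with h2 | h2
    · left
      exact ⟨h0, by rw [one_mul]; exact h2⟩
    · right
      refine ⟨h0, ?_⟩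
      have e : (s : ℤ) + 2 + -1 * (r : ℤ) = s + 2 - r := by ring
      rw [e]; exact h2
  refine (card_le_card h).trans ((card_union_le _ _).trans ?_)
  have h1 := card_class p hp (y : ℤ) 1 (Or.inl rfl)
  have h2 := card_class p hp ((s : ℤ) + 2) (-1) (Or.inr rfl)
  omega

/-- lower bound for the density -/
theorem dens_low (y s z : ℕ) (hy : 6 ∣ y) (hs : 6 ∣ s) :
    Vz z ^ 4 ≤ ∏ p ∈ pz z, (1 - (rhoA (sysQ FF sg2 (av y s)) p : ℝ) / (p - 1 : ℝ)) := by
  unfold Vz
  rw [← prod_pow]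
  refine prod_le_prod (fun p hp => ?_) fun p hp => ?_
  · positivity
  · have hpp := (mem_pz.1 hp).2
    have hp2 : (2 : ℝ) ≤ p := by exact_mod_cast hpp.two_le
    have hp0 : (0 : ℝ) < p := by linarith
    rcases Nat.lt_or_ge p 5 with h5 | h5
    · have h23 : p = 2 ∨ p = 3 := by
        have := hpp.two_le
        have h4 : p ≠ 4 := by rintro rfl; exact absurd hpp (by norm_num)
        omega
      rcases h23 with rfl | rfl
      · rw [rho_two y s hy hs]
        norm_num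
      · have h1 : (rhoA (sysQ FF sg2 (av y s)) 3 : ℝ) ≤ 1 := by exact_mod_cast rho_three y s hy hs
        push_cast
        norm_num
        linarith
    · have h1 : (rhoA (sysQ FF sg2 (av y s)) p : ℝ) ≤ 2 := by exact_mod_cast rho_big y s p hpp.pos
      have hp5 : (5 : ℝ) ≤ p := by exact_mod_cast h5
      have hp1 : (0 : ℝ) < (p : ℝ) - 1 := by linarith
      have h2 : (rhoA (sysQ FF sg2 (av y s)) p : ℝ) / (p - 1 : ℝ) ≤ 2 / (p - 1) := by gcongr
      have h3 : (1 - 1 / (p : ℝ)) ^ 4 ≤ 1 - 2 / ((p : ℝ) - 1) := by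
        have e1 : 1 - 1 / (p : ℝ) = (p - 1) / p := by field_simp
        have e2 : 1 - 2 / ((p : ℝ) - 1) = (p - 3) / (p - 1) := by field_simp; ring
        rw [e1, e2, div_pow, div_le_div_iff₀ (by positivity) hp1]
        nlinarith [pow_nonneg hp0.le 2, pow_nonneg hp0.le 3, mul_nonneg (sub_nonneg.2 hp5) (pow_nonneg hp0.le 3),
          mul_nonneg (sub_nonneg.2 hp5) hp0.le]
      linarith

end Pool.Agent.H550U.W
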