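import Pool.Agent.H550U.W.Dens

/-!
# The exceptional set of the system `n`, `y + n`, `s + 2 - n`
-/

namespace Pool.Agent.H550U.W

open Finset Polynomial
open Pool.Agent.H373R2.T7

noncomputable def Wt (a : Fin 2 → ℕ) (n : ℕ) : ℝ := ∏ i, lamP (vl FF sg2 a i n)
noncomputable def Wm (z : ℕ) (a : Fin 2 → ℕ) (n : ℕ) : ℝ := ∏ i, lamzI z (vl FF sg2 a i n)

theorem exc (U J : ℕ) : ∃ B0 : ℕ, ∀ E : ℕ, ∃ N0 : ℕ, ∀ x : ℕ, N0 ≤ x → ∀ z : ℕ, Real.log x ^ B0 ≤ z →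
    (z : ℝ) ≤ Real.log x ^ E → ∀ κ : ℕ, ∃ S' : Finset (Fin 2 → ℕ), (#S' : ℝ) ≤ (x : ℝ) ^ 2 / Real.log x ^ U ∧
      ∀ a ∈ Fintype.piFinset (fun _ : Fin 2 => Icc 1 x), a ∉ S' → ∀ j : ℕ, (j : ℝ) ≤ Real.log x ^ J →
        |∑ n ∈ Icc 1 x, (if n ≤ j * κ + 1 then ArithmeticFunction.vonMangoldt n else 0) * (Wt a n - Wm z a n)| ≤
          x / Real.log x ^ U := by
  classical
  obtain ⟨B0, hB0⟩ := sys_diffP FF FF_deg FF_lc sg2 sg2_pm 1 le_rfl (2 * U + J + 2)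
  refine ⟨B0, fun E => ?_⟩
  obtain ⟨N0, h0⟩ := hB0 E
  obtain ⟨N1, h1⟩ := ev_L' 3
  refine ⟨max N0 (N1 + 3), fun x hx z hz1 hz2 κ => ?_⟩
  have hx0 : N0 ≤ x := (le_max_left _ _).trans hx
  have hx1 : N1 + 3 ≤ x := (le_max_right _ _).trans hx
  have hL := h1 x (by omega)
  have hxr : (0 : ℝ) < x := by exact_mod_cast (by omega : 0 < x)
  have hL0 : 0 < Real.log x := by linarith
  obtain ⟨D, hD⟩ : ∃ D : ℕ → (Fin 2 → ℕ) → ℝ, D = fun j a => |∑ n ∈ Icc 1 x,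
    (if n ≤ j * κ + 1 then ArithmeticFunction.vonMangoldt n else 0) * (Wt a n - Wm z a n)| := ⟨_, rfl⟩
  obtain ⟨T, hT⟩ : ∃ T : ℝ, T = x / Real.log x ^ U := ⟨_, rfl⟩
  have hT0 : 0 < T := by rw [hT]; positivity
  have hsum : ∀ j, ∑ a ∈ Fintype.piFinset (fun _ : Fin 2 => Icc 1 x), D j a ≤
      T * ((x : ℝ) ^ 2 / Real.log x ^ (U + J + 2)) := by
    intro j
    have h2 := h0 x hx0 (fun _ => x) (fun i => by simp [FF]) z hz1 hz2
      (fun n => if n ≤ j * κ + 1 then ArithmeticFunction.vonMangoldt n else 0) (by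
        intro n hn
        rw [mem_Icc] at hn
        have h3 : ArithmeticFunction.vonMangoldt n ≤ Real.log x :=
          ArithmeticFunction.vonMangoldt_le_log.trans
            (Real.log_le_log (by exact_mod_cast hn.1) (by exact_mod_cast hn.2))
        split_ifs
        · rw [abs_of_nonneg ArithmeticFunction.vonMangoldt_nonneg]; exact h3
        · rw [abs_zero]; exact hL0.le)
    rw [Fin.prod_univ_two] at h2
    have h4 : (x : ℝ) * ((x : ℝ) * x) / Real.log x ^ (2 * U + J + 2) =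
        T * ((x : ℝ) ^ 2 / Real.log x ^ (U + J + 2)) := by
      rw [hT, show 2 * U + J + 2 = U + (U + J + 2) by ring, pow_add]
      field_simp
    rw [h4] at h2
    rw [hD]
    exact h2
  obtain ⟨R, hR⟩ : ∃ R, R = ⌊Real.log x ^ J⌋₊ := ⟨_, rfl⟩
  obtain ⟨Sj, hSj⟩ : ∃ Sj : ℕ → Finset (Fin 2 → ℕ), Sj = fun j =>
    (Fintype.piFinset (fun _ : Fin 2 => Icc 1 x)).filter fun a => T < D j a := ⟨_, rfl⟩
  have hSjc : ∀ j, (#(Sj j) : ℝ) ≤ (x : ℝ) ^ 2 / Real.log x ^ (U + J + 2) := by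
    intro j
    rw [hSj]
    exact markov _ (D j) (fun a _ => by rw [hD]; exact abs_nonneg _) T _ hT0 (hsum j)
  refine ⟨(range (R + 1)).biUnion Sj, ?_, ?_⟩
  · have h3 : (#((range (R + 1)).biUnion Sj) : ℝ) ≤ ∑ j ∈ range (R + 1), (#(Sj j) : ℝ) := by
      exact_mod_cast card_biUnion_le
    refine h3.trans ((sum_le_sum fun j _ => hSjc j).trans ?_)
    rw [sum_const, card_range, nsmul_eq_mul]
    have h4 : ((R + 1 : ℕ) : ℝ) ≤ Real.log x ^ (J + 1) := by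
      push_cast
      have h5 : (R : ℝ) ≤ Real.log x ^ J := by rw [hR]; exact Nat.floor_le (by positivity)
      have h6 : (1 : ℝ) ≤ Real.log x ^ J := one_le_pow₀ (by linarith)
      rw [pow_succ]
      nlinarith
    calc ((R + 1 : ℕ) : ℝ) * ((x : ℝ) ^ 2 / Real.log x ^ (U + J + 2))
        ≤ Real.log x ^ (J + 1) * ((x : ℝ) ^ 2 / Real.log x ^ (U + J + 2)) := by gcongr
      _ = (x : ℝ) ^ 2 / Real.log x ^ U * (1 / Real.log x) := by
          rw [show U + J + 2 = U + (J + 1) + 1 by ring, pow_succ _ (U + (J + 1)), pow_add]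
          field_simp
          ring
      _ ≤ (x : ℝ) ^ 2 / Real.log x ^ U * 1 := by
          have : 1 / Real.log x ≤ 1 := by rw [div_le_one hL0]; linarith
          gcongr
      _ = _ := mul_one _
  · intro a ha hna j hj
    have hjR : j ≤ R := by rw [hR]; exact Nat.le_floor hj
    by_contra hcon
    push Not at hcon
    apply hna
    rw [mem_biUnion]
    refine ⟨j, mem_range.mpr (by omega), ?_⟩
    rw [hSj, mem_filter]
    refine ⟨ha, ?_⟩
    rw [hT, hD]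
    exact hcon

end Pool.Agent.H550U.W
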