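import Pool.Agent.H550U.W.Growth

/-!
# The last two steps: from a large set near `j₀` to almost every `z`
-/

namespace Pool.Agent.H550U.W

open Finset

/-- the first index of the `i`-th pair of windows -/
def ia (q' g i : ℕ) : ℕ := q' / g - q' % g - i * (g + 1)
/-- the second index of the `i`-th pair of windows -/
def ib (q' g i : ℕ) : ℕ := q' % g + i * g
/-- the second index from the first one -/
def ibq (q' g a : ℕ) : ℕ := (q' - a * g) / (g + 1)

lemma pair_arith {q' g n' Na i : ℕ} (hg : 1 ≤ g) (h1 : (n' + 1) * (g + 1) ≤ q' / g) (h2 : q' / g < Na) (hi : i < n') :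
    ia q' g i < Na ∧ ib q' g i < (n' + 1) * g ∧ (ia q' g i + ib q' g i) * g + ib q' g i = q' ∧
      ibq q' g (ia q' g i) = ib q' g i ∧ ia q' g i + i * (g + 1) = q' / g - q' % g := by
  have h3 : q' % g < g := Nat.mod_lt _ (by omega)
  have h4 := Nat.div_add_mod q' g
  have h5 : (i + 1) * (g + 1) ≤ n' * (g + 1) := Nat.mul_le_mul_right _ (by omega)
  have h6 : (n' + 1) * (g + 1) = n' * (g + 1) + (g + 1) := by ring
  have h7 : (i + 1) * (g + 1) = i * (g + 1) + (g + 1) := by ring
  have h8 : ia q' g i + (q' % g + i * (g + 1)) = q' / g := by unfold ia; omega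
  have h9 : ia q' g i + ib q' g i + i = q' / g := by
    unfold ib
    have : i * (g + 1) = i * g + i := by ring
    omega
  have h10 : (ia q' g i + ib q' g i) * g + ib q' g i = q' := by
    have e1 : (ia q' g i + ib q' g i + i) * g = q' / g * g := by rw [h9]
    have e2 : (ia q' g i + ib q' g i + i) * g = (ia q' g i + ib q' g i) * g + i * g := by ring
    have e3 : g * (q' / g) = q' / g * g := by ring
    unfold ib at e1 e2 ⊢
    omega
  refine ⟨by omega, ?_, h10, ?_, by omega⟩
  · unfold ib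
    have h11 : (i + 1) * g ≤ n' * g := Nat.mul_le_mul_right _ (by omega)
    have h12 : (i + 1) * g = i * g + g := by ring
    have h13 : (n' + 1) * g = n' * g + g := by ring
    omega
  · unfold ibq
    have h14 : q' - ia q' g i * g = ib q' g i * (g + 1) := by
      have e : (ia q' g i + ib q' g i) * g + ib q' g i = ia q' g i * g + ib q' g i * (g + 1) := by ring
      omega
    rw [h14, Nat.mul_div_cancel _ (by omega)]

lemma ia_inj {q' g n' i i' : ℕ} (hg : 1 ≤ g) (h1 : (n' + 1) * (g + 1) ≤ q' / g) (hi : i < n') (hi' : i' < n')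
    (h : ia q' g i = ia q' g i') : i = i' := by
  have a1 := (pair_arith (Na := q' / g + 1) hg h1 (by omega) hi).2.2.2.2
  have a2 := (pair_arith (Na := q' / g + 1) hg h1 (by omega) hi').2.2.2.2
  rw [h] at a1
  have : i * (g + 1) = i' * (g + 1) := by omega
  exact Nat.eq_of_mul_eq_mul_right (by omega) this

lemma ib_inj {q' g i i' : ℕ} (hg : 1 ≤ g) (h : ib q' g i = ib q' g i') : i = i' := by
  unfold ib at h
  have : i * g = i' * g := by omega
  exact Nat.eq_of_mul_eq_mul_right (by omega) this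

/-- positions of a pair of windows -/
lemma pair_pos {υ g PA PB j z v a b q' : ℕ} (hυ : 1 ≤ υ) (hq' : q' = (z - j - PA - PB) / υ - 3)
    (h3 : j + PA + PB + 3 * υ ≤ z) (hv1 : j ≤ v) (hv2 : v < j + υ) (hab : (a + b) * g + b = q') :
    ∃ d, z = v + (PA + a * (g * υ)) + (PB + b * ((g + 1) * υ)) + d ∧ 2 * υ < d ∧ d < 4 * υ := by
  obtain ⟨q, hq⟩ : ∃ q, q = z - j - PA - PB := ⟨_, rfl⟩
  rw [← hq] at hq'
  have h4 := Nat.div_add_mod q υ
  have h5 : q % υ < υ := Nat.mod_lt _ (by omega)
  have h6 : 3 ≤ q / υ := by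
    rw [Nat.le_div_iff_mul_le (by omega)]; omega
  have h7 : q / υ = q' + 3 := by omega
  have h8 : q = υ * q' + 3 * υ + q % υ := by
    rw [h7] at h4
    have : υ * (q' + 3) = υ * q' + 3 * υ := by ring
    omega
  have h9 : a * (g * υ) + b * ((g + 1) * υ) = υ * q' := by
    rw [← hab]; ring
  refine ⟨3 * υ + q % υ - (v - j), ?_, ?_, ?_⟩ <;> omega

end Pool.Agent.H550U.W
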