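import Pool.Agent.H550U.W.Final

/-!
# The last two steps
-/

namespace Pool.Agent.H550U.W

open Finset

open Classical in
/-- double counting -/
lemma many_good (Q W : Finset ℕ) (R : ℕ → ℕ → Prop) (A η : ℝ) (hW : 0 < #W) (hA : ∀ v ∈ W, A ≤ #(Q.filter fun t => R v t))
    (hη0 : 0 ≤ η) (hη : #Q * η ≤ A / 2) : A / 2 ≤ #(Q.filter fun t => η * #W ≤ #(W.filter fun v => R v t)) := by
  obtain ⟨f, hf⟩ : ∃ f : ℕ → ℕ, f = fun t => #(W.filter fun v => R v t) := ⟨_, rfl⟩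
  have hft : ∀ t, #(W.filter fun v => R v t) = f t := fun t => by rw [hf]
  simp only [hft]
  have hW0 : (0 : ℝ) < #W := by exact_mod_cast hW
  have hlow : (#W : ℝ) * A ≤ ∑ t ∈ Q, (f t : ℝ) := by
    have h1 : ∑ t ∈ Q, (f t : ℝ) = ∑ v ∈ W, (#(Q.filter fun t => R v t) : ℝ) := by
      have a1 : ∀ t ∈ Q, (f t : ℝ) = ∑ v ∈ W, if R v t then (1 : ℝ) else 0 := by
        intro t _
        rw [← hft, card_filter]
        push_cast
        rfl
      have a2 : ∀ v ∈ W, (#(Q.filter fun t => R v t) : ℝ) = ∑ t ∈ Q, if R v t then (1 : ℝ) else 0 := by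
        intro v _
        rw [card_filter]
        push_cast
        rfl
      rw [sum_congr rfl a1, sum_congr rfl a2, sum_comm]
    rw [h1, ← nsmul_eq_mul, ← sum_const]
    exact sum_le_sum hA
  have hup : ∑ t ∈ Q, (f t : ℝ) ≤ #(Q.filter fun t => η * #W ≤ f t) * #W + #Q * (η * #W) := by
    rw [← sum_filter_add_sum_filter_not Q (fun t => η * #W ≤ f t)]
    refine add_le_add ?_ ?_
    · rw [← nsmul_eq_mul, ← sum_const]
      refine sum_le_sum fun t _ => ?_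
      have : f t ≤ #W := by rw [← hft]; exact card_filter_le _ _
      exact_mod_cast this
    · calc _ ≤ ∑ t ∈ Q.filter (fun t => ¬ η * #W ≤ f t), η * #W :=
            sum_le_sum fun t ht => (lt_of_not_ge (mem_filter.mp ht).2).le
        _ = #(Q.filter (fun t => ¬ η * #W ≤ f t)) * (η * #W) := by
            rw [sum_const, nsmul_eq_mul]
        _ ≤ _ := by
            have : (#(Q.filter (fun t => ¬ η * #W ≤ f t)) : ℝ) ≤ #Q := by
              exact_mod_cast card_filter_le _ _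
            gcongr
  have h2 : #Q * (η * #W) ≤ A / 2 * #W := by
    calc #Q * (η * #W) = #Q * η * #W := by ring
      _ ≤ A / 2 * #W := by gcongr
  have h3 : A / 2 * #W ≤ #(Q.filter fun t => η * #W ≤ f t) * #W := by linarith
  exact le_of_mul_le_mul_right h3 hW0

variable {P : ℕ → Finset ℕ} {Ok : ℕ → ℕ → Prop} {Adm : ℕ → ℕ → ℕ → Prop}

/-- the valid pairs -/
def Vd (υ g PA PB Na n' : ℕ) (S : Finset (ℕ × ℕ)) (F : ℕ → Finset ℕ) (j₀ : ℕ → ℕ) (y z : ℕ) : Prop :=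
  PP z ∧ j₀ y + PA + PB + υ * (g * ((n' + 1) * (g + 1)) + 3) ≤ z ∧ z < j₀ y + PA + PB + υ * (g * Na) ∧
    2 * #((F y).filter fun v => (v, z - v) ∈ S) ≤ #(F y)

/-- arithmetic for valid pairs -/
lemma vd_arith {υ g PA PB Na n' j z : ℕ} (hυ : 1 ≤ υ) (hg : 1 ≤ g)
    (h1 : j + PA + PB + υ * (g * ((n' + 1) * (g + 1)) + 3) ≤ z) (h2 : z < j + PA + PB + υ * (g * Na)) :
    (n' + 1) * (g + 1) ≤ ((z - j - PA - PB) / υ - 3) / g ∧ ((z - j - PA - PB) / υ - 3) / g < Na ∧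
      j + PA + PB + 3 * υ ≤ z := by
  have h3 : υ * (g * ((n' + 1) * (g + 1)) + 3) = (g * ((n' + 1) * (g + 1)) + 3) * υ := by ring
  have h4 : υ * (g * Na) = g * Na * υ := by ring
  refine ⟨?_, ?_, ?_⟩
  · rw [Nat.le_div_iff_mul_le (by omega)]
    have h5 : g * ((n' + 1) * (g + 1)) + 3 ≤ (z - j - PA - PB) / υ := by
      rw [Nat.le_div_iff_mul_le (by omega)]
      omega
    have h6 : (n' + 1) * (g + 1) * g = g * ((n' + 1) * (g + 1)) := by ring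
    omega
  · rw [Nat.div_lt_iff_lt_mul (by omega)]
    have h5 : (z - j - PA - PB) / υ < g * Na := by
      rw [Nat.div_lt_iff_lt_mul (by omega)]
      omega
    calc (z - j - PA - PB) / υ - 3 ≤ (z - j - PA - PB) / υ := Nat.sub_le _ _
      _ < g * Na := h5
      _ = Na * g := by ring
  · have h5 : 3 * υ ≤ υ * (g * ((n' + 1) * (g + 1)) + 3) := by
      rw [h3]
      exact Nat.mul_le_mul_right _ (by omega)
    omega

/-- `v + t` is in `PP` and the difference `z - (v + t)` is in the window with index `sB + b` -/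
def RR (P : ℕ → Finset ℕ) (sB b z v t : ℕ) : Prop := PP (v + t) ∧ z - (v + t) ∈ P (sB + b) ∧ v + t ≤ z

open Classical in
theorem final (δ κ πB h : ℝ) (hκ : 1 ≤ κ) (hδ0 : 0 ≤ δ) (hδ : δ ≤ 1 / (16 * κ)) (hδB : δ ≤ πB / 2) (hπB1 : πB ≤ 1)
    (υ g PA PB Na n₁ n₂ X s r : ℕ) (hυ : 1 ≤ υ) (hg : 1 ≤ g) (hr : Ok s r)
    (S : Finset (ℕ × ℕ)) (Y : Finset ℕ) (F : ℕ → Finset ℕ) (j₀ : ℕ → ℕ) (T : Finset ℕ)
    (hF : ∀ y ∈ Y, ∀ v ∈ F y, PP v ∧ 1 ≤ v ∧ v ≤ X ∧ j₀ y ≤ v ∧ v < j₀ y + υ ∧ Reach T y v)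
    (hFc : ∀ y ∈ Y, h ≤ #(F y)) (hh : 0 < h) (hπB : πB * (8 * υ) ≤ h / (16 * κ))
    (hTC : ∀ v s' : ℕ, 1 ≤ v → v ≤ X → s' ≤ X → 6 ∣ v → 6 ∣ s' → (v, s') ∉ S → ∀ u' v' : ℕ, v' ≤ s' → PA ≤ u' →
      u' + 2 * υ ≤ v' → ∀ Q : Finset ℕ, (∀ t, t ∈ Q ↔ (u' < t ∧ t ≤ v') ∧ PP t ∧ PP (v + t) ∧ PP (s' - t)) →
      ((v' : ℝ) - u') / κ ≤ #Q)
    (hwin : Win P Ok Adm δ s (s + Na + (n₁ * n₂ + 1) * g))
    (hPA : ∀ a, a < Na → ∀ t, t ∈ P (s + a) ↔ (PA + a * (g * υ) < t ∧ t ≤ PA + a * (g * υ) + 8 * υ) ∧ PP t)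
    (hPB : ∀ b, b < (n₁ * n₂ + 1) * g → ∀ t, t ∈ P (s + Na + b) ↔
      (PB + b * ((g + 1) * υ) < t ∧ t ≤ PB + b * ((g + 1) * υ) + 8 * υ) ∧ PP t)
    (hn₁ : ((#Y : ℝ) * (X + 1) * n₂) * (1 - 1 / (16 * κ)) ^ n₁ < 1)
    (hn₂ : ((#Y : ℝ) * (X + 1)) * (1 - πB / 2) ^ n₂ < 1) :
    ∃ τ : ℕ → ℕ, Sel P Ok Adm s (s + Na + (n₁ * n₂ + 1) * g) r τ ∧ ∀ y ∈ Y, ∀ z, z ≤ X →
      Vd υ g PA PB Na (n₁ * n₂) S F j₀ y z → Reach (T ∪ tset τ s (s + Na + (n₁ * n₂ + 1) * g)) y z := by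
  have hκ0 : 0 < κ := by linarith
  have hυ0 : (0 : ℝ) < υ := by exact_mod_cast hυ
  obtain ⟨n', hn'⟩ : ∃ n', n' = n₁ * n₂ := ⟨_, rfl⟩
  rw [← hn'] at hwin hPB ⊢
  obtain ⟨Nb, hNb⟩ : ∃ Nb, Nb = (n' + 1) * g := ⟨_, rfl⟩
  rw [← hNb] at hwin hPB ⊢
  obtain ⟨sB, hsB⟩ : ∃ sB, sB = s + Na := ⟨_, rfl⟩
  rw [← hsB] at hwin hPB ⊢
  obtain ⟨q, hq⟩ : ∃ q : ℕ → ℕ → ℕ, ∀ y z, q y z = (z - j₀ y - PA - PB) / υ - 3 := ⟨_, fun _ _ => rfl⟩
  obtain ⟨Fg, hFg⟩ : ∃ Fg : ℕ → ℕ → Finset ℕ, ∀ y z, Fg y z = (F y).filter fun v => (v, z - v) ∉ S :=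
    ⟨_, fun _ _ => rfl⟩
  -- the size of the windows
  have hcardP : ∀ (p : ℕ) (Q : Finset ℕ), (∀ t, t ∈ Q ↔ (p < t ∧ t ≤ p + 8 * υ) ∧ PP t) → (#Q : ℝ) ≤ 8 * υ := by
    intro p Q hQ
    have h1 : Q ⊆ Ioc p (p + 8 * υ) := by
      intro t ht
      rw [mem_Ioc]
      exact ((hQ t).mp ht).1
    have h2 := card_le_card h1
    rw [Nat.card_Ioc, Nat.add_sub_cancel_left] at h2
    exact_mod_cast h2
  -- the size of `Fg`
  have hFgc : ∀ y ∈ Y, ∀ z, Vd υ g PA PB Na n' S F j₀ y z → h / 2 ≤ (#(Fg y z) : ℝ) := by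
    intro y hy z hz
    have h1 := hz.2.2.2
    have h2 : #((F y).filter fun v => (v, z - v) ∈ S) + #(Fg y z) = #(F y) := by
      rw [hFg]
      exact card_filter_add_card_filter_not _
    have h3 : (#(F y) : ℝ) ≤ 2 * #(Fg y z) := by exact_mod_cast (by omega : #(F y) ≤ 2 * #(Fg y z))
    have := hFc y hy
    linarith
  -- arithmetic of the pairs
  have harith : ∀ y z, Vd υ g PA PB Na n' S F j₀ y z → (n' + 1) * (g + 1) ≤ q y z / g ∧ q y z / g < Na ∧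
      j₀ y + PA + PB + 3 * υ ≤ z := by
    intro y z hz
    rw [hq]
    exact vd_arith hυ hg hz.2.1 hz.2.2.1
  -- many good `t`
  have hgood : ∀ y ∈ Y, ∀ z, z ≤ X → Vd υ g PA PB Na n' S F j₀ y z → ∀ i, i < n' →
      υ / κ ≤ #((P (s + ia (q y z) g i)).filter fun t => 1 / (8 * κ) * (#(Fg y z) : ℝ) ≤
        #((Fg y z).filter fun v => RR P sB (ib (q y z) g i) z v t)) := by
    intro y hy z hzX hz i hi
    obtain ⟨a1, a2, a3⟩ := harith y z hz
    obtain ⟨b1, b2, b3, b4, -⟩ := pair_arith hg a1 a2 hi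
    obtain ⟨a, ha⟩ : ∃ a, a = ia (q y z) g i := ⟨_, rfl⟩
    obtain ⟨b, hb⟩ : ∃ b, b = ib (q y z) g i := ⟨_, rfl⟩
    rw [← ha, ← hb] at b3
    rw [← ha] at b1
    rw [← hb, ← hNb] at b2
    rw [← ha, ← hb]
    have hFg0 : 0 < #(Fg y z) := by
      have := hFgc y hy z hz
      have : (0 : ℝ) < #(Fg y z) := by linarith
      exact_mod_cast this
    have e2 : (2 * υ / κ) / 2 = υ / κ := by ring
    rw [← e2]
    refine many_good (P (s + a)) (Fg y z) (fun v t => RR P sB b z v t) (2 * υ / κ) (1 / (8 * κ)) hFg0 ?_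
      (by positivity) ?_
    · intro v hv
      rw [hFg, mem_filter] at hv
      obtain ⟨hvF, hvS⟩ := hv
      obtain ⟨c1, c2, c3, c4, c5, -⟩ := hF y hy v hvF
      obtain ⟨d, hd1, hd2, hd3⟩ := pair_pos hυ (hq y z) a3 c4 c5 b3
      obtain ⟨pa, hpa⟩ : ∃ pa, pa = PA + a * (g * υ) := ⟨_, rfl⟩
      obtain ⟨pb, hpb⟩ : ∃ pb, pb = PB + b * ((g + 1) * υ) := ⟨_, rfl⟩
      have hA := hPA a b1
      have hB := hPB b b2
      rw [← hpa] at hA hd1
      rw [← hpb] at hB hd1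
      have hz6 := hz.1.1
      have hv6 := c1.1
      have hTC1 := hTC v (z - v) c2 c3 (by omega) hv6 (by omega) hvS pa (pa + (d - 1)) (by omega)
        (by rw [hpa]; exact Nat.le_add_right _ _) (by omega)
        ((Ioc pa (pa + (d - 1))).filter fun t => PP t ∧ PP (v + t) ∧ PP (z - v - t))
        (fun t => by rw [mem_filter, mem_Ioc])
      have hd4 : (2 * υ : ℝ) ≤ ((pa + (d - 1) : ℕ) : ℝ) - pa := by
        have : 2 * υ ≤ d - 1 := by omega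
        have h' : ((2 * υ : ℕ) : ℝ) ≤ ((d - 1 : ℕ) : ℝ) := by exact_mod_cast this
        push_cast at h' ⊢
        linarith
      calc 2 * υ / κ ≤ (((pa + (d - 1) : ℕ) : ℝ) - pa) / κ := by gcongr
        _ ≤ _ := hTC1
        _ ≤ _ := by
          have hsub : ((Ioc pa (pa + (d - 1))).filter fun t => PP t ∧ PP (v + t) ∧ PP (z - v - t)) ⊆
              (P (s + a)).filter fun t => RR P sB b z v t := by
            intro t ht
            rw [mem_filter, mem_Ioc] at ht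
            obtain ⟨⟨e3, e4⟩, e5, e6, e7⟩ := ht
            rw [mem_filter, hA]
            refine ⟨⟨⟨by omega, by omega⟩, e5⟩, e6, ?_, by omega⟩
            rw [hB]
            have e8 : z - (v + t) = z - v - t := by omega
            rw [e8]
            exact ⟨⟨by omega, by omega⟩, e7⟩
          exact_mod_cast card_le_card hsub
    · have h1 := hcardP _ (P (s + a)) (hPA a b1)
      calc (#(P (s + a)) : ℝ) * (1 / (8 * κ)) ≤ 8 * υ * (1 / (8 * κ)) := by gcongr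
        _ = 2 * υ / κ / 2 := by field_simp
  -- stage A
  obtain ⟨ΩA, hΩA⟩ : ∃ ΩA : Finset ((ℕ × ℕ) × ℕ), ΩA = ((Y ×ˢ range (X + 1)) ×ˢ range n₂).filter
    fun ω => Vd υ g PA PB Na n' S F j₀ ω.1.1 ω.1.2 := ⟨_, rfl⟩
  have hΩmem : ∀ ω ∈ ΩA, ω.1.1 ∈ Y ∧ ω.1.2 ≤ X ∧ ω.2 < n₂ ∧ Vd υ g PA PB Na n' S F j₀ ω.1.1 ω.1.2 := by
    intro ω hω
    rw [hΩA, mem_filter, mem_product, mem_product, mem_range, mem_range] at hω
    exact ⟨hω.1.1.1, by omega, hω.1.2, hω.2⟩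
  have hidx : ∀ c i', c < n₂ → i' < n₁ → c * n₁ + i' < n' := by
    intro c i' hc hi'
    have h1 : (c + 1) * n₁ ≤ n₂ * n₁ := Nat.mul_le_mul_right _ (by omega)
    have h2 : (c + 1) * n₁ = c * n₁ + n₁ := by ring
    rw [hn', mul_comm n₁ n₂]
    omega
  have hΩA_card : (#ΩA : ℝ) ≤ (#Y : ℝ) * (X + 1) * n₂ := by
    have h1 : #ΩA ≤ #((Y ×ˢ range (X + 1)) ×ˢ range n₂) := by rw [hΩA]; exact card_filter_le _ _
    rw [card_product, card_product, card_range, card_range] at h1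
    exact_mod_cast h1
  obtain ⟨τ₁, hτ₁, hgA⟩ := greedy (P := P) (Ok := Ok) (Adm := Adm) (ι := (ℕ × ℕ) × ℕ) δ (1 / (8 * κ)) (by
      have : 1 / (16 * κ) ≤ 1 / 16 := by
        apply one_div_le_one_div_of_le <;> linarith
      linarith) (by
      have : 1 / (16 * κ) ≤ 1 / (8 * κ) := by
        apply one_div_le_one_div_of_le <;> linarith
      linarith) hwin.ok Na s r hr
    (fun i h1 h2 => hwin.ne i h1 (by omega)) (fun i h1 h2 => hwin.adm i h1 (by omega))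
    ΩA (fun ω => (range n₁).image fun i' => s + ia (q ω.1.1 ω.1.2) g (ω.2 * n₁ + i'))
    (fun ω k => (P k).filter fun t => 1 / (8 * κ) * (#(Fg ω.1.1 ω.1.2) : ℝ) ≤
      #((Fg ω.1.1 ω.1.2).filter fun v => RR P sB (ibq (q ω.1.1 ω.1.2) g (k - s)) ω.1.2 v t))
    (by
      intro ω hω i hi
      obtain ⟨h1, h2, h3, h4⟩ := hΩmem ω hω
      obtain ⟨i', hi', rfl⟩ := mem_image.mp hi
      rw [mem_range] at hi'
      obtain ⟨a1, a2, a3⟩ := harith _ _ h4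
      have := (pair_arith hg a1 a2 (hidx ω.2 i' h3 hi')).1
      omega)
    (by
      intro ω hω k hk
      obtain ⟨h1, h2, h3, h4⟩ := hΩmem ω hω
      obtain ⟨i', hi', rfl⟩ := mem_image.mp hk
      rw [mem_range] at hi'
      obtain ⟨a1, a2, a3⟩ := harith _ _ h4
      obtain ⟨b1, b2, b3, b4, -⟩ := pair_arith hg a1 a2 (hidx ω.2 i' h3 hi')
      refine ⟨filter_subset _ _, ?_⟩
      rw [Nat.add_sub_cancel_left, b4]
      refine le_trans ?_ (hgood ω.1.1 h1 ω.1.2 h2 h4 _ (hidx ω.2 i' h3 hi'))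
      have h5 := hcardP _ _ (hPA _ b1)
      calc 1 / (8 * κ) * (#(P (s + ia (q ω.1.1 ω.1.2) g (ω.2 * n₁ + i'))) : ℝ) ≤ 1 / (8 * κ) * (8 * υ) := by gcongr
        _ = υ / κ := by field_simp)
    (by
      have hx0 : 0 ≤ 1 - (1 / (8 * κ) - δ) := by
        have : 1 / (8 * κ) ≤ 1 := by rw [div_le_one (by positivity)]; linarith
        linarith
      have hx1 : 1 - (1 / (8 * κ) - δ) ≤ 1 - 1 / (16 * κ) := by
        have : 1 / (8 * κ) = 1 / (16 * κ) + 1 / (16 * κ) := by field_simp; ring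
        linarith
      have h1 : ∀ ω ∈ ΩA, (1 - (1 / (8 * κ) - δ)) ^
          #((range n₁).image fun i' => s + ia (q ω.1.1 ω.1.2) g (ω.2 * n₁ + i')) ≤ (1 - 1 / (16 * κ)) ^ n₁ := by
        intro ω hω
        obtain ⟨h1, h2, h3, h4⟩ := hΩmem ω hω
        obtain ⟨a1, a2, a3⟩ := harith _ _ h4
        rw [card_image_of_injOn, card_range]
        · gcongr
        · intro i hi i' hi' he
          rw [mem_coe, mem_range] at hi hi'
          simp only at he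
          have := ia_inj hg a1 (hidx ω.2 i h3 hi) (hidx ω.2 i' h3 hi') (by omega)
          omega
      refine lt_of_le_of_lt (sum_le_sum h1) ?_
      rw [sum_const, nsmul_eq_mul]
      refine lt_of_le_of_lt ?_ hn₁
      have h3 : 0 ≤ (1 - 1 / (16 * κ)) ^ n₁ := pow_nonneg (by linarith) _
      gcongr)
  rw [← hsB] at hτ₁
  -- useful indices
  obtain ⟨Us, hUs⟩ : ∃ Us : ℕ → ℕ → Finset ℕ, ∀ y z, Us y z = (range n').filter fun i =>
    1 / (8 * κ) * (#(Fg y z) : ℝ) ≤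
      #((Fg y z).filter fun v => RR P sB (ib (q y z) g i) z v (τ₁ (s + ia (q y z) g i + 1))) := ⟨_, fun _ _ => rfl⟩
  have hUsc : ∀ y ∈ Y, ∀ z, z ≤ X → Vd υ g PA PB Na n' S F j₀ y z → n₂ ≤ #(Us y z) := by
    intro y hy z hzX hz
    obtain ⟨a1, a2, a3⟩ := harith y z hz
    have h1 : range n₂ ⊆ (Us y z).image fun i => i / n₁ := by
      intro c hc
      rw [mem_range] at hc
      obtain ⟨k, hk, hk'⟩ := hgA ((y, z), c) (by
        rw [hΩA, mem_filter, mem_product, mem_product, mem_range, mem_range]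
        exact ⟨⟨⟨hy, Nat.lt_succ_of_le hzX⟩, hc⟩, hz⟩)
      obtain ⟨i', hi', rfl⟩ := mem_image.mp hk
      rw [mem_range] at hi'
      obtain ⟨b1, b2, b3, b4, -⟩ := pair_arith hg a1 a2 (hidx c i' hc hi')
      rw [mem_filter, Nat.add_sub_cancel_left, b4] at hk'
      rw [mem_image]
      refine ⟨c * n₁ + i', ?_, ?_⟩
      · rw [hUs, mem_filter, mem_range]
        exact ⟨hidx c i' hc hi', hk'.2⟩
      · rw [Nat.mul_comm, Nat.mul_add_div (by omega), Nat.div_eq_of_lt hi', Nat.add_zero]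
    have h2 := card_le_card h1
    rw [card_range] at h2
    exact h2.trans card_image_le
  -- stage B
  obtain ⟨ΩB, hΩB⟩ : ∃ ΩB : Finset (ℕ × ℕ), ΩB = (Y ×ˢ range (X + 1)).filter
    fun ω => Vd υ g PA PB Na n' S F j₀ ω.1 ω.2 := ⟨_, rfl⟩
  have hΩBmem : ∀ ω ∈ ΩB, ω.1 ∈ Y ∧ ω.2 ≤ X ∧ Vd υ g PA PB Na n' S F j₀ ω.1 ω.2 := by
    intro ω hω
    rw [hΩB, mem_filter, mem_product, mem_range] at hω
    exact ⟨hω.1.1, by omega, hω.2⟩
  have hΩB_card : (#ΩB : ℝ) ≤ (#Y : ℝ) * (X + 1) := by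
    have h1 : #ΩB ≤ #(Y ×ˢ range (X + 1)) := by rw [hΩB]; exact card_filter_le _ _
    rw [card_product, card_range] at h1
    exact_mod_cast h1
  have hπ0 : 0 ≤ πB := by linarith
  obtain ⟨τ₂, hτ₂, hgB⟩ := greedy (P := P) (Ok := Ok) (Adm := Adm) (ι := ℕ × ℕ) δ πB (by
      have : 1 / (16 * κ) ≤ 1 / 16 := by
        apply one_div_le_one_div_of_le <;> linarith
      linarith) (by linarith) hwin.ok Nb sB (τ₁ sB) hτ₁.2.2
    (fun i h1 h2 => hwin.ne i (by omega) h2) (fun i h1 h2 => hwin.adm i (by omega) h2)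
    ΩB (fun ω => (Us ω.1 ω.2).image fun i => sB + ib (q ω.1 ω.2) g i)
    (fun ω k => (P k).filter fun t' => ∃ v ∈ Fg ω.1 ω.2, ∃ t ∈ tset τ₁ s sB, PP (v + t) ∧ v + t + t' = ω.2)
    (by
      intro ω hω k hk
      obtain ⟨h1, h2, h3⟩ := hΩBmem ω hω
      obtain ⟨i, hi, rfl⟩ := mem_image.mp hk
      rw [hUs, mem_filter, mem_range] at hi
      obtain ⟨a1, a2, a3⟩ := harith _ _ h3
      have := (pair_arith hg a1 a2 hi.1).2.1
      rw [← hNb] at this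
      omega)
    (by
      intro ω hω k hk
      obtain ⟨h1, h2, h3⟩ := hΩBmem ω hω
      obtain ⟨i, hi, rfl⟩ := mem_image.mp hk
      rw [hUs, mem_filter, mem_range] at hi
      obtain ⟨hi1, hi2⟩ := hi
      obtain ⟨a1, a2, a3⟩ := harith _ _ h3
      obtain ⟨b1, b2, b3, b4, -⟩ := pair_arith hg a1 a2 hi1
      rw [← hNb] at b2
      refine ⟨filter_subset _ _, ?_⟩
      have h5 := hcardP _ _ (hPB _ b2)
      have h6 := hFgc ω.1 h1 ω.2 h3
      have h7 : h / (16 * κ) ≤ 1 / (8 * κ) * (#(Fg ω.1 ω.2) : ℝ) := by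
        calc h / (16 * κ) = 1 / (8 * κ) * (h / 2) := by field_simp; ring
          _ ≤ _ := by gcongr
      obtain ⟨t, ht⟩ : ∃ t, t = τ₁ (s + ia (q ω.1 ω.2) g i + 1) := ⟨_, rfl⟩
      rw [← ht] at hi2
      have htT : t ∈ tset τ₁ s sB := by
        rw [mem_tset]
        exact ⟨s + ia (q ω.1 ω.2) g i, by omega, by omega, ht.symm⟩
      have h8 : #((Fg ω.1 ω.2).filter fun v => RR P sB (ib (q ω.1 ω.2) g i) ω.2 v t) ≤
          #((P (sB + ib (q ω.1 ω.2) g i)).filter fun t' => ∃ v ∈ Fg ω.1 ω.2, ∃ t ∈ tset τ₁ s sB,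
            PP (v + t) ∧ v + t + t' = ω.2) := by
        refine card_le_card_of_injOn (fun v => ω.2 - (v + t)) ?_ ?_
        · intro v hv
          obtain ⟨e1, e2, e3, e4⟩ := mem_filter.mp (mem_coe.mp hv)
          rw [mem_coe, mem_filter]
          exact ⟨e3, v, e1, t, htT, e2, by simp only; omega⟩
        · intro v hv v' hv' he
          obtain ⟨e1, e2, e3, e4⟩ := mem_filter.mp (mem_coe.mp hv)
          obtain ⟨f1, f2, f3, f4⟩ := mem_filter.mp (mem_coe.mp hv')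
          simp only at he
          omega
      have h8r : (#((Fg ω.1 ω.2).filter fun v => RR P sB (ib (q ω.1 ω.2) g i) ω.2 v t) : ℝ) ≤
          #((P (sB + ib (q ω.1 ω.2) g i)).filter fun t' => ∃ v ∈ Fg ω.1 ω.2, ∃ t ∈ tset τ₁ s sB,
            PP (v + t) ∧ v + t + t' = ω.2) := by exact_mod_cast h8
      have h9 : πB * (#(P (sB + ib (q ω.1 ω.2) g i)) : ℝ) ≤ πB * (8 * υ) := by gcongr
      linarith)
    (by
      have hx0 : 0 ≤ 1 - (πB - δ) := by linarith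
      have hx1 : 1 - (πB - δ) ≤ 1 - πB / 2 := by linarith
      have h1 : ∀ ω ∈ ΩB, (1 - (πB - δ)) ^ #((Us ω.1 ω.2).image fun i => sB + ib (q ω.1 ω.2) g i) ≤
          (1 - πB / 2) ^ n₂ := by
        intro ω hω
        obtain ⟨h1, h2, h3⟩ := hΩBmem ω hω
        rw [card_image_of_injOn]
        · calc (1 - (πB - δ)) ^ #(Us ω.1 ω.2) ≤ (1 - (πB - δ)) ^ n₂ :=
                pow_le_pow_of_le_one hx0 (by linarith) (hUsc _ h1 _ h2 h3)
            _ ≤ (1 - πB / 2) ^ n₂ := by gcongr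
        · intro i hi i' hi' he
          simp only at he
          exact ib_inj (q' := q ω.1 ω.2) hg (by omega)
      refine lt_of_le_of_lt (sum_le_sum h1) ?_
      rw [sum_const, nsmul_eq_mul]
      refine lt_of_le_of_lt ?_ hn₂
      have h3 : 0 ≤ (1 - πB / 2) ^ n₂ := pow_nonneg (by linarith) _
      gcongr)
  have hssB : s ≤ sB := by omega
  obtain ⟨τ, hτ, hl, hr'⟩ := Sel.glue hssB (Nat.le_add_right sB Nb) hτ₁ hτ₂
  have hT1 : tset τ s sB = tset τ₁ s sB := tset_congr fun i _ h2 => hl i h2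
  refine ⟨τ, hτ, fun y hy z hzX hz => ?_⟩
  obtain ⟨k, hk, hk'⟩ := hgB (y, z) (by
    rw [hΩB, mem_filter, mem_product, mem_range]
    exact ⟨⟨hy, Nat.lt_succ_of_le hzX⟩, hz⟩)
  obtain ⟨i, hi, rfl⟩ := mem_image.mp hk
  simp only at hi hk'
  rw [hUs, mem_filter, mem_range] at hi
  obtain ⟨a1, a2, a3⟩ := harith y z hz
  obtain ⟨b1, b2, b3, b4, -⟩ := pair_arith hg a1 a2 hi.1
  rw [← hNb] at b2
  rw [mem_filter] at hk'
  obtain ⟨-, v, hv, t, ht, hp, hsum⟩ := hk'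
  rw [hFg, mem_filter] at hv
  obtain ⟨-, -, -, -, -, c6⟩ := hF y hy v hv.1
  have hr1 : Reach (T ∪ tset τ s (sB + Nb)) y v := c6.mono subset_union_left
  have hr2 : Reach (T ∪ tset τ s (sB + Nb)) y (v + t) := by
    refine hr1.step ?_ hp
    refine mem_union_right _ ?_
    rw [← hT1] at ht
    exact tset_mono le_rfl (Nat.le_add_right _ _) ht
  rw [← hsum] at hz ⊢
  refine hr2.step ?_ hz.1
  refine mem_union_right _ ?_
  rw [mem_tset]
  exact ⟨sB + ib (q y z) g i, by omega, by omega, hr' _ (by omega)⟩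

end Pool.Agent.H550U.W
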