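import Mathlib

/-!
# Greedy selection from a sequence of windows
-/

namespace Pool.Agent.H550U.W

open Finset

/-- a selection of elements `τ (i + 1) ∈ P i`, `s ≤ i < e`, starting from `τ s = r`, with admissible transitions -/
def Sel (P : ℕ → Finset ℕ) (Ok : ℕ → ℕ → Prop) (Adm : ℕ → ℕ → ℕ → Prop) (s e r : ℕ) (τ : ℕ → ℕ) : Prop :=
  τ s = r ∧ (∀ i, s ≤ i → i < e → τ (i + 1) ∈ P i ∧ Adm i (τ i) (τ (i + 1))) ∧ Ok e (τ e)

variable {P : ℕ → Finset ℕ} {Ok : ℕ → ℕ → Prop} {Adm : ℕ → ℕ → ℕ → Prop}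

lemma Sel.glue {s m e r : ℕ} {τ₁ τ₂ : ℕ → ℕ} (hsm : s ≤ m) (hme : m ≤ e) (h1 : Sel P Ok Adm s m r τ₁)
    (h2 : Sel P Ok Adm m e (τ₁ m) τ₂) :
    ∃ τ, Sel P Ok Adm s e r τ ∧ (∀ i, i ≤ m → τ i = τ₁ i) ∧ ∀ i, m ≤ i → τ i = τ₂ i := by
  obtain ⟨a1, a2, a3⟩ := h1
  obtain ⟨b1, b2, b3⟩ := h2
  have h3 : ∀ i, m ≤ i → (if i ≤ m then τ₁ i else τ₂ i) = τ₂ i := by
    intro i hi
    split_ifs with h
    · have : i = m := by omega
      rw [this, b1]
    · rfl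
  have h4 : ∀ i, i ≤ m → (if i ≤ m then τ₁ i else τ₂ i) = τ₁ i := fun i hi => if_pos hi
  obtain ⟨τ, hτ⟩ : ∃ τ : ℕ → ℕ, τ = fun i => if i ≤ m then τ₁ i else τ₂ i := ⟨_, rfl⟩
  have h3' : ∀ i, m ≤ i → τ i = τ₂ i := by rw [hτ]; exact h3
  have h4' : ∀ i, i ≤ m → τ i = τ₁ i := by rw [hτ]; exact h4
  refine ⟨τ, ⟨?_, ?_, ?_⟩, h4', h3'⟩
  · rw [h4' s hsm, a1]
  · intro i hi hi'
    rcases Nat.lt_or_ge i m with h | h
    · rw [h4' i h.le, h4' (i + 1) h]
      exact a2 i hi h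
    · rw [h3' i h, h3' (i + 1) (by omega)]
      exact b2 i h hi'
  · rw [h3' e hme]; exact b3

/-- the greedy choice -/
theorem greedy {ι : Type*} (δ π : ℝ) (hδ1 : δ < 1) (hδπ : δ ≤ π)
    (hOk : ∀ i r t, Ok i r → t ∈ P i → Adm i r t → Ok (i + 1) t) :
    ∀ (n s r : ℕ), Ok s r →
    (∀ i, s ≤ i → i < s + n → 0 < #(P i)) →
    (∀ i, s ≤ i → i < s + n → ∀ r, Ok i r → ∀ Q : Finset ℕ, (∀ t, t ∈ Q ↔ t ∈ P i ∧ Adm i r t) →
      (#(P i) : ℝ) ≤ #Q + δ * #(P i)) →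
    ∀ (Ω : Finset ι) (A : ι → Finset ℕ) (G : ι → ℕ → Finset ℕ),
    (∀ ω ∈ Ω, ∀ i ∈ A ω, s ≤ i ∧ i < s + n) →
    (∀ ω ∈ Ω, ∀ i ∈ A ω, G ω i ⊆ P i ∧ π * #(P i) ≤ #(G ω i)) →
    ∑ ω ∈ Ω, (1 - (π - δ)) ^ #(A ω) < 1 →
    ∃ τ : ℕ → ℕ, Sel P Ok Adm s (s + n) r τ ∧ ∀ ω ∈ Ω, ∃ i ∈ A ω, τ (i + 1) ∈ G ω i := by
  classical
  intro n
  induction n with
  | zero =>
    intro s r hr _ _ Ω A G hA _ hsum
    refine ⟨fun _ => r, ⟨rfl, fun i h1 h2 => by omega, by simpa using hr⟩, ?_⟩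
    intro ω hω
    exfalso
    have h1 : ∀ ω ∈ Ω, (1 - (π - δ)) ^ #(A ω) = 1 := by
      intro ω hω
      have : A ω = ∅ := by
        rw [eq_empty_iff_forall_notMem]
        intro i hi
        have := hA ω hω i hi
        omega
      rw [this, card_empty, pow_zero]
    rw [sum_congr rfl h1, sum_const, nsmul_eq_mul, mul_one] at hsum
    have h2 : 1 ≤ #Ω := card_pos.mpr ⟨ω, hω⟩
    have : (1 : ℝ) ≤ #Ω := by exact_mod_cast h2
    linarith
  | succ n ih =>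
    intro s r hr hne hAdm Ω A G hA hG hsum
    obtain ⟨Q, hQ⟩ : ∃ Q, Q = (P s).filter fun t => Adm s r t := ⟨_, rfl⟩
    have hQmem : ∀ t, t ∈ Q ↔ t ∈ P s ∧ Adm s r t := fun t => by rw [hQ, mem_filter]
    have hQc := hAdm s le_rfl (by omega) r hr Q hQmem
    have hP0 : (0 : ℝ) < #(P s) := by exact_mod_cast hne s le_rfl (by omega)
    have hQ0 : (0 : ℝ) < #Q := by nlinarith
    have hQP : (#Q : ℝ) ≤ #(P s) := by
      have : Q ⊆ P s := by rw [hQ]; exact filter_subset _ _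
      exact_mod_cast card_le_card this
    obtain ⟨x, hx⟩ : ∃ x : ℝ, x = 1 - (π - δ) := ⟨_, rfl⟩
    rw [← hx] at hsum
    -- is `x ≥ 0`?
    have hexist : ∃ t ∈ Q, ∑ ω ∈ Ω.filter (fun ω => ¬ (s ∈ A ω ∧ t ∈ G ω s)), x ^ #((A ω).erase s) < 1 := by
      by_contra hcon'
      have hcon : ∀ t ∈ Q, 1 ≤ ∑ ω ∈ Ω.filter (fun ω => ¬ (s ∈ A ω ∧ t ∈ G ω s)), x ^ #((A ω).erase s) :=
        fun t ht => by
          by_contra h
          exact hcon' ⟨t, ht, lt_of_not_ge h⟩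
      have h1 : (#Q : ℝ) ≤ ∑ t ∈ Q, ∑ ω ∈ Ω.filter (fun ω => ¬ (s ∈ A ω ∧ t ∈ G ω s)), x ^ #((A ω).erase s) := by
        have := sum_le_sum hcon
        rw [sum_const, nsmul_eq_mul, mul_one] at this
        exact this
      have h2 : ∑ t ∈ Q, ∑ ω ∈ Ω.filter (fun ω => ¬ (s ∈ A ω ∧ t ∈ G ω s)), x ^ #((A ω).erase s) ≤
          ∑ ω ∈ Ω, #Q * x ^ #(A ω) := by
        have e1 : ∀ t ∈ Q, ∑ ω ∈ Ω.filter (fun ω => ¬ (s ∈ A ω ∧ t ∈ G ω s)), x ^ #((A ω).erase s) =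
            ∑ ω ∈ Ω, if ¬ (s ∈ A ω ∧ t ∈ G ω s) then x ^ #((A ω).erase s) else 0 := fun t _ => by
          rw [sum_filter]
        rw [sum_congr rfl e1, sum_comm]
        refine sum_le_sum fun ω hω => ?_
        rw [← sum_filter, sum_const, nsmul_eq_mul]
        by_cases hs : s ∈ A ω
        · obtain ⟨g1, g2⟩ := hG ω hω s hs
          have e2 : Q.filter (fun t => ¬ (s ∈ A ω ∧ t ∈ G ω s)) = Q \ G ω s := by
            ext t
            rw [mem_filter, mem_sdiff]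
            simp [hs]
          have e3 : (#(Q \ G ω s) : ℝ) ≤ x * #Q := by
            have f1 : #(Q \ G ω s) + #(Q ∩ G ω s) = #Q := by
              rw [add_comm]; exact card_inter_add_card_sdiff Q (G ω s)
            have f2 : #(G ω s) ≤ #(Q ∩ G ω s) + #(P s \ Q) := by
              have : G ω s ⊆ (Q ∩ G ω s) ∪ (P s \ Q) := by
                intro t ht
                rw [mem_union, mem_inter, mem_sdiff]
                by_cases htQ : t ∈ Q
                · left; exact ⟨htQ, ht⟩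
                · right; exact ⟨g1 ht, htQ⟩
              exact (card_le_card this).trans (card_union_le _ _)
            have f3 : #(P s \ Q) + #Q = #(P s) := by
              have : Q ⊆ P s := by rw [hQ]; exact filter_subset _ _
              exact card_sdiff_add_card_eq_card this
            have f1' : (#(Q \ G ω s) : ℝ) + #(Q ∩ G ω s) = #Q := by exact_mod_cast f1
            have f2' : (#(G ω s) : ℝ) ≤ #(Q ∩ G ω s) + #(P s \ Q) := by exact_mod_cast f2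
            have f3' : (#(P s \ Q) : ℝ) + #Q = #(P s) := by exact_mod_cast f3
            rw [hx]
            nlinarith
          rw [e2]
          have e4 : x ^ #(A ω) = x ^ #((A ω).erase s) * x := by
            rw [← card_erase_add_one hs, pow_succ]
          have hx0 : 0 ≤ x := by
            have : (0 : ℝ) ≤ #(Q \ G ω s) := Nat.cast_nonneg _
            nlinarith
          rw [e4]
          calc (#(Q \ G ω s) : ℝ) * x ^ #((A ω).erase s) ≤ (x * #Q) * x ^ #((A ω).erase s) := by gcongr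
            _ = _ := by ring
        · have e2 : Q.filter (fun t => ¬ (s ∈ A ω ∧ t ∈ G ω s)) = Q := by
            rw [filter_true_of_mem]
            intro t _ h
            exact hs h.1
          rw [e2, erase_eq_of_notMem hs]
      rw [← mul_sum] at h2
      nlinarith
    obtain ⟨t, htQ, ht⟩ := hexist
    obtain ⟨htP, htA⟩ := (hQmem t).mp htQ
    rw [hx] at ht
    obtain ⟨τ', ⟨c1, c2, c3⟩, c4⟩ := ih (s + 1) t (hOk s r t hr htP htA) (fun i h1 h2 => hne i (by omega) (by omega))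
      (fun i h1 h2 => hAdm i (by omega) (by omega))
      (Ω.filter (fun ω => ¬ (s ∈ A ω ∧ t ∈ G ω s))) (fun ω => (A ω).erase s) G
      (fun ω hω i hi => by
        obtain ⟨h1, h2⟩ := mem_erase.mp hi
        have := hA ω (mem_filter.mp hω).1 i h2
        omega)
      (fun ω hω i hi => hG ω (mem_filter.mp hω).1 i (mem_erase.mp hi).2) ht
    obtain ⟨τ, hτ1, hτ2⟩ : ∃ τ : ℕ → ℕ, τ s = r ∧ ∀ i, s + 1 ≤ i → τ i = τ' i :=
      ⟨fun i => if i ≤ s then r else τ' i, if_pos le_rfl, fun i hi => if_neg (by omega)⟩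
    refine ⟨τ, ⟨hτ1, ?_, ?_⟩, ?_⟩
    · intro i h1 h2
      rcases Nat.eq_or_lt_of_le h1 with rfl | h3
      · rw [hτ1, hτ2 (s + 1) le_rfl, c1]
        exact ⟨htP, htA⟩
      · rw [hτ2 i h3, hτ2 (i + 1) (by omega)]
        exact c2 i h3 (by omega)
    · rw [hτ2 _ (by omega), show s + (n + 1) = s + 1 + n by ring]
      exact c3
    · intro ω hω
      by_cases h : s ∈ A ω ∧ t ∈ G ω s
      · refine ⟨s, h.1, ?_⟩
        rw [hτ2 (s + 1) le_rfl, c1]
        exact h.2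
      · obtain ⟨i, hi, hi'⟩ := c4 ω (mem_filter.mpr ⟨hω, h⟩)
        obtain ⟨h1, h2⟩ := mem_erase.mp hi
        have h3 := hA ω hω i h2
        refine ⟨i, h2, ?_⟩
        rw [hτ2 (i + 1) (by omega)]
        exact hi'

end Pool.Agent.H550U.W
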