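import Pool.Agent.H550U.W.Level

/-!
# Growth from one element
-/

namespace Pool.Agent.H550U.W

open Finset

/-- `z` is reached from `y` through elements of `PP` with steps in `T` -/
def Reach (T : Finset ℕ) : ℕ → ℕ → Prop := Relation.ReflTransGen fun a b => PP b ∧ ∃ t ∈ T, b = a + t

lemma Reach.mono {T T' : Finset ℕ} (h : T ⊆ T') {y z : ℕ} (hr : Reach T y z) : Reach T' y z := by
  unfold Reach at hr ⊢
  induction hr with
  | refl => exact Relation.ReflTransGen.refl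
  | tail _ hab ih =>
    obtain ⟨h1, t, ht, h2⟩ := hab
    exact Relation.ReflTransGen.tail ih ⟨h1, t, h ht, h2⟩

lemma Reach.step {T : Finset ℕ} {y v t : ℕ} (hr : Reach T y v) (ht : t ∈ T) (hp : PP (v + t)) : Reach T y (v + t) :=
  Relation.ReflTransGen.tail hr ⟨hp, t, ht, rfl⟩

variable {P : ℕ → Finset ℕ} {Ok : ℕ → ℕ → Prop} {Adm : ℕ → ℕ → ℕ → Prop}

theorem growth (δ w κ : ℝ) (hκ : 1 ≤ κ) (hδ0 : 0 ≤ δ) (hδ : δ ≤ 1 / (8 * κ)) (E : Finset ℕ) (hE : (#E : ℝ) ≤ w / (4 * κ))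
    (Y : Finset ℕ) (n₀ b₀ : ℕ) (hn₀ : (#Y : ℝ) * (1 - 1 / (8 * κ)) ^ n₀ < 1) (hb₀ : 8 * κ ≤ b₀)
    (M R Xh : ℕ) (hY : ∀ y ∈ Y, PP y ∧ y ∉ E) (s r : ℕ) (hr : Ok s r) :
    ∀ k : ℕ, (∀ y ∈ Y, y + k * (M + R) ≤ Xh) → Win P Ok Adm δ s (s + k * (b₀ * n₀)) →
    (∀ i, s ≤ i → i < s + k * (b₀ * n₀) → (#(P i) : ℝ) ≤ w ∧ ∀ t ∈ P i, M ≤ t ∧ t ≤ M + R) →
    (∀ i, s ≤ i → i < s + k * (b₀ * n₀) → ∀ v, PP v → v ∉ E → v ≤ Xh → ∀ Q : Finset ℕ,
      (∀ t, t ∈ Q ↔ t ∈ P i ∧ PP (v + t)) → w / κ ≤ #Q) →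
    ∃ τ : ℕ → ℕ, Sel P Ok Adm s (s + k * (b₀ * n₀)) r τ ∧ ∃ V : ℕ → Finset ℕ, ∀ y ∈ Y,
      (∀ v ∈ V y, PP v ∧ v ∉ E ∧ Reach (tset τ s (s + k * (b₀ * n₀))) y v ∧ y + k * M ≤ v ∧ v ≤ y + k * (M + R)) ∧
      min (w / (4 * κ)) (2 ^ k) ≤ #(V y) := by
  classical
  intro k
  induction k with
  | zero =>
    intro _ _ _ _
    refine ⟨fun _ => r, ⟨rfl, fun i h1 h2 => by omega, by simpa using hr⟩, fun y => {y}, fun y hy => ⟨?_, ?_⟩⟩
    · intro v hv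
      rw [mem_singleton] at hv
      subst hv
      exact ⟨(hY v hy).1, (hY v hy).2, Relation.ReflTransGen.refl, by omega, by omega⟩
    · refine (min_le_right _ _).trans ?_
      simp
  | succ k ih =>
    intro hX hwin hP hdeg
    have hmul : (k + 1) * (b₀ * n₀) = k * (b₀ * n₀) + b₀ * n₀ := by ring
    have hmul2 : ∀ y, y + (k + 1) * (M + R) = y + k * (M + R) + (M + R) := fun y => by ring
    obtain ⟨τ₁, hτ₁, V, hV⟩ := ih (fun y hy => by have := hX y hy; rw [hmul2] at this; omega)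
      (hwin.sub le_rfl (by rw [hmul]; omega))
      (fun i h1 h2 => hP i h1 (by rw [hmul]; omega)) (fun i h1 h2 => hdeg i h1 (by rw [hmul]; omega))
    obtain ⟨m, hm⟩ : ∃ m, m = s + k * (b₀ * n₀) := ⟨_, rfl⟩
    rw [← hm] at hτ₁ hV
    have he : s + (k + 1) * (b₀ * n₀) = m + b₀ * n₀ := by rw [hmul, hm]; ring
    rw [he] at hwin hP hdeg ⊢
    have hsm : s ≤ m := by omega
    obtain ⟨τ₂, hτ₂, hg₂⟩ := level (P := P) (Ok := Ok) (Adm := Adm) δ w κ hκ hδ0 hδ E hE Y V n₀ hn₀ b₀ m (τ₁ m)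
      hτ₁.2.2 (hwin.sub hsm le_rfl) (fun i h1 h2 => (hP i (by omega) h2).1)
      (fun i h1 h2 y hy v hv Q hQ => by
        obtain ⟨a1, a2, -, -, a5⟩ := (hV y hy).1 v hv
        exact hdeg i (by omega) h2 v a1 a2 (by have := hX y hy; rw [hmul2] at this; omega) Q hQ)
    obtain ⟨τ, hτ, hl, hr'⟩ := Sel.glue hsm (Nat.le_add_right m (b₀ * n₀)) hτ₁ hτ₂
    have hT1 : tset τ s m = tset τ₁ s m := tset_congr fun i _ h2 => hl i h2
    have hT2 : tset τ m (m + b₀ * n₀) = tset τ₂ m (m + b₀ * n₀) := tset_congr fun i h1 _ => hr' i h1.le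
    refine ⟨τ, hτ, fun y => nxt E (tset τ₂ m (m + b₀ * n₀)) (V y), fun y hy => ⟨?_, ?_⟩⟩
    · intro v' hv'
      rw [mem_nxt] at hv'
      obtain ⟨⟨v, hv, t, ht, rfl⟩, h1, h2⟩ := hv'
      obtain ⟨a1, a2, a3, a4, a5⟩ := (hV y hy).1 v hv
      have ht' := ht
      rw [mem_tset] at ht'
      obtain ⟨i, hi1, hi2, hi3⟩ := ht'
      have hti := (hτ₂.2.1 i hi1 hi2).1
      rw [hi3] at hti
      obtain ⟨-, b2⟩ := hP i (by omega) hi2
      have b3 := b2 t hti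
      refine ⟨h1, h2, ?_, ?_, ?_⟩
      · refine Reach.step ?_ ?_ h1
        · rw [← hT1] at a3
          exact a3.mono (tset_mono le_rfl (Nat.le_add_right _ _))
        · rw [← hT2] at ht
          exact tset_mono hsm le_rfl ht
      · have : (k + 1) * M = k * M + M := by ring
        omega
      · rw [hmul2]; omega
    · refine le_trans ?_ (hg₂ y hy)
      have h1 := (hV y hy).2
      have hw4 : 0 ≤ w / (4 * κ) := le_trans (Nat.cast_nonneg _) hE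
      have hκ0 : 0 < κ := by linarith
      refine le_min (min_le_left _ _) ?_
      have h2 : 2 * (#(V y) : ℝ) ≤ b₀ * (#(V y) / (4 * κ)) := by
        rw [mul_div_assoc', le_div_iff₀ (by positivity)]
        have : (0 : ℝ) ≤ #(V y) := Nat.cast_nonneg _
        nlinarith
      refine le_trans ?_ h2
      rcases min_le_iff.mp h1 with h3 | h3
      · refine (min_le_left _ _).trans ?_
        linarith
      · refine (min_le_right _ _).trans ?_
        rw [pow_succ]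
        linarith

end Pool.Agent.H550U.W
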