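import Pool.Agent.H550U.W.TC
import Pool.Agent.H550U.W.Greedy

/-!
# One level of the growth
-/

namespace Pool.Agent.H550U.W

open Finset

open Classical in
/-- the elements of `PP` outside `E` which are reached from `W` by one step in `T` -/
noncomputable def nxt (E T W : Finset ℕ) : Finset ℕ :=
  ((W ×ˢ T).image fun p => p.1 + p.2).filter fun b => PP b ∧ b ∉ E

lemma mem_nxt {E T W : Finset ℕ} {b : ℕ} : b ∈ nxt E T W ↔ (∃ v ∈ W, ∃ t ∈ T, v + t = b) ∧ PP b ∧ b ∉ E := by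
  classical
  unfold nxt
  rw [mem_filter, mem_image]
  constructor
  · rintro ⟨⟨p, hp, rfl⟩, h⟩
    rw [mem_product] at hp
    exact ⟨⟨p.1, hp.1, p.2, hp.2, rfl⟩, h⟩
  · rintro ⟨⟨v, hv, t, ht, rfl⟩, h⟩
    exact ⟨⟨(v, t), mem_product.mpr ⟨hv, ht⟩, rfl⟩, h⟩

lemma nxt_mono {E T T' W : Finset ℕ} (h : T ⊆ T') : nxt E T W ⊆ nxt E T' W := by
  intro b hb
  rw [mem_nxt] at hb ⊢
  obtain ⟨⟨v, hv, t, ht, rfl⟩, h'⟩ := hb
  exact ⟨⟨v, hv, t, h ht, rfl⟩, h'⟩

/-- the elements selected between `s` and `e` -/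
def tset (τ : ℕ → ℕ) (s e : ℕ) : Finset ℕ := (Ico s e).image fun i => τ (i + 1)

lemma mem_tset {τ : ℕ → ℕ} {s e t : ℕ} : t ∈ tset τ s e ↔ ∃ i, s ≤ i ∧ i < e ∧ τ (i + 1) = t := by
  unfold tset
  rw [mem_image]
  constructor
  · rintro ⟨i, hi, rfl⟩
    rw [mem_Ico] at hi
    exact ⟨i, hi.1, hi.2, rfl⟩
  · rintro ⟨i, h1, h2, rfl⟩
    exact ⟨i, mem_Ico.mpr ⟨h1, h2⟩, rfl⟩

lemma tset_congr {τ τ' : ℕ → ℕ} {s e : ℕ} (h : ∀ i, s < i → i ≤ e → τ i = τ' i) : tset τ s e = tset τ' s e := by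
  ext t
  rw [mem_tset, mem_tset]
  constructor
  · rintro ⟨i, h1, h2, rfl⟩
    exact ⟨i, h1, h2, (h (i + 1) (by omega) (by omega)).symm⟩
  · rintro ⟨i, h1, h2, rfl⟩
    exact ⟨i, h1, h2, h (i + 1) (by omega) (by omega)⟩

lemma tset_mono {τ : ℕ → ℕ} {s s' e e' : ℕ} (h1 : s' ≤ s) (h2 : e ≤ e') : tset τ s e ⊆ tset τ s' e' := by
  intro t ht
  rw [mem_tset] at ht ⊢
  obtain ⟨i, a, b, c⟩ := ht
  exact ⟨i, by omega, by omega, c⟩

open Classical in
/-- many `t` in a window add many new elements -/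
lemma good_count (Q W E U : Finset ℕ) (w κ : ℝ) (hκ : 1 ≤ κ) (hQ : (#Q : ℝ) ≤ w)
    (hdeg : ∀ v ∈ W, w / κ ≤ #(Q.filter fun t => PP (v + t))) (hE : (#E : ℝ) ≤ w / (4 * κ)) (hU : (#U : ℝ) ≤ w / (4 * κ)) :
    1 / (4 * κ) * (#Q : ℝ) ≤ #(Q.filter fun t => (#W : ℝ) / (4 * κ) ≤
      #(W.filter fun v => PP (v + t) ∧ v + t ∉ E ∧ v + t ∉ U)) := by
  have hκ0 : 0 < κ := by linarith
  have hw0 : 0 ≤ w := le_trans (Nat.cast_nonneg _) hQ
  obtain ⟨f, hf⟩ : ∃ f : ℕ → ℕ, f = fun t => #(W.filter fun v => PP (v + t) ∧ v + t ∉ E ∧ v + t ∉ U) := ⟨_, rfl⟩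
  have hft : ∀ t, #(W.filter fun v => PP (v + t) ∧ v + t ∉ E ∧ v + t ∉ U) = f t := fun t => by rw [hf]
  simp only [hft]
  rcases Nat.eq_zero_or_pos (#W) with h0 | hpos
  · have h1 : Q.filter (fun t => (#W : ℝ) / (4 * κ) ≤ f t) = Q := by
      rw [filter_true_of_mem]
      intro t _
      rw [h0]; simp
    rw [h1]
    have h2 : 1 / (4 * κ) ≤ 1 := by rw [div_le_one (by positivity)]; linarith
    calc 1 / (4 * κ) * (#Q : ℝ) ≤ 1 * #Q := by gcongr
      _ = _ := one_mul _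
  have hW0 : (0 : ℝ) < #W := by exact_mod_cast hpos
  -- lower bound for the sum
  have hlow : (#W : ℝ) * (w / (2 * κ)) ≤ ∑ t ∈ Q, (f t : ℝ) := by
    have h1 : ∑ t ∈ Q, (f t : ℝ) = ∑ v ∈ W, (#(Q.filter fun t => PP (v + t) ∧ v + t ∉ E ∧ v + t ∉ U) : ℝ) := by
      have a1 : ∀ t ∈ Q, (f t : ℝ) = ∑ v ∈ W, if PP (v + t) ∧ v + t ∉ E ∧ v + t ∉ U then (1 : ℝ) else 0 := by
        intro t _
        rw [← hft, card_filter]
        push_cast
        rfl
      have a2 : ∀ v ∈ W, (#(Q.filter fun t => PP (v + t) ∧ v + t ∉ E ∧ v + t ∉ U) : ℝ) =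
          ∑ t ∈ Q, if PP (v + t) ∧ v + t ∉ E ∧ v + t ∉ U then (1 : ℝ) else 0 := by
        intro v _
        rw [card_filter]
        push_cast
        rfl
      rw [sum_congr rfl a1, sum_congr rfl a2, sum_comm]
    rw [h1, ← nsmul_eq_mul, ← sum_const]
    refine sum_le_sum fun v hv => ?_
    have hinj : ∀ D : Finset ℕ, #(Q.filter fun t => v + t ∈ D) ≤ #D := by
      intro D
      refine card_le_card_of_injOn (fun t => v + t) ?_ ?_
      · intro t ht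
        exact (mem_filter.mp (mem_coe.mp ht)).2
      · intro t _ t' _ h
        simp only at h
        omega
    have h2 : #(Q.filter fun t => PP (v + t)) ≤ #(Q.filter fun t => PP (v + t) ∧ v + t ∉ E ∧ v + t ∉ U) +
        (#(Q.filter fun t => v + t ∈ E) + #(Q.filter fun t => v + t ∈ U)) := by
      refine le_trans (card_le_card (t := (Q.filter fun t => PP (v + t) ∧ v + t ∉ E ∧ v + t ∉ U) ∪
        ((Q.filter fun t => v + t ∈ E) ∪ (Q.filter fun t => v + t ∈ U))) ?_) ?_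
      · intro t ht
        obtain ⟨h3, h4⟩ := mem_filter.mp ht
        rw [mem_union, mem_union, mem_filter, mem_filter, mem_filter]
        by_cases h5 : v + t ∈ E
        · right; left; exact ⟨h3, h5⟩
        · by_cases h6 : v + t ∈ U
          · right; right; exact ⟨h3, h6⟩
          · left; exact ⟨h3, h4, h5, h6⟩
      · refine (card_union_le _ _).trans ?_
        exact Nat.add_le_add_left (card_union_le _ _) _
    have h3 := hinj E
    have h4 := hinj U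
    have h5 : (#(Q.filter fun t => PP (v + t)) : ℝ) ≤ #(Q.filter fun t => PP (v + t) ∧ v + t ∉ E ∧ v + t ∉ U) +
        (#E + #U) := by
      exact_mod_cast h2.trans (by omega)
    have h6 := hdeg v hv
    have h7 : w / κ = w / (2 * κ) + (w / (4 * κ) + w / (4 * κ)) := by field_simp; ring
    linarith
  -- upper bound
  have hup : ∑ t ∈ Q, (f t : ℝ) ≤ #(Q.filter fun t => (#W : ℝ) / (4 * κ) ≤ f t) * #W + #Q * ((#W : ℝ) / (4 * κ)) := by
    rw [← sum_filter_add_sum_filter_not Q (fun t => (#W : ℝ) / (4 * κ) ≤ f t)]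
    refine add_le_add ?_ ?_
    · rw [← nsmul_eq_mul, ← sum_const]
      refine sum_le_sum fun t _ => ?_
      have : f t ≤ #W := by rw [← hft]; exact card_filter_le _ _
      exact_mod_cast this
    · calc _ ≤ ∑ t ∈ Q.filter (fun t => ¬ (#W : ℝ) / (4 * κ) ≤ f t), (#W : ℝ) / (4 * κ) :=
            sum_le_sum fun t ht => (lt_of_not_ge (mem_filter.mp ht).2).le
        _ = #(Q.filter (fun t => ¬ (#W : ℝ) / (4 * κ) ≤ f t)) * ((#W : ℝ) / (4 * κ)) := by
            rw [sum_const, nsmul_eq_mul]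
        _ ≤ _ := by
            have : (#(Q.filter (fun t => ¬ (#W : ℝ) / (4 * κ) ≤ f t)) : ℝ) ≤ #Q := by
              exact_mod_cast card_filter_le _ _
            gcongr
  have h8 : (#Q : ℝ) * ((#W : ℝ) / (4 * κ)) ≤ w * ((#W : ℝ) / (4 * κ)) := by gcongr
  have h9 : (#W : ℝ) * (w / (4 * κ)) ≤ #(Q.filter fun t => (#W : ℝ) / (4 * κ) ≤ f t) * #W := by
    have e1 : (#W : ℝ) * (w / (2 * κ)) = #W * (w / (4 * κ)) + w * ((#W : ℝ) / (4 * κ)) := by field_simp; ring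
    linarith
  have h10 : w / (4 * κ) ≤ #(Q.filter fun t => (#W : ℝ) / (4 * κ) ≤ f t) := by
    rw [mul_comm] at h9
    exact le_of_mul_le_mul_right h9 hW0
  calc 1 / (4 * κ) * (#Q : ℝ) ≤ 1 / (4 * κ) * w := by gcongr
    _ = w / (4 * κ) := by ring
    _ ≤ _ := h10

variable {P : ℕ → Finset ℕ} {Ok : ℕ → ℕ → Prop} {Adm : ℕ → ℕ → ℕ → Prop}

/-- the standing assumptions on the windows -/
structure Win (P : ℕ → Finset ℕ) (Ok : ℕ → ℕ → Prop) (Adm : ℕ → ℕ → ℕ → Prop) (δ : ℝ) (a b : ℕ) : Prop where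
  ok : ∀ i r t, Ok i r → t ∈ P i → Adm i r t → Ok (i + 1) t
  ne : ∀ i, a ≤ i → i < b → 0 < #(P i)
  adm : ∀ i, a ≤ i → i < b → ∀ r, Ok i r → ∀ Q : Finset ℕ, (∀ t, t ∈ Q ↔ t ∈ P i ∧ Adm i r t) →
    (#(P i) : ℝ) ≤ #Q + δ * #(P i)

lemma Win.sub {δ : ℝ} {a b a' b' : ℕ} (h : Win P Ok Adm δ a b) (h1 : a ≤ a') (h2 : b' ≤ b) : Win P Ok Adm δ a' b' :=
  ⟨h.ok, fun i h3 h4 => h.ne i (by omega) (by omega), fun i h3 h4 => h.adm i (by omega) (by omega)⟩

/-- one level of the growth -/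
theorem level (δ w κ : ℝ) (hκ : 1 ≤ κ) (hδ0 : 0 ≤ δ) (hδ : δ ≤ 1 / (8 * κ)) (E : Finset ℕ) (hE : (#E : ℝ) ≤ w / (4 * κ))
    (Ω : Finset ℕ) (W : ℕ → Finset ℕ) (n₀ : ℕ) (hn₀ : (#Ω : ℝ) * (1 - 1 / (8 * κ)) ^ n₀ < 1) :
    ∀ (b s r : ℕ), Ok s r → Win P Ok Adm δ s (s + b * n₀) →
    (∀ i, s ≤ i → i < s + b * n₀ → (#(P i) : ℝ) ≤ w) →
    (∀ i, s ≤ i → i < s + b * n₀ → ∀ ω ∈ Ω, ∀ v ∈ W ω, ∀ Q : Finset ℕ, (∀ t, t ∈ Q ↔ t ∈ P i ∧ PP (v + t)) →
      w / κ ≤ #Q) →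
    ∃ τ : ℕ → ℕ, Sel P Ok Adm s (s + b * n₀) r τ ∧
      ∀ ω ∈ Ω, min (w / (4 * κ)) (b * (#(W ω) / (4 * κ))) ≤ #(nxt E (tset τ s (s + b * n₀)) (W ω)) := by
  classical
  intro b
  induction b with
  | zero =>
    intro s r hr _ _ _
    refine ⟨fun _ => r, ⟨rfl, fun i h1 h2 => by omega, by simpa using hr⟩, fun ω _ => ?_⟩
    refine (min_le_right _ _).trans ?_
    simp
  | succ b ih =>
    intro s r hr hwin hPw hdeg
    have hmul : (b + 1) * n₀ = b * n₀ + n₀ := by ring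
    obtain ⟨τ₁, hτ₁, hg₁⟩ := ih s r hr (hwin.sub le_rfl (by rw [hmul]; omega))
      (fun i h1 h2 => hPw i h1 (by rw [hmul]; omega)) (fun i h1 h2 => hdeg i h1 (by rw [hmul]; omega))
    obtain ⟨m, hm⟩ : ∃ m, m = s + b * n₀ := ⟨_, rfl⟩
    rw [← hm] at hτ₁ hg₁
    have he : s + (b + 1) * n₀ = m + n₀ := by rw [hmul, hm]; ring
    rw [he] at hwin hPw hdeg ⊢
    have hsm : s ≤ m := by omega
    obtain ⟨U, hU⟩ : ∃ U : ℕ → Finset ℕ, U = fun ω => nxt E (tset τ₁ s m) (W ω) := ⟨_, rfl⟩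
    have hκ0 : 0 < κ := by linarith
    have hx1 : 1 - (1 / (4 * κ) - δ) ≤ 1 - 1 / (8 * κ) := by
      have : 1 / (4 * κ) = 1 / (8 * κ) + 1 / (8 * κ) := by field_simp; ring
      linarith
    have hx0 : 0 ≤ 1 - (1 / (4 * κ) - δ) := by
      have : 1 / (4 * κ) ≤ 1 := by rw [div_le_one (by positivity)]; linarith
      linarith
    have hw4 : 0 ≤ w / (4 * κ) := le_trans (Nat.cast_nonneg _) hE
    obtain ⟨τ₂, hτ₂, hg₂⟩ := greedy (P := P) (Ok := Ok) (Adm := Adm) (ι := ℕ) δ (1 / (4 * κ)) (by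
        have : 1 / (8 * κ) ≤ 1 / 8 := by
          apply one_div_le_one_div_of_le <;> linarith
        linarith) (by
        have : 1 / (8 * κ) ≤ 1 / (4 * κ) := by
          apply one_div_le_one_div_of_le <;> linarith
        linarith) hwin.ok n₀ m (τ₁ m) hτ₁.2.2
      (fun i h1 h2 => hwin.ne i (by omega) h2) (fun i h1 h2 => hwin.adm i (by omega) h2)
      (Ω.filter fun ω => (#(U ω) : ℝ) ≤ w / (4 * κ)) (fun _ => Ico m (m + n₀))
      (fun ω i => (P i).filter fun t => (#(W ω) : ℝ) / (4 * κ) ≤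
        #((W ω).filter fun v => PP (v + t) ∧ v + t ∉ E ∧ v + t ∉ U ω))
      (fun ω _ i hi => by rwa [mem_Ico] at hi)
      (fun ω hω i hi => by
        rw [mem_Ico] at hi
        obtain ⟨h1, h2⟩ := mem_filter.mp hω
        refine ⟨filter_subset _ _, ?_⟩
        exact good_count (P i) (W ω) E (U ω) w κ hκ (hPw i (by omega) hi.2)
          (fun v hv => hdeg i (by omega) hi.2 ω h1 v hv _ (fun t => by rw [mem_filter])) hE h2)
      (by
        have h1 : ∀ ω ∈ Ω.filter (fun ω => (#(U ω) : ℝ) ≤ w / (4 * κ)),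
            (1 - (1 / (4 * κ) - δ)) ^ #(Ico m (m + n₀)) ≤ (1 - 1 / (8 * κ)) ^ n₀ := by
          intro ω _
          rw [Nat.card_Ico, Nat.add_sub_cancel_left]
          gcongr
        refine lt_of_le_of_lt (sum_le_sum h1) ?_
        rw [sum_const, nsmul_eq_mul]
        refine lt_of_le_of_lt ?_ hn₀
        have h2 : (#(Ω.filter fun ω => (#(U ω) : ℝ) ≤ w / (4 * κ)) : ℝ) ≤ #Ω := by exact_mod_cast card_filter_le _ _
        have h3 : 0 ≤ (1 - 1 / (8 * κ)) ^ n₀ := pow_nonneg (by linarith) _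
        gcongr)
    obtain ⟨τ, hτ, hl, hr'⟩ := Sel.glue hsm (Nat.le_add_right m n₀) hτ₁ hτ₂
    refine ⟨τ, hτ, fun ω hω => ?_⟩
    have hT1 : tset τ s m = tset τ₁ s m := tset_congr fun i _ h2 => hl i h2
    have hsub1 : U ω ⊆ nxt E (tset τ s (m + n₀)) (W ω) := by
      rw [hU]
      simp only
      rw [← hT1]
      exact nxt_mono (tset_mono le_rfl (Nat.le_add_right _ _))
    by_cases hc : (#(U ω) : ℝ) ≤ w / (4 * κ)
    · obtain ⟨i, hi, hgi⟩ := hg₂ ω (mem_filter.mpr ⟨hω, hc⟩)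
      rw [mem_Ico] at hi
      rw [mem_filter, ← hr' (i + 1) (by omega)] at hgi
      obtain ⟨-, hgi⟩ := hgi
      obtain ⟨t, ht⟩ : ∃ t, t = τ (i + 1) := ⟨_, rfl⟩
      rw [← ht] at hgi
      obtain ⟨D, hD⟩ : ∃ D, D = (W ω).filter fun v => PP (v + t) ∧ v + t ∉ E ∧ v + t ∉ U ω := ⟨_, rfl⟩
      rw [← hD] at hgi
      have htT : t ∈ tset τ s (m + n₀) := by
        rw [mem_tset]
        exact ⟨i, by omega, hi.2, ht.symm⟩
      have hsub2 : D.image (fun v => v + t) ⊆ nxt E (tset τ s (m + n₀)) (W ω) := by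
        intro b' hb'
        obtain ⟨v, hv, rfl⟩ := mem_image.mp hb'
        rw [hD, mem_filter] at hv
        rw [mem_nxt]
        exact ⟨⟨v, hv.1, t, htT, rfl⟩, hv.2.1, hv.2.2.1⟩
      have hdisj : Disjoint (U ω) (D.image fun v => v + t) := by
        rw [disjoint_left]
        intro b' hb' hb''
        obtain ⟨v, hv, rfl⟩ := mem_image.mp hb''
        rw [hD, mem_filter] at hv
        exact hv.2.2.2 hb'
      have hcard : #(U ω) + #D ≤ #(nxt E (tset τ s (m + n₀)) (W ω)) := by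
        rw [← card_image_of_injective D (show Function.Injective fun v => v + t from fun a b h => by
          simp only at h; omega), ← card_union_of_disjoint hdisj]
        exact card_le_card (union_subset hsub1 hsub2)
      have hcardr : (#(U ω) : ℝ) + #D ≤ #(nxt E (tset τ s (m + n₀)) (W ω)) := by exact_mod_cast hcard
      have h5 := hg₁ ω hω
      have h6 : nxt E (tset τ₁ s m) (W ω) = U ω := by rw [hU]
      rw [h6] at h5
      push_cast
      have hWn : 0 ≤ (#(W ω) : ℝ) / (4 * κ) := div_nonneg (Nat.cast_nonneg _) (by linarith)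
      rcases min_le_iff.mp h5 with h7 | h7
      · refine (min_le_left _ _).trans ?_
        have : (0 : ℝ) ≤ #D := Nat.cast_nonneg _
        linarith
      · refine (min_le_right _ _).trans ?_
        have : ((b : ℝ) + 1) * (#(W ω) / (4 * κ)) = b * (#(W ω) / (4 * κ)) + #(W ω) / (4 * κ) := by ring
        linarith
    · refine (min_le_left _ _).trans ?_
      have h5 : (#(U ω) : ℝ) ≤ #(nxt E (tset τ s (m + n₀)) (W ω)) := by exact_mod_cast card_le_card hsub1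
      linarith

end Pool.Agent.H550U.W
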