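import Pool.Agent.H550U.W.FinalB

/-!
# Preparations for one scale
-/

namespace Pool.Agent.H550U.W

open Finset

open Classical in
/-- the pigeonhole principle for windows -/
lemma pigeon (V : Finset ℕ) (base υ K : ℕ) (hυ : 1 ≤ υ) (hK : 1 ≤ K) (h : ∀ v ∈ V, base ≤ v ∧ v < base + K * υ) :
    ∃ c, c < K ∧ #V ≤ K * #(V.filter fun v => base + c * υ ≤ v ∧ v < base + c * υ + υ) := by
  by_contra hcon
  push Not at hcon
  have h1 : V ⊆ (range K).biUnion fun c => V.filter fun v => base + c * υ ≤ v ∧ v < base + c * υ + υ := by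
    intro v hv
    obtain ⟨h2, h3⟩ := h v hv
    rw [mem_biUnion]
    have h4 := Nat.div_add_mod (v - base) υ
    have h5 : (v - base) % υ < υ := Nat.mod_lt _ (by omega)
    have h6 : (v - base) / υ < K := by
      rw [Nat.div_lt_iff_lt_mul (by omega)]; omega
    refine ⟨(v - base) / υ, mem_range.mpr h6, ?_⟩
    rw [mem_filter]
    have h7 : υ * ((v - base) / υ) = (v - base) / υ * υ := by ring
    exact ⟨hv, by omega, by omega⟩
  have h2 : #V ≤ ∑ c ∈ range K, #(V.filter fun v => base + c * υ ≤ v ∧ v < base + c * υ + υ) :=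
    (card_le_card h1).trans card_biUnion_le
  have h3 : ∑ c ∈ range K, K * #(V.filter fun v => base + c * υ ≤ v ∧ v < base + c * υ + υ) < ∑ _c ∈ range K, #V :=
    sum_lt_sum_of_nonempty ⟨0, mem_range.mpr (by omega)⟩ fun c hc => hcon c (mem_range.mp hc)
  rw [← mul_sum, sum_const, card_range, smul_eq_mul] at h3
  have h4 := Nat.lt_of_mul_lt_mul_left h3
  omega

open Classical in
/-- few `z` are bad for a given set -/
lemma bad_count (S : Finset (ℕ × ℕ)) (F Z : Finset ℕ) (hZ : ∀ z ∈ Z, (∀ v ∈ F, v ≤ z) ∧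
    #F ≤ 2 * #(F.filter fun v => (v, z - v) ∈ S)) : #Z * #F ≤ 2 * #S := by
  have h1 : ∑ z ∈ Z, #(F.filter fun v => (v, z - v) ∈ S) ≤ #S := by
    have h2 : ∑ z ∈ Z, #(F.filter fun v => (v, z - v) ∈ S) =
        #(Z.sigma fun z => F.filter fun v => (v, z - v) ∈ S) := (card_sigma _ _).symm
    rw [h2]
    refine card_le_card_of_injOn (fun x => (x.2, x.1 - x.2)) ?_ ?_
    · rintro ⟨z, v⟩ hx
      rw [mem_coe, mem_sigma] at hx
      exact (mem_filter.mp hx.2).2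
    · rintro ⟨z, v⟩ hx ⟨z', v'⟩ hx' he
      rw [mem_coe, mem_sigma] at hx hx'
      have a1 := (hZ z hx.1).1 v (mem_filter.mp hx.2).1
      have a2 := (hZ z' hx'.1).1 v' (mem_filter.mp hx'.2).1
      simp only [Prod.mk.injEq] at he a1 a2
      obtain ⟨e1, e2⟩ := he
      subst e1
      have : z = z' := by omega
      subst this
      rfl
  calc #Z * #F = ∑ _z ∈ Z, #F := by rw [sum_const, smul_eq_mul]
    _ ≤ ∑ z ∈ Z, 2 * #(F.filter fun v => (v, z - v) ∈ S) := sum_le_sum fun z hz => (hZ z hz).2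
    _ = 2 * ∑ z ∈ Z, #(F.filter fun v => (v, z - v) ∈ S) := by rw [mul_sum]
    _ ≤ 2 * #S := Nat.mul_le_mul_left _ h1

/-- positions of the windows -/
def wpos (M υ g n0 i : ℕ) : ℕ := M + i * (g * υ) + (i - n0) * υ

open Classical in
/-- the windows -/
noncomputable def wP (M υ g n0 i : ℕ) : Finset ℕ := (Ioc (wpos M υ g n0 i) (wpos M υ g n0 i + 8 * υ)).filter fun t => PP t

open Classical in
lemma mem_wP {M υ g n0 i t : ℕ} : t ∈ wP M υ g n0 i ↔
    (wpos M υ g n0 i < t ∧ t ≤ wpos M υ g n0 i + 8 * υ) ∧ PP t := by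
  unfold wP
  rw [mem_filter, mem_Ioc]

/-- the properties of the set of the exceptional pairs -/
def TCat (X : ℕ) (S : Finset (ℕ × ℕ)) : Prop :=
  (#S : ℝ) ≤ (X : ℝ) ^ 2 / Real.log X ^ 300 ∧
    ∀ y s : ℕ, 1 ≤ y → y ≤ X → s ≤ X → 6 ∣ y → 6 ∣ s → (y, s) ∉ S → ∀ u v : ℕ, v ≤ s →
      (X : ℝ) / Real.log X ^ 115 ≤ u → (X : ℝ) / Real.log X ^ 115 ≤ (v : ℝ) - u → ∀ Q : Finset ℕ,
      (∀ t, t ∈ Q ↔ (u < t ∧ t ≤ v) ∧ PP t ∧ PP (y + t) ∧ PP (s - t)) → ((v : ℝ) - u) / Real.log X ^ 6 ≤ #Q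

open Classical in
/-- the exceptional numbers -/
noncomputable def EE (X : ℕ) (S : Finset (ℕ × ℕ)) : Finset ℕ :=
  (range (X + 1)).filter fun v => ∀ s, X / 2 < s → s ≤ X → 6 ∣ s → (v, s) ∈ S

lemma card_EE {X : ℕ} (hX : 1000 ≤ X) (S : Finset (ℕ × ℕ)) : #(EE X S) * X ≤ 13 * #S := by
  classical
  obtain ⟨B, hB⟩ : ∃ B, B = (Ioc (X / 2) X).filter fun s => 6 ∣ s := ⟨_, rfl⟩
  have h1 : (EE X S) ×ˢ B ⊆ S := by
    rintro ⟨v, s⟩ h
    rw [mem_product] at h
    obtain ⟨h2, h3⟩ := h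
    unfold EE at h2
    rw [mem_filter] at h2
    rw [hB, mem_filter, mem_Ioc] at h3
    exact h2.2 s h3.1.1 h3.1.2 h3.2
  have h2 := card_le_card h1
  rw [card_product] at h2
  have h3 : X ≤ 13 * #B := by
    have h4 : (range (X / 12 - 1)).image (fun j => 6 * (X / 12 + 1 + j)) ⊆ B := by
      intro s hs
      obtain ⟨j, hj, rfl⟩ := mem_image.mp hs
      rw [mem_range] at hj
      rw [hB, mem_filter, mem_Ioc]
      refine ⟨⟨by omega, by omega⟩, Nat.dvd_mul_right 6 _⟩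
    have h5 := card_le_card h4
    rw [card_image_of_injective _ (fun a b h => by have h' : 6 * (X / 12 + 1 + a) = 6 * (X / 12 + 1 + b) := h; omega), card_range] at h5
    omega
  calc #(EE X S) * X ≤ #(EE X S) * (13 * #B) := Nat.mul_le_mul_left _ h3
    _ = 13 * (#(EE X S) * #B) := by ring
    _ ≤ 13 * #S := Nat.mul_le_mul_left _ h2

lemma exp_bound {x : ℝ} (hx1 : x ≤ 1) (n : ℕ) : (1 - x) ^ n ≤ Real.exp (-(n * x)) := by
  have h1 : 1 - x ≤ Real.exp (-x) := Real.one_sub_le_exp_neg x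
  calc (1 - x) ^ n ≤ Real.exp (-x) ^ n := pow_le_pow_left₀ (by linarith) h1 n
    _ = Real.exp (-(n * x)) := by rw [← Real.exp_nat_mul]; congr 1; ring

end Pool.Agent.H550U.W
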