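import Pool.Agent.H550U.W.ScaleA

/-!
# The parameters of a scale
-/

namespace Pool.Agent.H550U.W

open Finset

lemma lp {c a b L : ℕ} (hL : c ≤ L) (h0 : 1 ≤ L) (hab : a < b) : c * L ^ a ≤ L ^ b := by
  calc c * L ^ a ≤ L * L ^ a := Nat.mul_le_mul_right _ hL
    _ = L ^ (a + 1) := by ring
    _ ≤ L ^ b := Nat.pow_le_pow_right h0 hab

/-- the parameters of a scale -/
structure Par (L M υ g X : ℕ) : Prop where
  hL : 1000000 ≤ L
  logM : Real.log M ≤ L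
  logM' : (L : ℝ) ≤ Real.log M + 1
  g1 : 8 ≤ g
  g2 : g ≤ L ^ 2
  u1 : υ * L ^ 52 ≤ M
  u2 : M ≤ υ * L ^ 57
  hX : X = M * L ^ 58

def NG (L : ℕ) : ℕ := 2 * L * (8 * L ^ 7 * L ^ 9)
def NAf (M υ g : ℕ) : ℕ := 2 * M / (g * υ) + 1
def N0 (L M υ g : ℕ) : ℕ := NG L + NAf M υ g
def NN (L M υ g : ℕ) : ℕ := N0 L M υ g + (L ^ 9 * L ^ 37 + 1) * g

variable {L M υ g X : ℕ}

lemma Par.pos (h : Par L M υ g X) : 1 ≤ M ∧ 1 ≤ υ := by
  have hM : 1 ≤ M := by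
    by_contra hcon
    have : M = 0 := by omega
    have h1 := h.logM'
    rw [this] at h1
    simp only [Nat.cast_zero, Real.log_zero, zero_add] at h1
    have h2 : (1000000 : ℝ) ≤ L := by exact_mod_cast h.hL
    linarith
  refine ⟨hM, ?_⟩
  by_contra hcon
  have : υ = 0 := by omega
  have h1 := h.u2
  rw [this, zero_mul] at h1
  omega

lemma log_small {L : ℕ} (hL : 1000000 ≤ L) : 58 * Real.log L ≤ L / 2 := by
  have hL' : (1000000 : ℝ) ≤ L := by exact_mod_cast hL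
  have h1 := Real.log_le_sub_one_of_pos (show (0 : ℝ) < L / 128 by positivity)
  rw [Real.log_div (by positivity) (by norm_num)] at h1
  have h2 : Real.log 128 = 7 * Real.log 2 := by
    rw [show (128 : ℝ) = 2 ^ 7 by norm_num, Real.log_pow]
    norm_num
  have h3 := Real.log_two_lt_d9
  rw [h2] at h1
  linarith

lemma Par.logX (h : Par L M υ g X) : (L : ℝ) ≤ Real.log X ∧ Real.log X ≤ 2 * L := by
  obtain ⟨hM, hυ⟩ := h.pos
  have hL := h.hL
  have hL' : (1000000 : ℝ) ≤ L := by exact_mod_cast hL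
  have hM' : (1 : ℝ) ≤ M := by exact_mod_cast hM
  have h1 : Real.log X = Real.log M + 58 * Real.log L := by
    rw [h.hX]
    push_cast
    rw [Real.log_mul (by positivity) (by positivity), Real.log_pow]
    norm_num
  have h2 := log_small hL
  have h3 : 1 ≤ Real.log L := by
    rw [Real.le_log_iff_exp_le (by linarith)]
    have := Real.exp_one_lt_d9
    linarith
  have h4 := h.logM
  have h5 := h.logM'
  constructor <;> rw [h1] <;> linarith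

lemma Par.XL (h : Par L M υ g X) : (X : ℝ) ≤ υ * L ^ 115 := by
  have h1 : X ≤ υ * L ^ 115 := by
    rw [h.hX]
    calc M * L ^ 58 ≤ υ * L ^ 57 * L ^ 58 := Nat.mul_le_mul_right _ h.u2
      _ = υ * L ^ 115 := by rw [mul_assoc, ← pow_add]
  exact_mod_cast h1

lemma Par.Lpos (h : Par L M υ g X) : (1000000 : ℝ) ≤ L := by exact_mod_cast h.hL

lemma Par.Xlog (h : Par L M υ g X) : (X : ℝ) / Real.log X ^ 115 ≤ υ := by
  obtain ⟨h1, h2⟩ := h.logX
  have h3 := h.Lpos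
  have h4 := h.XL
  have h5 : 0 < Real.log X := by linarith
  rw [div_le_iff₀ (by positivity)]
  refine h4.trans ?_
  gcongr

lemma Par.Xexp (h : Par L M υ g X) : (X : ℝ) ≤ Real.exp (2 * L) := by
  obtain ⟨h1, h2⟩ := h.logX
  obtain ⟨hM, hυ⟩ := h.pos
  have h3 := h.Lpos
  have hX0 : (0 : ℝ) < X := by
    rw [h.hX]
    push_cast
    have : (1 : ℝ) ≤ M := by exact_mod_cast hM
    positivity
  calc (X : ℝ) = Real.exp (Real.log X) := (Real.exp_log hX0).symm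
    _ ≤ _ := Real.exp_le_exp.mpr h2

lemma Par.Xbig (h : Par L M υ g X) : 1000000 ≤ X := by
  obtain ⟨hM, hυ⟩ := h.pos
  rw [h.hX]
  calc 1000000 ≤ L := h.hL
    _ = 1 * L ^ 1 := by ring
    _ ≤ M * L ^ 58 := Nat.mul_le_mul hM (Nat.pow_le_pow_right (by have := h.hL; omega) (by norm_num))

lemma Par.S_le (h : Par L M υ g X) {S : Finset (ℕ × ℕ)} (hS : TCat X S) : (#S : ℝ) ≤ X ^ 2 / L ^ 300 := by
  obtain ⟨h1, h2⟩ := h.logX
  have h3 := h.Lpos
  refine hS.1.trans ?_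
  gcongr

lemma Par.E_le (h : Par L M υ g X) {S : Finset (ℕ × ℕ)} (hS : TCat X S) : (#(EE X S) : ℝ) ≤ υ / L ^ 184 := by
  have h1 := card_EE (X := X) (by have := h.Xbig; omega) S
  have h2 := h.S_le hS
  have h3 := h.Lpos
  have h4 := h.XL
  have hX0 : (0 : ℝ) < X := by
    have := h.Xbig
    exact_mod_cast (by omega : 0 < X)
  have h5 : (#(EE X S) : ℝ) * X ≤ 13 * #S := by exact_mod_cast h1
  have h6 : (#(EE X S) : ℝ) ≤ 13 * (X / L ^ 300) := by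
    have : (#(EE X S) : ℝ) * X ≤ 13 * (X / L ^ 300) * X := by
      calc _ ≤ 13 * (#S : ℝ) := h5
        _ ≤ 13 * (X ^ 2 / L ^ 300) := by gcongr
        _ = _ := by ring
    exact le_of_mul_le_mul_right this hX0
  refine h6.trans ?_
  have h7 : (X : ℝ) / L ^ 300 ≤ υ / L ^ 185 := by
    rw [div_le_div_iff₀ (by positivity) (by positivity)]
    calc (X : ℝ) * (L : ℝ) ^ 185 ≤ (υ : ℝ) * (L : ℝ) ^ 115 * (L : ℝ) ^ 185 := by gcongr
      _ = (υ : ℝ) * (L : ℝ) ^ 300 := by rw [mul_assoc, ← pow_add]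
  have h8 : 13 * ((υ : ℝ) / L ^ 185) ≤ υ / L ^ 184 := by
    rw [mul_div_assoc', div_le_div_iff₀ (by positivity) (by positivity)]
    have h9 : (0 : ℝ) ≤ (υ : ℝ) * (L : ℝ) ^ 184 := mul_nonneg (Nat.cast_nonneg _) (pow_nonneg (Nat.cast_nonneg _) _)
    calc 13 * (υ : ℝ) * (L : ℝ) ^ 184 = (υ : ℝ) * (L : ℝ) ^ 184 * 13 := by rw [mul_assoc, mul_comm]
      _ ≤ (υ : ℝ) * (L : ℝ) ^ 184 * L := mul_le_mul_of_nonneg_left (le_trans (by norm_num) h3) h9
      _ = (υ : ℝ) * (L : ℝ) ^ 185 := by rw [mul_assoc, ← pow_succ]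
  exact (mul_le_mul_of_nonneg_left h7 (by norm_num : (0 : ℝ) ≤ 13)).trans h8

lemma wpos_lt {n0 i : ℕ} (h : i ≤ n0) : wpos M υ g n0 i = M + i * (g * υ) := by
  unfold wpos
  rw [Nat.sub_eq_zero_of_le h, zero_mul, add_zero]

lemma wpos_ge (n0 b : ℕ) : wpos M υ g n0 (n0 + b) = M + n0 * (g * υ) + b * ((g + 1) * υ) := by
  unfold wpos
  rw [Nat.add_sub_cancel_left]
  ring

lemma wpos_mono {n0 i j : ℕ} (h : i ≤ j) : wpos M υ g n0 i ≤ wpos M υ g n0 j := by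
  unfold wpos
  have h1 : i * (g * υ) ≤ j * (g * υ) := Nat.mul_le_mul_right _ h
  have h2 : (i - n0) * υ ≤ (j - n0) * υ := Nat.mul_le_mul_right _ (by omega)
  omega

/-- the small parts -/
lemma Par.small (h : Par L M υ g X) :
    4 * ((2 * L * (NG L * g) + 1) * υ + 2 * (NG L * (g * υ)) + g * υ +
      υ * (g * ((L ^ 9 * L ^ 37 + 1) * (g + 1)) + 3) + 8 * υ) ≤ M := by
  have hL := h.hL
  obtain ⟨G, hG⟩ : ∃ G, G = L ^ 2 := ⟨_, rfl⟩
  have hg := h.g2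
  have h1L : 1 ≤ L := by omega
  have hng : NG L = 16 * L ^ 17 := by unfold NG; ring
  have e1 : NG L * g ≤ 16 * L ^ 19 := by
    rw [hng]
    calc 16 * L ^ 17 * g ≤ 16 * L ^ 17 * L ^ 2 := Nat.mul_le_mul_left _ hg
      _ = 16 * L ^ 19 := by ring
  have e2 : 2 * L * (NG L * g) ≤ 32 * L ^ 20 := by
    calc 2 * L * (NG L * g) ≤ 2 * L * (16 * L ^ 19) := Nat.mul_le_mul_left _ e1
      _ = 32 * L ^ 20 := by ring
  have e3 : g * ((L ^ 9 * L ^ 37 + 1) * (g + 1)) ≤ 4 * L ^ 50 := by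
    have a1 : 1 ≤ L ^ 2 := Nat.one_le_pow _ _ (by omega)
    have a2 : 1 ≤ L ^ 46 := Nat.one_le_pow _ _ (by omega)
    calc g * ((L ^ 9 * L ^ 37 + 1) * (g + 1)) ≤ L ^ 2 * ((L ^ 46 + L ^ 46) * (L ^ 2 + L ^ 2)) := by
          refine Nat.mul_le_mul hg (Nat.mul_le_mul ?_ (Nat.add_le_add hg a1))
          rw [← pow_add]
          exact Nat.add_le_add le_rfl a2
      _ = 4 * L ^ 50 := by ring
  have e4 : 1 ≤ L ^ 50 := Nat.one_le_pow _ _ (by omega)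
  have e5 : L ^ 20 ≤ L ^ 50 := Nat.pow_le_pow_right (by omega) (by norm_num)
  have e6 : L ^ 19 ≤ L ^ 50 := Nat.pow_le_pow_right (by omega) (by norm_num)
  have e7 : g ≤ L ^ 50 := hg.trans (Nat.pow_le_pow_right (by omega) (by norm_num))
  have e8 : 4 * 100 * L ^ 50 ≤ L ^ 52 := by
    calc 4 * 100 * L ^ 50 ≤ L ^ 51 := lp (by omega) h1L (by norm_num)
      _ ≤ L ^ 52 := Nat.pow_le_pow_right (by omega) (by norm_num)
  have e9 : (2 * L * (NG L * g) + 1) * υ + 2 * (NG L * (g * υ)) + g * υ +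
      υ * (g * ((L ^ 9 * L ^ 37 + 1) * (g + 1)) + 3) + 8 * υ =
      (2 * L * (NG L * g) + 1 + 2 * (NG L * g) + g + (g * ((L ^ 9 * L ^ 37 + 1) * (g + 1)) + 3) + 8) * υ := by
    ring
  rw [e9]
  have e10 : 2 * L * (NG L * g) + 1 + 2 * (NG L * g) + g + (g * ((L ^ 9 * L ^ 37 + 1) * (g + 1)) + 3) + 8 ≤
      100 * L ^ 50 := by omega
  calc 4 * ((2 * L * (NG L * g) + 1 + 2 * (NG L * g) + g + (g * ((L ^ 9 * L ^ 37 + 1) * (g + 1)) + 3) + 8) * υ)
      ≤ 4 * ((100 * L ^ 50) * υ) := Nat.mul_le_mul_left _ (Nat.mul_le_mul_right _ e10)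
    _ = υ * (4 * 100 * L ^ 50) := by ring
    _ ≤ υ * L ^ 52 := Nat.mul_le_mul_left _ e8
    _ ≤ M := h.u1

lemma Par.NA (h : Par L M υ g X) : 2 * M < NAf M υ g * (g * υ) ∧ NAf M υ g * (g * υ) ≤ 2 * M + g * υ := by
  obtain ⟨hM, hυ⟩ := h.pos
  have hg := h.g1
  have hgu : 0 < g * υ := Nat.mul_pos (by omega) (by omega)
  unfold NAf
  have h1 := Nat.div_add_mod (2 * M) (g * υ)
  have h2 := Nat.mod_lt (2 * M) hgu
  have h3 : (2 * M / (g * υ) + 1) * (g * υ) = g * υ * (2 * M / (g * υ)) + g * υ := by ring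
  rw [h3]
  omega

lemma Par.top (h : Par L M υ g X) {i : ℕ} (hi : i < NN L M υ g) :
    wpos M υ g (N0 L M υ g) i + 8 * υ ≤ 4 * M := by
  obtain ⟨hM, hυ⟩ := h.pos
  have h1 := h.small
  have h2 := h.NA
  have h3 : wpos M υ g (N0 L M υ g) i ≤ wpos M υ g (N0 L M υ g) (NN L M υ g) := wpos_mono hi.le
  have h4 : wpos M υ g (N0 L M υ g) (NN L M υ g) = M + N0 L M υ g * (g * υ) +
      ((L ^ 9 * L ^ 37 + 1) * g) * ((g + 1) * υ) := wpos_ge _ _
  have h5 : N0 L M υ g * (g * υ) = NG L * (g * υ) + NAf M υ g * (g * υ) := by unfold N0; ring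
  have h6 : ((L ^ 9 * L ^ 37 + 1) * g) * ((g + 1) * υ) = υ * (g * ((L ^ 9 * L ^ 37 + 1) * (g + 1))) := by ring
  have h7 : υ * (g * ((L ^ 9 * L ^ 37 + 1) * (g + 1)) + 3) =
      υ * (g * ((L ^ 9 * L ^ 37 + 1) * (g + 1))) + 3 * υ := by ring
  have h8 : (2 * L * (NG L * g) + 1) * υ ≥ 0 := Nat.zero_le _
  rw [h7] at h1
  rw [h5, h6] at h4
  generalize υ * (g * ((L ^ 9 * L ^ 37 + 1) * (g + 1))) = a at *
  generalize NG L * (g * υ) = b at *
  generalize NAf M υ g * (g * υ) = c at *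
  generalize (2 * L * (NG L * g) + 1) * υ = d at *
  generalize g * υ = e at *
  omega

end Pool.Agent.H550U.W
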