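import Pool.Agent.H550U.W.ScaleC

/-!
# One scale
-/

namespace Pool.Agent.H550U.W

open Finset

variable {L M υ g X : ℕ}

/-- almost all numbers at the right distance are reached -/
def Conn (L M X : ℕ) (S : Finset (ℕ × ℕ)) (T : Finset ℕ) : Prop :=
  ∀ y, PP y → y ≤ X / 4 → y ∉ EE X S → ∀ Z : Finset ℕ, (∀ z ∈ Z, z ≤ X ∧ PP z ∧ y + (2 * L + 4) * M + M / 4 ≤ z ∧
    z ≤ y + (2 * L + 6) * M ∧ ¬ Reach T y z) → (#Z : ℝ) ≤ X / (L : ℝ) ^ 156

variable {P : ℕ → Finset ℕ} {Ok : ℕ → ℕ → Prop} {Adm : ℕ → ℕ → ℕ → Prop}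

theorem Par.grow (hp : Par L M υ g X) {S : Finset (ℕ × ℕ)} (hS : TCat X S)
    (hP : ∀ i, i < NN L M υ g → P i = wP M υ g (N0 L M υ g) i)
    (hwin : Win P Ok Adm (1 / (2 * (L : ℝ) ^ 35)) 0 (NN L M υ g)) (r : ℕ) (hr : Ok 0 r)
    (Y : Finset ℕ) (hY : ∀ y ∈ Y, y ≤ X / 4 ∧ PP y ∧ y ∉ EE X S) :
    ∃ τ : ℕ → ℕ, Sel P Ok Adm 0 (NG L) r τ ∧ ∃ V : ℕ → Finset ℕ, ∀ y ∈ Y,
      (∀ v ∈ V y, PP v ∧ v ∉ EE X S ∧ Reach (tset τ 0 (NG L)) y v ∧ y + 2 * L * M ≤ v ∧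
        v ≤ y + 2 * L * (M + NG L * (g * υ))) ∧ 2 * (υ : ℝ) / (L : ℝ) ^ 7 ≤ #(V y) := by
  classical
  obtain ⟨hM1, hυ1⟩ := hp.pos
  have hL := hp.Lpos
  have hLn := hp.hL
  have hg1 := hp.g1
  have hng : 0 + 2 * L * (8 * L ^ 7 * L ^ 9) = NG L := by unfold NG; ring
  have hNN : NG L ≤ NN L M υ g := by unfold NN N0; omega
  have hsmall := hp.small
  have hυ0 : (0 : ℝ) ≤ υ := Nat.cast_nonneg _
  have hYc : (#Y : ℝ) ≤ X + 1 := by
    have h1 : Y ⊆ range (X + 1) := fun y hy => by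
      rw [mem_range]; have := (hY y hy).1; omega
    have h2 := card_le_card h1
    rw [card_range] at h2
    exact_mod_cast h2
  have hX16 : 16 * L * M ≤ X := by
    rw [hp.hX, mul_comm]
    refine Nat.mul_le_mul_left _ ?_
    calc 16 * L = 16 * L ^ 1 := by ring
      _ ≤ L ^ 58 := lp (by omega) (by omega) (by norm_num)
  have hgr := growth (P := P) (Ok := Ok) (Adm := Adm) (1 / (2 * (L : ℝ) ^ 35)) (8 * υ) ((L : ℝ) ^ 7)
    (one_le_pow₀ (by linarith)) (by positivity) (by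
      apply one_div_le_one_div_of_le (by positivity)
      have : (L : ℝ) ^ 35 = (L : ℝ) ^ 7 * (L : ℝ) ^ 28 := by rw [← pow_add]
      rw [this]
      have h28 : (L : ℝ) ≤ (L : ℝ) ^ 28 := le_self_pow₀ (by linarith) (by norm_num)
      have h7 : (0 : ℝ) < (L : ℝ) ^ 7 := by positivity
      nlinarith) (EE X S) (by
      refine (hp.E_le hS).trans ?_
      have e1 : (L : ℝ) ^ 7 ≤ (L : ℝ) ^ 184 := pow_le_pow_right₀ (by linarith) (by norm_num)
      have e2 : (0 : ℝ) < (L : ℝ) ^ 7 := by positivity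
      calc (υ : ℝ) / (L : ℝ) ^ 184 ≤ υ / (L : ℝ) ^ 7 := by gcongr
        _ = 4 * υ / (4 * (L : ℝ) ^ 7) := by field_simp
        _ ≤ 8 * υ / (4 * (L : ℝ) ^ 7) := by gcongr; norm_num) Y (L ^ 9) (8 * L ^ 7)
    (hp.exp3 _ (Nat.cast_nonneg _) hYc) (by push_cast; exact le_rfl) M (NG L * (g * υ)) X (fun y hy => (hY y hy).2)
    0 r hr (2 * L) (by
      intro y hy
      have h1 := (hY y hy).1
      have h2 : NG L * (g * υ) ≤ M := by omega
      have h3 : 2 * L * (M + NG L * (g * υ)) ≤ 2 * L * (M + M) := Nat.mul_le_mul_left _ (by omega)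
      have h4 : 2 * L * (M + M) = 4 * (L * M) := by ring
      have h5 : 16 * L * M = 16 * (L * M) := by ring
      omega)
    (hwin.sub le_rfl (by rw [hng]; exact hNN)) (by
      intro i _ hi
      rw [hng] at hi
      have hw : wpos M υ g (N0 L M υ g) i = M + i * (g * υ) := wpos_lt (by unfold N0; omega)
      rw [hP i (by omega)]
      have h1 : (i + 1) * (g * υ) ≤ NG L * (g * υ) := Nat.mul_le_mul_right _ hi
      have h2 : (i + 1) * (g * υ) = i * (g * υ) + g * υ := by ring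
      have h3 : 8 * υ ≤ g * υ := Nat.mul_le_mul_right _ hg1
      constructor
      · have h4 : wP M υ g (N0 L M υ g) i ⊆ Ioc (M + i * (g * υ)) (M + i * (g * υ) + 8 * υ) := by
          intro t ht
          rw [mem_wP, hw] at ht
          rw [mem_Ioc]
          exact ht.1
        have h5 := card_le_card h4
        rw [Nat.card_Ioc, Nat.add_sub_cancel_left] at h5
        exact_mod_cast h5
      · intro t ht
        rw [mem_wP, hw] at ht
        omega)
    (by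
      intro i _ hi v hv hvE hvX Q hQ
      rw [hng] at hi
      have hw : wpos M υ g (N0 L M υ g) i = M + i * (g * υ) := wpos_lt (by unfold N0; omega)
      refine hp.deg hS (wpos M υ g (N0 L M υ g) i) v (by omega) (hp.top (by omega)) hv hvE hvX Q ?_
      intro t
      rw [hQ, hP i (by omega), mem_wP]
      tauto)
  rw [hng] at hgr
  obtain ⟨τ₁, hτ₁, V, hV⟩ := hgr
  refine ⟨τ₁, hτ₁, V, fun y hy => ⟨(hV y hy).1, ?_⟩⟩
  have h1 := (hV y hy).2
  have h2 : 8 * (υ : ℝ) / (4 * (L : ℝ) ^ 7) = 2 * (υ : ℝ) / (L : ℝ) ^ 7 := by field_simp; norm_num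
  rw [h2, min_eq_left hp.two_pow] at h1
  exact h1

end Pool.Agent.H550U.W
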