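import Pool.Agent.H550U.W.ScaleD

/-!
# One scale, conclusion
-/

namespace Pool.Agent.H550U.W

open Finset

variable {L M υ g X : ℕ}

variable {P : ℕ → Finset ℕ} {Ok : ℕ → ℕ → Prop} {Adm : ℕ → ℕ → ℕ → Prop}

theorem scale (hp : Par L M υ g X) {S : Finset (ℕ × ℕ)} (hS : TCat X S)
    (hP : ∀ i, i < NN L M υ g → P i = wP M υ g (N0 L M υ g) i)
    (hwin : Win P Ok Adm (1 / (2 * (L : ℝ) ^ 35)) 0 (NN L M υ g)) (r : ℕ) (hr : Ok 0 r) :
    ∃ τ : ℕ → ℕ, Sel P Ok Adm 0 (NN L M υ g) r τ ∧ Conn L M X S (tset τ 0 (NN L M υ g)) := by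
  classical
  obtain ⟨hM1, hυ1⟩ := hp.pos
  have hL := hp.Lpos
  have hLn := hp.hL
  have hg1 := hp.g1
  have hNN : NG L + NAf M υ g + (L ^ 9 * L ^ 37 + 1) * g = NN L M υ g := by unfold NN N0; ring
  have hsmall := hp.small
  have hNA := hp.NA
  have hυ0 : (0 : ℝ) < υ := by exact_mod_cast hυ1
  obtain ⟨Y, hYd⟩ : ∃ Y : Finset ℕ, Y = (range (X / 4 + 1)).filter fun y => PP y ∧ y ∉ EE X S := ⟨_, rfl⟩
  have hY : ∀ y, y ∈ Y ↔ y ≤ X / 4 ∧ PP y ∧ y ∉ EE X S := by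
    intro y
    rw [hYd, mem_filter, mem_range]
    constructor
    · rintro ⟨h1, h2⟩; exact ⟨by omega, h2⟩
    · rintro ⟨h1, h2⟩; exact ⟨by omega, h2⟩
  have hYc : (#Y : ℝ) ≤ X + 1 := by
    have h1 : Y ⊆ range (X + 1) := fun y hy => by
      rw [mem_range]; have := ((hY y).mp hy).1; omega
    have h2 := card_le_card h1
    rw [card_range] at h2
    exact_mod_cast h2
  obtain ⟨τ₁, hτ₁, V, hV⟩ := hp.grow hS hP hwin r hr Y (fun y hy => (hY y).mp hy)
  -- concentration in a short cell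
  obtain ⟨K, hK⟩ : ∃ K, K = 2 * L * (NG L * g) + 1 := ⟨_, rfl⟩
  have hcell : ∀ y, ∃ c, y ∈ Y → c < K ∧ #(V y) ≤ K * #((V y).filter fun v => y + 2 * L * M + c * υ ≤ v ∧
      v < y + 2 * L * M + c * υ + υ) := by
    intro y
    by_cases hy : y ∈ Y
    · obtain ⟨c, hc⟩ := pigeon (V y) (y + 2 * L * M) υ K hυ1 (by omega) (by
        intro v hv
        obtain ⟨-, -, -, h4, h5⟩ := (hV y hy).1 v hv
        refine ⟨h4, ?_⟩
        have h6 : 2 * L * (M + NG L * (g * υ)) = 2 * L * M + 2 * L * (NG L * g) * υ := by ring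
        have h7 : K * υ = 2 * L * (NG L * g) * υ + υ := by rw [hK]; ring
        omega)
      exact ⟨c, fun _ => hc⟩
    · exact ⟨0, fun h => absurd h hy⟩
  choose cf hcf using hcell
  obtain ⟨F, hF⟩ : ∃ F : ℕ → Finset ℕ, ∀ y, F y = (V y).filter fun v => y + 2 * L * M + cf y * υ ≤ v ∧
      v < y + 2 * L * M + cf y * υ + υ := ⟨_, fun _ => rfl⟩
  have hKL : (K : ℝ) ≤ 33 * (L : ℝ) ^ 20 := by
    have h1 : K ≤ 33 * L ^ 20 := by
      have hng : NG L = 16 * L ^ 17 := by unfold NG; ring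
      have h2 : NG L * g ≤ 16 * L ^ 19 := by
        rw [hng]
        calc 16 * L ^ 17 * g ≤ 16 * L ^ 17 * L ^ 2 := Nat.mul_le_mul_left _ hp.g2
          _ = 16 * L ^ 19 := by ring
      have h3 : 2 * L * (NG L * g) ≤ 32 * L ^ 20 := by
        calc 2 * L * (NG L * g) ≤ 2 * L * (16 * L ^ 19) := Nat.mul_le_mul_left _ h2
          _ = 32 * L ^ 20 := by ring
      have h4 : 1 ≤ L ^ 20 := Nat.one_le_pow _ _ (by omega)
      omega
    exact_mod_cast h1
  have hFc : ∀ y ∈ Y, (υ : ℝ) / (17 * (L : ℝ) ^ 27) ≤ #(F y) := by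
    intro y hy
    have h1 := (hV y hy).2
    have h2 : (#(V y) : ℝ) ≤ K * #(F y) := by
      rw [hF]
      exact_mod_cast (hcf y hy).2
    have h3 : 2 * (υ : ℝ) / (L : ℝ) ^ 7 ≤ 33 * (L : ℝ) ^ 20 * #(F y) := by
      calc 2 * (υ : ℝ) / (L : ℝ) ^ 7 ≤ #(V y) := h1
        _ ≤ K * #(F y) := h2
        _ ≤ 33 * (L : ℝ) ^ 20 * #(F y) := by gcongr
    rw [div_le_iff₀ (by positivity)] at h3 ⊢
    have h4 : 33 * (L : ℝ) ^ 20 * #(F y) * (L : ℝ) ^ 7 = 33 * (#(F y) * (L : ℝ) ^ 27) := by ring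
    have h5 : (#(F y) : ℝ) * (17 * (L : ℝ) ^ 27) = 17 * (#(F y) * (L : ℝ) ^ 27) := by ring
    rw [h4] at h3
    rw [h5]
    have h6 : (0 : ℝ) ≤ #(F y) * (L : ℝ) ^ 27 := mul_nonneg (Nat.cast_nonneg _) (pow_nonneg (Nat.cast_nonneg _) _)
    linarith
  have hXbig : (2 * L + 8) * M + X / 4 ≤ X := by
    have h1 : 4 * (2 * L + 8) * M ≤ X := by
      rw [hp.hX, mul_comm]
      refine Nat.mul_le_mul_left _ ?_
      calc 4 * (2 * L + 8) ≤ 12 * L ^ 1 := by rw [pow_one]; omega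
        _ ≤ L ^ 58 := lp (by omega) (by omega) (by norm_num)
    have h2 : 4 * (2 * L + 8) * M = 4 * ((2 * L + 8) * M) := by ring
    omega
  have hfin := final (P := P) (Ok := Ok) (Adm := Adm) (1 / (2 * (L : ℝ) ^ 35)) ((L : ℝ) ^ 7) (1 / (L : ℝ) ^ 35)
    ((υ : ℝ) / (17 * (L : ℝ) ^ 27)) (one_le_pow₀ (by linarith)) (by positivity) (by
      apply one_div_le_one_div_of_le (by positivity)
      have : (L : ℝ) ^ 35 = (L : ℝ) ^ 7 * (L : ℝ) ^ 28 := by rw [← pow_add]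
      rw [this]
      have h28 : (L : ℝ) ≤ (L : ℝ) ^ 28 := le_self_pow₀ (by linarith) (by norm_num)
      have h7 : (0 : ℝ) < (L : ℝ) ^ 7 := by positivity
      nlinarith) (le_of_eq (by rw [div_div, mul_comm])) (by
      rw [div_le_one (by positivity)]
      exact one_le_pow₀ (by linarith)) υ g (M + NG L * (g * υ)) (M + NG L * (g * υ) + NAf M υ g * (g * υ))
    (NAf M υ g) (L ^ 9) (L ^ 37) X (NG L) (τ₁ (NG L)) hυ1 (by omega) hτ₁.2.2 S Y F (fun y => y + 2 * L * M + cf y * υ)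
    (tset τ₁ 0 (NG L)) (by
      intro y hy v hv
      rw [hF, mem_filter] at hv
      obtain ⟨h1, h2, h3, h4, h5⟩ := (hV y hy).1 v hv.1
      refine ⟨h1, h1.pos, ?_, hv.2.1, hv.2.2, h3⟩
      have h6 := ((hY y).mp hy).1
      have h7 : 2 * L * (M + NG L * (g * υ)) = 2 * L * M + 2 * L * (NG L * g) * υ := by ring
      have h8 : (2 * L * (NG L * g) + 1) * υ = 2 * L * (NG L * g) * υ + υ := by ring
      have h9 : (2 * L + 8) * M = 2 * L * M + 8 * M := by ring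
      omega) hFc (by positivity) (by
      rw [div_mul_eq_mul_div, one_mul, div_div, div_le_div_iff₀ (by positivity) (by positivity)]
      have h1 : (υ : ℝ) * (L : ℝ) ^ 35 = υ * (L : ℝ) ^ 34 * L := by ring
      have h2 : 8 * (υ : ℝ) * (17 * (L : ℝ) ^ 27 * (16 * (L : ℝ) ^ 7)) = υ * (L : ℝ) ^ 34 * 2176 := by ring
      rw [h1, h2]
      gcongr
      linarith) (by
      intro v s' hv1 hvX hs'X hv6 hs6 hvs u' v' hv's hu huv Q hQ
      exact hp.ternary hS v s' hv1 hvX hs'X hv6 hs6 hvs u' v' hv's (by omega) huv Q hQ) (by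
      rw [hNN]
      exact hwin.sub (Nat.zero_le _) le_rfl) (by
      intro a ha t
      rw [hP (NG L + a) (by unfold NN N0; omega), mem_wP,
        wpos_lt (n0 := N0 L M υ g) (i := NG L + a) (by unfold N0; omega)]
      have h1 : M + (NG L + a) * (g * υ) = M + NG L * (g * υ) + a * (g * υ) := by ring
      rw [h1]) (by
      intro b hb t
      have h0 : NG L + NAf M υ g + b = N0 L M υ g + b := by unfold N0; rfl
      rw [hP (NG L + NAf M υ g + b) (by unfold NN N0; omega), mem_wP, h0, wpos_ge]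
      have h1 : M + N0 L M υ g * (g * υ) = M + NG L * (g * υ) + NAf M υ g * (g * υ) := by unfold N0; ring
      rw [h1])
    (hp.exp1 _ hYc) (hp.exp2 _ hYc)
  rw [hNN] at hfin
  obtain ⟨τ₂, hτ₂, hR⟩ := hfin
  have hle1 : NG L ≤ NN L M υ g := by unfold NN N0; omega
  obtain ⟨τ, hτ, hl, hr'⟩ := Sel.glue (Nat.zero_le _) hle1 hτ₁ hτ₂
  refine ⟨τ, hτ, ?_⟩
  have hT1 : tset τ₁ 0 (NG L) = tset τ 0 (NG L) := (tset_congr fun i _ h2 => hl i h2).symm
  have hT2 : tset τ₂ (NG L) (NN L M υ g) = tset τ (NG L) (NN L M υ g) :=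
    (tset_congr fun i h1 _ => hr' i h1.le).symm
  rw [hT1, hT2] at hR
  have hsub : tset τ 0 (NG L) ∪ tset τ (NG L) (NN L M υ g) ⊆ tset τ 0 (NN L M υ g) :=
    union_subset (tset_mono le_rfl hle1) (tset_mono (Nat.zero_le _) le_rfl)
  intro y hy1 hy2 hy3 Z hZ
  have hyY : y ∈ Y := (hY y).mpr ⟨hy2, hy1, hy3⟩
  obtain ⟨cc, hcc⟩ : ∃ cc, cc = cf y * υ := ⟨_, rfl⟩
  have hcK : cc ≤ (2 * L * (NG L * g) + 1) * υ := by
    have h1 := (hcf y hyY).1
    rw [hcc, ← hK]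
    exact Nat.mul_le_mul_right _ h1.le
  have hexp : (2 * L + 4) * M = 2 * L * M + 4 * M := by ring
  have hexp6 : (2 * L + 6) * M = 2 * L * M + 6 * M := by ring
  have hbad : ∀ z ∈ Z, (∀ v ∈ F y, v ≤ z) ∧ #(F y) ≤ 2 * #((F y).filter fun v => (v, z - v) ∈ S) := by
    intro z hz
    obtain ⟨h1, h2, h3, h4, h5⟩ := hZ z hz
    have hlow : y + 2 * L * M + cc + (M + NG L * (g * υ)) + (M + NG L * (g * υ) + NAf M υ g * (g * υ)) +
        υ * (g * ((L ^ 9 * L ^ 37 + 1) * (g + 1)) + 3) ≤ z := by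
      rw [hexp] at h3
      generalize υ * (g * ((L ^ 9 * L ^ 37 + 1) * (g + 1)) + 3) = a at *
      generalize NG L * (g * υ) = b at *
      generalize NAf M υ g * (g * υ) = c at *
      generalize (2 * L * (NG L * g) + 1) * υ = d at *
      generalize g * υ = e at *
      generalize 2 * L * M = f at *
      omega
    have hhigh : z < y + 2 * L * M + cc + (M + NG L * (g * υ)) + (M + NG L * (g * υ) + NAf M υ g * (g * υ)) +
        υ * (g * NAf M υ g) := by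
      rw [hexp6] at h4
      have h6 : υ * (g * NAf M υ g) = NAf M υ g * (g * υ) := by ring
      rw [h6]
      omega
    constructor
    · intro v hv
      rw [hF, mem_filter, ← hcc] at hv
      have hv2 := hv.2.2
      have h8 : 3 * υ ≤ υ * (g * ((L ^ 9 * L ^ 37 + 1) * (g + 1)) + 3) := by
        have : υ * (g * ((L ^ 9 * L ^ 37 + 1) * (g + 1)) + 3) =
          υ * (g * ((L ^ 9 * L ^ 37 + 1) * (g + 1))) + 3 * υ := by ring
        omega
      omega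
    · by_contra hcon
      push Not at hcon
      refine h5 ((hR y hyY z h1 ⟨h2, ?_, ?_, hcon.le⟩).mono hsub)
      · simpa only [hcc] using hlow
      · simpa only [hcc] using hhigh
  have hcount := bad_count S (F y) Z hbad
  have h1 := hFc y hyY
  have h2 := hp.S_le hS
  have h3 := hp.XL
  have hX0 : (0 : ℝ) < X := by
    have := hp.Xbig
    exact_mod_cast (by omega : 0 < X)
  have h4 : (#Z : ℝ) * #(F y) ≤ 2 * #S := by exact_mod_cast hcount
  have h5 : (#Z : ℝ) * ((υ : ℝ) / (17 * (L : ℝ) ^ 27)) ≤ 2 * (X ^ 2 / (L : ℝ) ^ 300) := by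
    calc (#Z : ℝ) * ((υ : ℝ) / (17 * (L : ℝ) ^ 27)) ≤ (#Z : ℝ) * #(F y) := by gcongr
      _ ≤ 2 * #S := h4
      _ ≤ _ := by gcongr
  have hLp : ∀ n : ℕ, (0 : ℝ) < (L : ℝ) ^ n := fun n => pow_pos (by linarith) n
  -- multiply by X
  have h6 : (#Z : ℝ) * X ≤ 34 * (X ^ 2 / (L : ℝ) ^ 158) := by
    calc (#Z : ℝ) * X ≤ #Z * (υ * (L : ℝ) ^ 115) := by gcongr
      _ = #Z * ((υ : ℝ) / (17 * (L : ℝ) ^ 27)) * (17 * (L : ℝ) ^ 142) := by
        rw [show (L : ℝ) ^ 142 = (L : ℝ) ^ 27 * (L : ℝ) ^ 115 by rw [← pow_add]]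
        have := hLp 27
        field_simp
      _ ≤ 2 * (X ^ 2 / (L : ℝ) ^ 300) * (17 * (L : ℝ) ^ 142) :=
        mul_le_mul_of_nonneg_right h5 (mul_nonneg (by norm_num) (hLp 142).le)
      _ = 34 * (X ^ 2 / (L : ℝ) ^ 158) := by
        rw [show (L : ℝ) ^ 300 = (L : ℝ) ^ 158 * (L : ℝ) ^ 142 by rw [← pow_add]]
        have := hLp 142
        have := hLp 158
        field_simp
        norm_num
  have h7 : (#Z : ℝ) * X ≤ (X / (L : ℝ) ^ 156) * X := by
    refine h6.trans ?_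
    rw [mul_div_assoc', div_mul_eq_mul_div, div_le_div_iff₀ (hLp 158) (hLp 156)]
    have e1 : (L : ℝ) ^ 158 = L * L * (L : ℝ) ^ 156 := by
      rw [show (158 : ℕ) = 156 + 2 from rfl, pow_add]; ring
    have e2 : (0 : ℝ) ≤ X ^ 2 * (L : ℝ) ^ 156 := mul_nonneg (sq_nonneg _) (hLp 156).le
    rw [e1]
    calc 34 * (X : ℝ) ^ 2 * (L : ℝ) ^ 156 = X ^ 2 * (L : ℝ) ^ 156 * 34 := by
          rw [mul_assoc, mul_comm (34 : ℝ)]
      _ ≤ X ^ 2 * (L : ℝ) ^ 156 * (L * L) := by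
          apply mul_le_mul_of_nonneg_left _ e2
          have h9 : (34 : ℝ) ≤ L := le_trans (by norm_num) hL
          nlinarith only [h9]
      _ = X * X * (L * L * (L : ℝ) ^ 156) := by rw [sq, mul_assoc, mul_comm ((L : ℝ) ^ 156)]
  exact le_of_mul_le_mul_right h7 hX0

end Pool.Agent.H550U.W
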