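import Pool.Agent.H550U.W.Exc

/-!
# For almost all pairs `(y, s)` there are many `t` such that `t + 1`, `y + t + 1` and `s - t + 1` are primes
-/

namespace Pool.Agent.H550U.W

open Finset Polynomial
open Pool.Agent.H373R2.T7

/-- the numbers `n` divisible by `6` such that `n + 1` is a prime -/
def PP (n : ℕ) : Prop := 6 ∣ n ∧ (n + 1).Prime

/-- the sum of the model over an initial segment -/
lemma model_seg (U E : ℕ) : ∃ N0 : ℕ, ∀ N : ℕ, N0 ≤ N → ∀ y s : ℕ, 1 ≤ y → 6 ∣ y → 6 ∣ s → N ≤ s + 1 → ∀ z : ℕ, 1 ≤ z →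
    (z : ℝ) ≤ Real.log N ^ E → ∃ δ : ℝ, δ = ((Vz z)⁻¹) ^ 2 * ∏ p ∈ pz z, (1 - (rhoA (sysQ FF sg2 (av y s)) p : ℝ) / (p - 1 : ℝ)) ∧
      |∑ n ∈ Icc 1 N, ArithmeticFunction.vonMangoldt n * Wm z (av y s) n - δ * N| ≤ N / Real.log N ^ U := by
  have hc : 1 ≤ sysC FF := sysC_pos FF
  obtain ⟨N0, h0⟩ := sys_model FF FF_deg FF_lc sg2 sg2_pm _ _ (wd_lam (sysC FF) hc) E U
  refine ⟨N0, fun N hN y s hy1 hy hs hNs z hz1 hz2 => ⟨_, rfl, ?_⟩⟩
  have h1 := h0 N hN (av y s) (by
    intro i
    fin_cases i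
    · simpa [av] using hy1
    · simp [av]) z hz1 hz2
  have h2 : posCount FF sg2 (av y s) N = N := by
    unfold posCount
    rw [filter_true_of_mem, Nat.card_Icc, Nat.add_sub_cancel]
    intro n hn
    rw [mem_Icc] at hn
    rw [Fin.forall_fin_two, vl_zero, vl_one]
    constructor <;> omega
  rw [h2] at h1
  exact h1

/-- from prime values to `PP` -/
lemma wt_le (y s n : ℕ) (B : ℝ) (hB : 0 ≤ B) (h1 : Real.log ((y + n : ℕ) : ℝ) ≤ B) (h2 : Real.log ((s + 2 : ℕ) : ℝ) ≤ B) :
    Wt (av y s) n ≤ B ^ 2 ∧ 0 ≤ Wt (av y s) n ∧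
      (Wt (av y s) n ≠ 0 → (y + n).Prime ∧ (s + 2 - n).Prime) := by
  unfold Wt
  rw [Fin.prod_univ_two, vl_zero, vl_one]
  have e1 : ((y : ℤ) + n).toNat = y + n := by omega
  have e2 : ((s : ℤ) + 2 - n).toNat = s + 2 - n := by omega
  have a1 : 0 ≤ lamP ((y : ℤ) + n) := lamP_nonneg _
  have a2 : 0 ≤ lamP ((s : ℤ) + 2 - n) := lamP_nonneg _
  have b1 : lamP ((y : ℤ) + n) ≤ B := by
    unfold lamP
    rw [e1]
    split_ifs
    · exact h1
    · exact hB
  have b2 : lamP ((s : ℤ) + 2 - n) ≤ B := by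
    unfold lamP
    rw [e2]
    split_ifs with h
    · refine le_trans (Real.log_le_log ?_ ?_) h2
      · exact_mod_cast h.pos
      · exact_mod_cast (by omega : s + 2 - n ≤ s + 2)
    · exact hB
  refine ⟨?_, mul_nonneg a1 a2, fun h => ?_⟩
  · calc _ ≤ B * B := mul_le_mul b1 b2 a2 hB
      _ = B ^ 2 := by ring
  · rw [mul_ne_zero_iff] at h
    unfold lamP at h
    rw [e1, e2] at h
    constructor
    · by_contra hc
      exact h.1 (if_neg hc)
    · by_contra hc
      exact h.2 (if_neg hc)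

open Classical in
/-- a weighted sum over primes in a window is bounded by the number of the good `t` -/
lemma count_ge (y s u v x : ℕ) (hy : 6 ∣ y) (hs : 6 ∣ s) (hu : 3 ≤ u) (huv : u ≤ v) (hv : v ≤ s) (hyx : y + s + 2 ≤ x) :
    ∑ n ∈ Ioc (u + 1) (v + 1), ArithmeticFunction.vonMangoldt n * Wt (av y s) n ≤
      Real.log x ^ 3 * (#((Ioc u v).filter fun t => PP t ∧ PP (y + t) ∧ PP (s - t)) + 1) +
        Real.log x ^ 2 * (2 * √x * Real.log x) := by
  have hx1 : (1 : ℝ) ≤ x := by exact_mod_cast (by omega : 1 ≤ x)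
  have hl0 : 0 ≤ Real.log x := Real.log_nonneg hx1
  have hB : ∀ n ∈ Ioc (u + 1) (v + 1), Wt (av y s) n ≤ Real.log x ^ 2 ∧ 0 ≤ Wt (av y s) n ∧
      (Wt (av y s) n ≠ 0 → (y + n).Prime ∧ (s + 2 - n).Prime) := by
    intro n hn
    rw [mem_Ioc] at hn
    refine wt_le y s n (Real.log x) hl0 ?_ ?_
    · exact Real.log_le_log (by exact_mod_cast (by omega : 0 < y + n)) (by exact_mod_cast (by omega : y + n ≤ x))
    · exact Real.log_le_log (by positivity) (by exact_mod_cast (by omega : s + 2 ≤ x))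
  rw [← sum_filter_add_sum_filter_not (Ioc (u + 1) (v + 1)) (fun n => n.Prime)]
  refine add_le_add ?_ ?_
  · -- primes
    obtain ⟨T, hT⟩ : ∃ T, T = (Ioc u v).filter fun t => PP t ∧ PP (y + t) ∧ PP (s - t) := ⟨_, rfl⟩
    rw [← hT]
    have h1 : ∀ n ∈ (Ioc (u + 1) (v + 1)).filter (fun n => n.Prime),
        ArithmeticFunction.vonMangoldt n * Wt (av y s) n ≤
          if n - 1 ∈ insert (s - 2) T then Real.log x ^ 3 else 0 := by
      intro n hn
      obtain ⟨hn1, hn2⟩ := mem_filter.mp hn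
      obtain ⟨b1, b2, b3⟩ := hB n hn1
      rw [mem_Ioc] at hn1
      split_ifs with hmem
      · have h3 : ArithmeticFunction.vonMangoldt n ≤ Real.log x :=
          ArithmeticFunction.vonMangoldt_le_log.trans
            (Real.log_le_log (by exact_mod_cast (by omega : 0 < n)) (by exact_mod_cast (by omega : n ≤ x)))
        calc _ ≤ Real.log x * Real.log x ^ 2 := mul_le_mul h3 b1 b2 hl0
          _ = _ := by ring
      · have h4 : Wt (av y s) n = 0 := by
          by_contra hne
          obtain ⟨c1, c2⟩ := b3 hne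
          apply hmem
          rw [mem_insert]
          have d1 : n % 2 = 1 := by
            rcases hn2.eq_two_or_odd with h | h <;> omega
          have d2 : n % 3 ≠ 0 := by
            intro h
            have := (Nat.prime_dvd_prime_iff_eq Nat.prime_three hn2).mp (Nat.dvd_of_mod_eq_zero h)
            omega
          by_cases h3 : s + 2 - n = 3
          · left; omega
          · right
            have d3 : (s + 2 - n) % 3 ≠ 0 := by
              intro h
              have := (Nat.prime_dvd_prime_iff_eq Nat.prime_three c2).mp (Nat.dvd_of_mod_eq_zero h)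
              omega
            rw [hT, mem_filter, mem_Ioc]
            have e1 : n % 3 = 1 := by
              obtain ⟨s', hs'⟩ := hs
              obtain ⟨k, hk⟩ : ∃ k, s + 2 - n = k := ⟨_, rfl⟩
              rw [hk] at d3
              have : k + n = 6 * s' + 2 := by omega
              omega
            have e6 : 6 ∣ n - 1 := by omega
            have e7 : 6 ∣ y + (n - 1) := by omega
            have e8 : 6 ∣ s - (n - 1) := by omega
            refine ⟨⟨by omega, by omega⟩, ⟨e6, ?_⟩, ⟨e7, ?_⟩, ⟨e8, ?_⟩⟩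
            · rw [show n - 1 + 1 = n by omega]; exact hn2
            · rw [show y + (n - 1) + 1 = y + n by omega]; exact c1
            · rw [show s - (n - 1) + 1 = s + 2 - n by omega]; exact c2
        rw [h4, mul_zero]
    refine (sum_le_sum h1).trans ?_
    rw [← sum_filter, sum_const, nsmul_eq_mul, mul_comm]
    have h5 : #(filter (fun n => n - 1 ∈ insert (s - 2) T) ((Ioc (u + 1) (v + 1)).filter fun n => n.Prime)) ≤ #T + 1 := by
      refine le_trans ?_ (card_insert_le (s - 2) T)
      refine card_le_card_of_injOn (fun n => n - 1) ?_ ?_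
      · intro n hn
        exact (mem_filter.mp (mem_coe.mp hn)).2
      · intro n hn n' hn' he
        have a1 := mem_Ioc.mp (mem_filter.mp (mem_filter.mp (mem_coe.mp hn)).1).1
        have a2 := mem_Ioc.mp (mem_filter.mp (mem_filter.mp (mem_coe.mp hn')).1).1
        simp only at he
        omega
    have h6 : (#(filter (fun n => n - 1 ∈ insert (s - 2) T) ((Ioc (u + 1) (v + 1)).filter fun n => n.Prime)) : ℝ) ≤
        #T + 1 := by exact_mod_cast h5
    have h7 : 0 ≤ Real.log x ^ 3 := by positivity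
    exact mul_le_mul_of_nonneg_left h6 h7
  · -- prime powers
    have h1 : ∀ n ∈ (Ioc (u + 1) (v + 1)).filter (fun n => ¬ n.Prime),
        ArithmeticFunction.vonMangoldt n * Wt (av y s) n ≤ Real.log x ^ 2 * ArithmeticFunction.vonMangoldt n := by
      intro n hn
      obtain ⟨b1, -, -⟩ := hB n (mem_filter.mp hn).1
      rw [mul_comm (Real.log x ^ 2)]
      exact mul_le_mul_of_nonneg_left b1 ArithmeticFunction.vonMangoldt_nonneg
    refine (sum_le_sum h1).trans ?_
    rw [← mul_sum]
    refine mul_le_mul_of_nonneg_left ?_ (by positivity)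
    have h2 := Chebyshev.psi_sub_theta_le hx1
    have h3 : ∑ n ∈ (Ioc (u + 1) (v + 1)).filter (fun n => ¬ n.Prime), ArithmeticFunction.vonMangoldt n ≤
        Chebyshev.psi (x : ℝ) - Chebyshev.theta (x : ℝ) := by
      rw [Chebyshev.psi_sub_theta_eq_sum_not_prime, Nat.floor_natCast]
      refine sum_le_sum_of_subset_of_nonneg ?_ fun n _ _ => ArithmeticFunction.vonMangoldt_nonneg
      intro n hn
      obtain ⟨h4, h5⟩ := mem_filter.mp hn
      rw [mem_Ioc] at h4
      rw [mem_filter, mem_Ioc]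
      exact ⟨⟨by omega, by omega⟩, h5⟩
    exact h3.trans h2

end Pool.Agent.H550U.W
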